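import Mathlib

/-!
# Project TD (helper38, MP_db9399_co), part 2 (dense graphs): statements of three modules
-/

set_option autoImplicit false

namespace Pool.Agent.D0H38.TD

/-- PM (Dirac): a graph has a perfect matching on the even set `S` if every vertex in `S` has at least
`|S| / 2` neighbours in `S`. `m v` is the partner of `v`.
Proof: show by induction on `j` that for all `j` with `2 j ≤ |S|` there are `T ⊆ S` with `|T| = 2 j` and
`m` with `m v ∈ T`, `G.Adj v (m v)`, `m (m v) = v` for all `v ∈ T`; at the end `T = S`. Step: `S \ T` has two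
vertices. If two vertices `u, v ∈ S \ T` are adjacent, add them. Otherwise take `u ≠ v` in `S \ T`: all their
neighbours in `S` are in `T`, so the number of `w ∈ T` with `u ~ w` plus the number of `w ∈ T` with
`v ~ m w` (`m` is a bijection of `T`) is at least `|S| > |T|`; hence there is `w ∈ T` with `u ~ w` and
`v ~ m w`, and we replace the pair `w, m w` by the pairs `u, w` and `v, m w`. -/
def S_PM : Prop :=
  ∀ (V : Type) [Fintype V] (G : SimpleGraph V) (S : Finset V), Even S.card →
    (∀ v ∈ S, S.card ≤ 2 * {w | w ∈ S ∧ G.Adj v w}.ncard) →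
    ∃ m : V → V, ∀ v ∈ S, m v ∈ S ∧ G.Adj v (m v) ∧ m (m v) = v

/-- DEC: the colour classes of `κ : V → Fin c` are divided into pieces of at most `s` elements, the parity of
all pieces being that of `|V|`; at most `|V| / s + c` pieces, at most `c` elements are in no piece.
Proof: for one finset `C` (strong induction on `|C|`) there is `Q : Finset (Finset V)` with pairwise
disjoint members, all of them contained in `C`, of card `≤ s` and of the parity of `|V|`, with
`Q.card ≤ C.card / s + 1`, and at most one element of `C` outside all members: if `|C| ≥ s` take a subset of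
card `s` and the family of the rest; if `|C| < s`: if `|C|` has the right parity take `{C}`, if not and `C` is
empty take `∅`, if not and `C` is not empty remove one element. Then take the union over the
classes; members of different classes are different or both empty, and disjoint;
`∑ ⌊a_i / s⌋ ≤ ⌊∑ a_i / s⌋`. -/
def S_DEC : Prop :=
  ∀ (V : Type) [Fintype V] [DecidableEq V] (c s : ℕ) (κ : V → Fin c), 1 ≤ s →
    Even (Fintype.card V + s) →
    ∃ Q : Finset (Finset V),
      (∀ P ∈ Q, P.card ≤ s ∧ Even (Fintype.card V + P.card) ∧ ∀ u ∈ P, ∀ v ∈ P, κ u = κ v) ∧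
      (∀ P ∈ Q, ∀ P' ∈ Q, P ≠ P' → Disjoint P P') ∧
      Q.card ≤ Fintype.card V / s + c ∧ {v | ∀ P ∈ Q, v ∉ P}.ncard ≤ c

/-- EXA: if `κ : V → Fin c` and `k s + c (s - 1) ≤ |V|`, then there are `k` pairwise disjoint sets of exactly
`s` vertices on which `κ` is constant. Proof: induction on `k`, `j < k` sets leave `|V| - j s > c (s - 1)`
vertices, so one colour has `s` of them. -/
def S_EXA : Prop :=
  ∀ (V : Type) [Fintype V] [DecidableEq V] (c s k : ℕ) (κ : V → Fin c), 1 ≤ s →
    k * s + c * (s - 1) ≤ Fintype.card V →
    ∃ I : Fin k → Finset V, (∀ i, (I i).card = s ∧ ∀ u ∈ I i, ∀ v ∈ I i, κ u = κ v) ∧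
      ∀ i j, i ≠ j → Disjoint (I i) (I j)

/-- PERM: any three different elements of `Fin K` are mapped to any three different elements by a
permutation (compose three transpositions, or extend a bijection between subtypes). -/
def S_PERM : Prop :=
  ∀ (K : ℕ) (a b c a' b' c' : Fin K), a ≠ b → a ≠ c → b ≠ c → a' ≠ b' → a' ≠ c' → b' ≠ c' →
    ∃ σ : Equiv.Perm (Fin K), σ a = a' ∧ σ b = b' ∧ σ c = c'

end Pool.Agent.D0H38.TD
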