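import Mathlib

/-!
# Project TD (helper38, MP_db9399_co), part 3 (dense graphs, stronger form): statements
-/

set_option autoImplicit false

namespace Pool.Agent.D0H38.TD

/-- PM2: a matching inside `S` which covers `L ⊆ S` (`T` is the set of the covered vertices and `m v` the
partner of `v`), if every vertex in `L` has at least `(|S| + 1) / 2` neighbours in `S`, and `|L|` is even or
`2 |L| ≤ |S| + 1`.
Proof. Consider the pairs `(T, m)` with `T ⊆ S`, `m v ∈ T`, `G.Adj v (m v)`, `m (m v) = v` for `v ∈ T`, and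
(inv) `m v ∈ L` for all `v ∈ T \ L`. If some `u ∈ L` is not in `T`, there is such a pair with a larger
`|T ∩ L|` (so induction on `|L| - |T ∩ L|`):
(0) if `u` has a neighbour `w ∈ S \ T`, add the pair `u, w`. Otherwise `N_S(u) ⊆ T`.
(1) Suppose `T ⊆ L`. If `2 |L| ≤ |S| + 1`: `u` has at least `|L|` neighbours in `S`, so one of them is not in `L`,
hence not in `T`, contradiction to (0). If `|L|` is even: `|T|` is even (fixed point free involution, e.g.
`Finset.sum_involution` in `ZMod 2`), so there is a second vertex `v ≠ u` in `L \ T`; we may assume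
`N_S(v) ⊆ T`; the number of `w ∈ T` with `u ~ w` plus the number of `w ∈ T` with `v ~ m w` is at least
`|S| + 1 > |T|`, so some `w ∈ T` has `u ~ w` and `v ~ m w`; replace the pair `w, m w` by `u, w` and `v, m w`.
(2) Suppose there is `x ∈ T \ L`; let `y = m x ∈ L` (inv). If `u ~ y`, replace the pair `x, y` by `u, y`.
Otherwise the sets `m (N_S(u)) ⊆ T ⊆ S` and `N_S(y) ⊆ S` have together at least `|S| + 1` elements, so there is
`w ∈ T` with `u ~ w` and `y ~ m w`. Then `w ≠ y`, `m w ≠ y`, so `w ≠ x`, `m w ≠ x`; replace the pairs `w, m w`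
and `x, y` by `u, w` and `y, m w` (`x` is no longer covered, it is not in `L`). -/
def S_PM2 : Prop :=
  ∀ (V : Type) [Fintype V] (G : SimpleGraph V) (S L : Finset V), L ⊆ S →
    (Even L.card ∨ 2 * L.card ≤ S.card + 1) →
    (∀ v ∈ L, S.card + 1 ≤ 2 * {w | w ∈ S ∧ G.Adj v w}.ncard) →
    ∃ (T : Finset V) (m : V → V), L ⊆ T ∧ T ⊆ S ∧ ∀ v ∈ T, m v ∈ T ∧ G.Adj v (m v) ∧ m (m v) = v

/-- DEC2: the same as DEC (Stm2) for a set `L` instead of all vertices: the colour classes of
`κ : V → Fin c` in `L` are divided into pieces of at most `s` elements, the parity of all pieces being that of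
`|L|`; at most `|L| / s + c` pieces, at most `c` elements of `L` are in no piece.
Proof: for one finset `C` (strong induction on `|C|`) there is `Q : Finset (Finset V)` with pairwise
disjoint members, all of them contained in `C`, of card `≤ s` and of the parity of `|L|`, with
`Q.card ≤ C.card / s + 1`, and at most one element of `C` outside all members: if `|C| ≥ s` take a subset of
card `s` and the family of the rest; if `|C| < s`: if `|C|` has the right parity take `{C}`, if not and `C` is
empty take `∅`, if not and `C` is not empty remove one element. Then take the union over the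
classes `L.filter (κ · = i)`; members of different classes are different or both empty, and disjoint;
`∑ ⌊a_i / s⌋ ≤ ⌊∑ a_i / s⌋`. -/
def S_DEC2 : Prop :=
  ∀ (V : Type) [Fintype V] [DecidableEq V] (c s : ℕ) (κ : V → Fin c) (L : Finset V), 1 ≤ s →
    Even (L.card + s) →
    ∃ Q : Finset (Finset V),
      (∀ P ∈ Q, P ⊆ L ∧ P.card ≤ s ∧ Even (L.card + P.card) ∧ ∀ u ∈ P, ∀ v ∈ P, κ u = κ v) ∧
      (∀ P ∈ Q, ∀ P' ∈ Q, P ≠ P' → Disjoint P P') ∧
      Q.card ≤ L.card / s + c ∧ {v | v ∈ L ∧ ∀ P ∈ Q, v ∉ P}.ncard ≤ c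

/-- DEC3: without the parity condition, and everything is covered. -/
def S_DEC3 : Prop :=
  ∀ (V : Type) [Fintype V] [DecidableEq V] (c s : ℕ) (κ : V → Fin c), 1 ≤ s →
    ∃ Q : Finset (Finset V),
      (∀ P ∈ Q, P.card ≤ s ∧ ∀ u ∈ P, ∀ v ∈ P, κ u = κ v) ∧
      (∀ P ∈ Q, ∀ P' ∈ Q, P ≠ P' → Disjoint P P') ∧
      Q.card ≤ Fintype.card V / s + c ∧ ∀ v, ∃ P ∈ Q, v ∈ P

end Pool.Agent.D0H38.TD
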