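import Mathlib
import Pool.Agent.Q6.CI.Vizing
import Pool.Agent.D0H38.TD.Stm3

/-!
# Project TD (helper38, MP_db9399_co), part 5: statements for Q1 with exactly `D + 2` colours
-/

set_option autoImplicit false

namespace Pool.Agent.D0H38.TD

/-- VSP (Vizing with an independent set of vertices of full degree). Proof: `Pool.Q6.CI.ext_vertex` and
`Pool.Q6.CI.vizing` in `Pool/Agent/Q6/CI/Vizing.lean`: the graph without the edges at `Sp` has degrees
`≤ n - 1`, so `vizing` gives `EC _ n`; then give the vertices of `Sp` their edges one after the other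
(induction over a subset `T` of `Sp`, graph: edges of `G` with no end in `T`; `ext_vertex` at `v`: all
neighbours of `v ∈ Sp` are outside `Sp`, so of degree `< n`, and its hypothesis `h1` is vacuous). -/
def S_VSP : Prop :=
  ∀ (V : Type) [Fintype V] (G : SimpleGraph V) (n : ℕ) (Sp : Finset V), 1 ≤ n →
    (∀ v, Pool.Q6.CI.dg G v ≤ n) → (∀ v, v ∉ Sp → Pool.Q6.CI.dg G v < n) →
    (∀ u ∈ Sp, ∀ v ∈ Sp, ¬ G.Adj u v) → Pool.Q11.TwoEnd.EC G n

/-- VB (Vizing with bins). `U` is a set of vertices without edges inside, divided into 6 bins; vertices of the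
same bin have no common neighbour and are identified; the vertices of `Z` get a new neighbour `z`. Proof:
apply VSP to the graph on `Option (V ⊕ Fin 6)` with the vertices `some (inl w)` for `w ∉ U` (isolated for
`w ∈ U`), the bins `some (inr b)`, `none = z`, and the edges `w w'` (`R.Adj w w'`, `w, w' ∉ U`), `w b` (`w ∉ U`
has a neighbour `u ∈ U` with `bin u = b`), `z w` (`w ∈ Z`), with `Sp' = Sp.image (some ∘ inl)` and `n = q`.
`g u x` is the colour of the edge between the images of `u` and `x`, `f w` the colour of `z w`. Degree of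
`w ∉ U`: at most `deg_R w + [w ∈ Z]` (each bin adjacent to `w` has its own neighbour `u` of `w`). -/
def S_VB : Prop :=
  ∀ (V : Type) [Fintype V] [DecidableEq V] (R : SimpleGraph V) (q : ℕ) (U Z Sp : Finset V)
    (bin : V → Fin 6),
    (∀ u ∈ U, ∀ v ∈ U, ¬ R.Adj u v) →
    (∀ u ∈ U, ∀ v ∈ U, u ≠ v → bin u = bin v → ∀ x, R.Adj u x → ¬ R.Adj v x) →
    (∀ b, ∑ u ∈ U.filter (fun u => bin u = b), (R.neighborSet u).ncard < q) →
    (∀ w, w ∉ U → (R.neighborSet w).ncard + (if w ∈ Z then 1 else 0) ≤ q) →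
    (∀ w, w ∉ U → w ∉ Sp → (R.neighborSet w).ncard + (if w ∈ Z then 1 else 0) < q) →
    Disjoint Z U → Z.card < q → Disjoint Sp U → (∀ u ∈ Sp, ∀ v ∈ Sp, ¬ R.Adj u v) →
    ∃ (f : V → ℕ) (g : V → V → ℕ),
      (∀ u v, R.Adj u v → g u v = g v u ∧ g u v < q) ∧
      (∀ u v w, R.Adj u v → R.Adj u w → v ≠ w → g u v ≠ g u w) ∧
      (∀ w ∈ Z, f w < q) ∧ (∀ w ∈ Z, ∀ w' ∈ Z, f w = f w' → w = w') ∧
      (∀ w ∈ Z, ∀ x, R.Adj w x → g w x ≠ f w) ∧
      ∀ u ∈ U, ∀ v ∈ U, u ≠ v → bin u = bin v → ∀ x y, R.Adj u x → R.Adj v y → g u x ≠ g v y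

/-- HALL2. Proof: Hall's theorem `Finset.all_card_le_biUnion_card_iff_exists_injective` for
`t β = B \ X β`. A set `S` of more than `d` colours `β`: the union is `B`, as each `b ∈ B` is in at most `d`
of the `X β`. A non-empty set of at most `d` colours: the union has at least `q - e ≥ d` elements. -/
def S_HALL2 : Prop :=
  ∀ (q K d e : ℕ) (B : Finset (Fin K)) (X : Fin q → Finset (Fin K)),
    q ≤ B.card → (∀ β, (X β).card ≤ e) → (∀ b ∈ B, {β | b ∈ X β}.ncard ≤ d) → d + e ≤ q →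
    ∃ σ : Fin q → Fin K, Function.Injective σ ∧ ∀ β, σ β ∈ B ∧ σ β ∉ X β

/-- BIN: three bins. Proof: take `S ⊆ U` of maximal weight with weight `≤ M`. If there is `x ∈ U \ S`, then
`w x + w(S) > M` (if `w x = 0`, choose `S` of maximal card among these), and the rest `U \ S \ {x}` has
weight `< M`. -/
def S_BIN : Prop :=
  ∀ (V : Type) [DecidableEq V] (U : Finset V) (w : V → ℕ) (M : ℕ),
    (∀ u ∈ U, w u ≤ M) → ∑ u ∈ U, w u ≤ 2 * M →
    ∃ bin : V → Fin 3, ∀ b, ∑ u ∈ U.filter (fun u => bin u = b), w u ≤ M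

/-- SUM (double counting): every `w ∉ U` has at most two neighbours in `U`, every `F u` has at most two
elements. -/
def S_SUM : Prop :=
  ∀ (V : Type) [Fintype V] [DecidableEq V] (G : SimpleGraph V) (U : Finset V) (K : ℕ)
    (F : V → Finset (Fin K)),
    (∀ u, (F u).card ≤ 2) → (∀ w, w ∉ U → {u | u ∈ U ∧ G.Adj u w}.ncard ≤ 2) →
    ∑ a, ∑ u ∈ U.filter (fun u => a ∈ F u), {w | w ∉ U ∧ G.Adj u w}.ncard ≤ 4 * Fintype.card V

/-- SUM1: disjoint neighbourhoods. -/
def S_SUM1 : Prop :=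
  ∀ (V : Type) [Fintype V] (R : SimpleGraph V) (U : Finset V),
    (∀ u ∈ U, ∀ v ∈ U, u ≠ v → ∀ x, R.Adj u x → ¬ R.Adj v x) →
    ∑ u ∈ U, (R.neighborSet u).ncard ≤ Fintype.card V

/-- CNT (Markov). -/
def S_CNT : Prop :=
  ∀ (K N : ℕ) (ω : Fin K → ℕ), 1 ≤ N → ∑ a, ω a ≤ 4 * N →
    {a | N < 8 * ω a}.ncard ≤ 32 ∧ 17 * {a | 17 ≤ ω a}.ncard ≤ 4 * N

/-- SPC: the sets `X a` are made even by removing at most one element each, different ones for different
`a ∈ A`, all of them in one colour class of `κ`. Proof: some colour class of `κ` has at least `|A|` elements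
in `Y` (pigeonhole; if `A` is empty there is nothing to do, take `Sp = ∅`), so there is an injective map
`σ` from `A` to it; `Z a = X a` if `|X a|` is even, and `Z a = (X a).erase (σ a)` if not (`a ∈ A`); for
`a ∉ A` take `Z a = X a`. (If `c = 0`, then `V` is empty.) -/
def S_SPC : Prop :=
  ∀ (V : Type) [Fintype V] [DecidableEq V] (c K : ℕ) (κ : V → Fin c) (A : Finset (Fin K))
    (X : Fin K → Finset V) (Y : Finset V), A.card * c ≤ Y.card → (∀ a, Y ⊆ X a) →
    ∃ (Sp : Finset V) (Z : Fin K → Finset V), Sp ⊆ Y ∧ (∀ u ∈ Sp, ∀ v ∈ Sp, κ u = κ v) ∧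
      (∀ a ∈ A, Z a ⊆ X a ∧ Even (Z a).card ∧ X a \ Z a ⊆ Sp) ∧
      ∀ a ∈ A, ∀ b ∈ A, a ≠ b → Disjoint (X a \ Z a) (X b \ Z b)

/-- BLK: blocks with names. Proof: take the family `Q'` of DEC3 (`|Q'| ≤ |V| / s + c`) and
`Q = {P ∈ Q' : |P ∩ Y| ≥ 18}`, an injective map from `Q` to `Lt` (`|Q| ≤ |Lt|`), `A` its image. For
`P ∈ Q` with the name `a`, at least 2 elements `w` of `P ∩ Y` have `a ∉ forb w`; `I a` is the set of them,
or this set without one element, if the parity of `|I a| + t` would be odd. Each `P ∈ Q'` has at most 17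
elements of `Y` that are not in `⋃ I a`. -/
def S_BLK : Prop :=
  ∀ (V : Type) [Fintype V] [DecidableEq V] (c s K t : ℕ) (κ : V → Fin c) (Y : Finset V)
    (Lt : Finset (Fin K)) (forb : V → Finset (Fin K)), 1 ≤ s →
    (∀ a ∈ Lt, {w | w ∈ Y ∧ a ∈ forb w}.ncard ≤ 16) → Fintype.card V / s + c ≤ Lt.card →
    ∃ (A : Finset (Fin K)) (I : Fin K → Finset V), A ⊆ Lt ∧ A.card ≤ Fintype.card V / s + c ∧
      (∀ a, a ∉ A → I a = ∅) ∧
      (∀ a, I a ⊆ Y ∧ (I a).card ≤ s ∧ (∀ w ∈ I a, a ∉ forb w) ∧ ∀ u ∈ I a, ∀ v ∈ I a, κ u = κ v) ∧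
      (∀ a b, a ≠ b → Disjoint (I a) (I b)) ∧ (∀ a ∈ A, Even ((I a).card + t)) ∧
      {w | w ∈ Y ∧ ∀ a, w ∉ I a}.ncard ≤ 17 * (Fintype.card V / s + c)

end Pool.Agent.D0H38.TD
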