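import Mathlib
import Pool.Agent.D0H38.TD.Stm5

/-!
# Project TE (helper38, MP_db9399_co): two more statements for a better range
-/

set_option autoImplicit false

namespace Pool.Agent.D0H38.TD

/-- BLK2: blocks with names, without losses. `t` fixes the parity of the blocks if `par` holds; if not, everything
is covered. Proof: (a) if `par`: as in DEC2 (`Pool/Agent/D0H2/TD/Dec2.lean`), the elements of one colour class
of `κ` in `Y` are divided into pieces of at most `s` elements with the parity of `t` (`Even (s + t)`), one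
element may be left; in all at most `|V| / s + c` pieces, at most `c` elements of `Y` in no piece. If `par` is
false: the same with pieces of at most `s` elements, without parity, nothing is left (DEC3). (b) The pieces `P`
get different names one after the other: `a` must not be in `A0`, not be a name of an earlier piece and not be
in `forb w` for `w ∈ P` (at most `2 s` names); such an `a` exists as `|A0| + |V| / s + c + 2 s ≤ K`. -/
def S_BLK2 : Prop :=
  ∀ (V : Type) [Fintype V] [DecidableEq V] (c s K t : ℕ) (par : Prop) (κ : V → Fin c) (Y : Finset V)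
    (A0 : Finset (Fin K)) (forb : V → Finset (Fin K)), 1 ≤ s → Even (s + t) →
    (∀ w, (forb w).card ≤ 2) → A0.card + Fintype.card V / s + c + 2 * s ≤ K →
    ∃ (A : Finset (Fin K)) (I : Fin K → Finset V), Disjoint A A0 ∧
      A.card ≤ Fintype.card V / s + c ∧ (∀ a, a ∉ A → I a = ∅) ∧
      (∀ a, I a ⊆ Y ∧ (I a).card ≤ s ∧ (∀ w ∈ I a, a ∉ forb w) ∧ ∀ u ∈ I a, ∀ v ∈ I a, κ u = κ v) ∧
      (∀ a b, a ≠ b → Disjoint (I a) (I b)) ∧ (par → ∀ a ∈ A, Even ((I a).card + t)) ∧
      {w | w ∈ Y ∧ ∀ a, w ∉ I a}.ncard ≤ c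

/-- SPC2: the sets `X a`, `a ∈ A`, are made even by removing at most one element each, either `J a` or an
exceptional one. Proof: call `a ∈ A` bad if at most `15` elements `v ∈ Y` have `a ∉ forb v`. There are at most
two bad `a` (three bad ones would give `|Y| ≤ 45`, since each `v ∈ Y` outside these `45` elements had three names
in `forb v`). `Y` has two different elements `s₁, s₂` with `κ s₁ = κ s₂` (as `c < |Y|`). Let `Sp = {s₁, s₂}`,
one of them for each bad `a`. The other `a ∈ A` (at most 16) get one after the other different `j a ∈ Y` with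
`a ∉ forb (j a)` (possible since there are at least 16 such elements). If `|X a|` is even: `Z a = X a`,
`J a = ∅`; if it is odd and `a` is not bad: `J a = {j a}`, `Z a = X a \ J a`; if it is odd and `a` is bad:
`J a = ∅`, `Z a = (X a).erase (s_a)`. For `a ∉ A`: `J a = ∅`. -/
def S_SPC2 : Prop :=
  ∀ (V : Type) [Fintype V] [DecidableEq V] (c K : ℕ) (κ : V → Fin c) (A : Finset (Fin K))
    (X : Fin K → Finset V) (Y : Finset V) (forb : V → Finset (Fin K)), A.card ≤ 16 → c < Y.card →
    46 ≤ Y.card → (∀ w, (forb w).card ≤ 2) → (∀ a, Y ⊆ X a) →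
    ∃ (Sp : Finset V) (J Z : Fin K → Finset V), Sp ⊆ Y ∧ (∀ u ∈ Sp, ∀ v ∈ Sp, κ u = κ v) ∧
      (∀ a, J a ⊆ Y ∧ (J a).card ≤ 1 ∧ ∀ w ∈ J a, a ∉ forb w) ∧ (∀ a, a ∉ A → J a = ∅) ∧
      (∀ a b, a ≠ b → Disjoint (J a) (J b)) ∧
      (∀ a ∈ A, Z a ⊆ X a \ J a ∧ Even (Z a).card ∧ (X a \ J a) \ Z a ⊆ Sp) ∧
      ∀ a ∈ A, ∀ b ∈ A, a ≠ b → Disjoint ((X a \ J a) \ Z a) ((X b \ J b) \ Z b)

/-- CNT2 (Markov). -/
def S_CNT2 : Prop :=
  ∀ (K N : ℕ) (ω : Fin K → ℕ), ∑ a, ω a ≤ 4 * N → {a | N < 4 * ω a}.ncard ≤ 16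

end Pool.Agent.D0H38.TD
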