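import Mathlib

/-!
# Local recolouring at one edge of the precoloured matching
-/

set_option autoImplicit false

namespace Pool.Agent.D0H38.TD

/-- the conclusion: new colours `h`, `h'` of the edges at the two ends of a precoloured edge -/
structure Good {V : Type} (N N' : V → Prop) (g g' : V → ℕ) (a a' φ e1 e2 : ℕ) (h h' : V → ℕ) :
    Prop where
  inj : ∀ x y, N x → N y → h x = h y → x = y
  inj' : ∀ x y, N' x → N' y → h' x = h' y → x = y
  av : ∀ x, N x → h x ≠ a ∧ h x ≠ φ
  av' : ∀ x, N' x → h' x ≠ a' ∧ h' x ≠ φ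
  ne : ∀ x, N x → N' x → h x ≠ h' x
  vals : ∀ x, N x → h x = e1 ∨ h x = e2 ∨ h x = g x ∨ (N' x ∧ h x = g' x)
  vals' : ∀ x, N' x → h' x = e1 ∨ h' x = e2 ∨ h' x = g' x ∨ (N x ∧ h' x = g x)

/-- the standard recolouring -/
noncomputable def rc {V : Type} (g : V → ℕ) (a φ u w : ℕ) (x : V) : ℕ := by
  classical
  exact if g x = a then u else if g x = φ then w else g x

theorem rc_cases {V : Type} (g : V → ℕ) (a φ u w : ℕ) (x : V) :
    (g x = a ∧ rc g a φ u w x = u) ∨ (g x ≠ a ∧ g x = φ ∧ rc g a φ u w x = w) ∨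
      (g x ≠ a ∧ g x ≠ φ ∧ rc g a φ u w x = g x) := by
  unfold rc
  by_cases h1 : g x = a
  · left
    exact ⟨h1, by rw [if_pos h1]⟩
  · by_cases h2 : g x = φ
    · right; left
      exact ⟨h1, h2, by rw [if_neg h1, if_pos h2]⟩
    · right; right
      exact ⟨h1, h2, by rw [if_neg h1, if_neg h2]⟩

theorem inE {e1 e2 u z : ℕ} (hu : u = e1 ∨ u = e2) (hz : z ≠ e1 ∧ z ≠ e2) : u ≠ z := by
  rintro rfl
  rcases hu with h | h
  · exact hz.1 h
  · exact hz.2 h

theorem rc_inj {V : Type} (N : V → Prop) (g : V → ℕ)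
    (hg : ∀ x y, N x → N y → g x = g y → x = y) (a φ e1 e2 : ℕ)
    (hgE : ∀ x, N x → g x ≠ e1 ∧ g x ≠ e2)
    (u w : ℕ) (hu : u = e1 ∨ u = e2) (hw : w = e1 ∨ w = e2)
    (h1 : (∃ x, N x ∧ g x = a) → (∃ x, N x ∧ g x = φ) → u ≠ w) :
    ∀ x y, N x → N y → rc g a φ u w x = rc g a φ u w y → x = y := by
  intro x y hx hy hxy
  have ex := hgE x hx
  have ey := hgE y hy
  rcases rc_cases g a φ u w x with ⟨c1, d⟩ | ⟨c1, c2, d⟩ | ⟨c1, c2, d⟩ <;>
    rcases rc_cases g a φ u w y with ⟨c1', d'⟩ | ⟨c1', c2', d'⟩ | ⟨c1', c2', d'⟩ <;>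
    rw [d, d'] at hxy
  · exact hg x y hx hy (c1.trans c1'.symm)
  · exact absurd hxy (h1 ⟨x, hx, c1⟩ ⟨y, hy, c2'⟩)
  · exact absurd hxy (inE hu ey)
  · exact absurd hxy.symm (h1 ⟨y, hy, c1'⟩ ⟨x, hx, c2⟩)
  · exact hg x y hx hy (c2.trans c2'.symm)
  · exact absurd hxy (inE hw ey)
  · exact absurd hxy.symm (inE hu ex)
  · exact absurd hxy.symm (inE hw ex)
  · exact hg x y hx hy hxy

theorem rc_av {V : Type} (N : V → Prop) (g : V → ℕ) (a φ e1 e2 : ℕ)
    (hgE : ∀ x, N x → g x ≠ e1 ∧ g x ≠ e2)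
    (u w : ℕ) (hu : u = e1 ∨ u = e2) (hw : w = e1 ∨ w = e2)
    (h2 : (∃ x, N x ∧ g x = a) → u ≠ φ) (h3 : (∃ x, N x ∧ g x = φ) → w ≠ a) :
    ∀ x, N x → rc g a φ u w x ≠ a ∧ rc g a φ u w x ≠ φ := by
  intro x hx
  have ex := hgE x hx
  rcases rc_cases g a φ u w x with ⟨c1, d⟩ | ⟨c1, c2, d⟩ | ⟨c1, c2, d⟩ <;> rw [d]
  · refine ⟨?_, h2 ⟨x, hx, c1⟩⟩
    rw [← c1]
    exact inE hu ex
  · refine ⟨h3 ⟨x, hx, c2⟩, ?_⟩
    rw [← c2]
    exact inE hw ex
  · exact ⟨c1, c2⟩

theorem rc_vals {V : Type} (g : V → ℕ) (a φ e1 e2 : ℕ)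
    (u w : ℕ) (hu : u = e1 ∨ u = e2) (hw : w = e1 ∨ w = e2) (Q : Prop) (x : V) :
    rc g a φ u w x = e1 ∨ rc g a φ u w x = e2 ∨ rc g a φ u w x = g x ∨ Q := by
  rcases rc_cases g a φ u w x with ⟨c1, d⟩ | ⟨c1, c2, d⟩ | ⟨c1, c2, d⟩ <;> rw [d]
  · rcases hu with h | h
    · exact Or.inl h
    · exact Or.inr (Or.inl h)
  · rcases hw with h | h
    · exact Or.inl h
    · exact Or.inr (Or.inl h)
  · exact Or.inr (Or.inr (Or.inl rfl))

theorem std {V : Type} (N N' : V → Prop) (g g' : V → ℕ)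
    (hg : ∀ x y, N x → N y → g x = g y → x = y) (hg' : ∀ x y, N' x → N' y → g' x = g' y → x = y)
    (hgg : ∀ x, N x → N' x → g x ≠ g' x) (a a' φ e1 e2 : ℕ)
    (hgE : ∀ x, N x → g x ≠ e1 ∧ g x ≠ e2) (hgE' : ∀ x, N' x → g' x ≠ e1 ∧ g' x ≠ e2)
    (u w u' w' : ℕ) (hu : u = e1 ∨ u = e2) (hw : w = e1 ∨ w = e2) (hu' : u' = e1 ∨ u' = e2)
    (hw' : w' = e1 ∨ w' = e2)
    (h1 : (∃ x, N x ∧ g x = a) → (∃ x, N x ∧ g x = φ) → u ≠ w)
    (h1' : (∃ x, N' x ∧ g' x = a') → (∃ x, N' x ∧ g' x = φ) → u' ≠ w')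
    (h2 : (∃ x, N x ∧ g x = a) → u ≠ φ) (h3 : (∃ x, N x ∧ g x = φ) → w ≠ a)
    (h2' : (∃ x, N' x ∧ g' x = a') → u' ≠ φ) (h3' : (∃ x, N' x ∧ g' x = φ) → w' ≠ a')
    (h4 : ∀ x, N x → N' x → g x = a → g' x = a' → u ≠ u')
    (h5 : ∀ x, N x → N' x → g x = a → g' x = φ → u ≠ w')
    (h6 : ∀ x, N x → N' x → g x = φ → g' x = a' → w ≠ u') :
    ∃ h h', Good N N' g g' a a' φ e1 e2 h h' := by
  refine ⟨rc g a φ u w, rc g' a' φ u' w', rc_inj N g hg a φ e1 e2 hgE u w hu hw h1,
    rc_inj N' g' hg' a' φ e1 e2 hgE' u' w' hu' hw' h1', rc_av N g a φ e1 e2 hgE u w hu hw h2 h3,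
    rc_av N' g' a' φ e1 e2 hgE' u' w' hu' hw' h2' h3', ?_,
    fun x _ => rc_vals g a φ e1 e2 u w hu hw _ x,
    fun x _ => rc_vals g' a' φ e1 e2 u' w' hu' hw' _ x⟩
  intro x hx hx'
  have ex := hgE x hx
  have ex' := hgE' x hx'
  have k0 := hgg x hx hx'
  rcases rc_cases g a φ u w x with ⟨c1, d⟩ | ⟨c1, c2, d⟩ | ⟨c1, c2, d⟩ <;>
    rcases rc_cases g' a' φ u' w' x with ⟨c1', d'⟩ | ⟨c1', c2', d'⟩ | ⟨c1', c2', d'⟩ <;>
    rw [d, d']
  · exact h4 x hx hx' c1 c1'
  · exact h5 x hx hx' c1 c2'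
  · exact inE hu ex'
  · exact h6 x hx hx' c2 c1'
  · exact absurd (c2.trans c2'.symm) k0
  · exact inE hw ex'
  · exact (inE hu' ex).symm
  · exact (inE hw' ex).symm
  · exact k0

theorem Good.swap {V : Type} {N N' : V → Prop} {g g' : V → ℕ} {a a' φ e1 e2 : ℕ} {h h' : V → ℕ}
    (H : Good N N' g g' a a' φ e1 e2 h h') : Good N' N g' g a' a φ e1 e2 h' h :=
  ⟨H.inj', H.inj, H.av', H.av, fun x hx hx' => (H.ne x hx' hx).symm, H.vals', H.vals⟩

/-- **Local recolouring.** -/
theorem loc {V : Type} (N N' : V → Prop) (g g' : V → ℕ)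
    (hg : ∀ x y, N x → N y → g x = g y → x = y) (hg' : ∀ x y, N' x → N' y → g' x = g' y → x = y)
    (hgg : ∀ x, N x → N' x → g x ≠ g' x) (a a' φ e1 e2 : ℕ)
    (haa : a ≠ a') (ha : a ≠ φ) (ha' : a' ≠ φ) (he : e1 ≠ e2)
    (hgE : ∀ x, N x → g x ≠ e1 ∧ g x ≠ e2) (hgE' : ∀ x, N' x → g' x ≠ e1 ∧ g' x ≠ e2) :
    ∃ h h', Good N N' g g' a a' φ e1 e2 h h' := by
  classical
  -- colours in `{e1, e2}` do not occur
  have n1 : ∀ z, (z = e1 ∨ z = e2) → ¬ ∃ x, N x ∧ g x = z := by
    rintro z hz ⟨x, hx, rfl⟩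
    have := hgE x hx
    rcases hz with h | h
    · exact this.1 h
    · exact this.2 h
  have n1' : ∀ z, (z = e1 ∨ z = e2) → ¬ ∃ x, N' x ∧ g' x = z := by
    rintro z hz ⟨x, hx, rfl⟩
    have := hgE' x hx
    rcases hz with h | h
    · exact this.1 h
    · exact this.2 h
  have S := std N N' g g' hg hg' hgg a a' φ e1 e2 hgE hgE'
  by_cases hφ : φ = e1 ∨ φ = e2
  · -- the colour of the edge is an additional colour
    have m1 := n1 φ hφ
    have m1' := n1' φ hφ
    obtain ⟨ē, hē, hēφ⟩ : ∃ ē, (ē = e1 ∨ ē = e2) ∧ ē ≠ φ := by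
      rcases hφ with h | h
      · exact ⟨e2, Or.inr rfl, by rw [h]; exact he.symm⟩
      · exact ⟨e1, Or.inl rfl, by rw [h]; exact he⟩
    by_cases hc : ∃ x, N x ∧ N' x ∧ g x = a ∧ g' x = a'
    · obtain ⟨q, hq, hq', hqa, hqa'⟩ := hc
      clear S
      refine ⟨fun x => if g x = a then ē else g x,
        fun x => if g' x = a' then a else if g' x = a then ē else g' x, ?_, ?_, ?_, ?_, ?_, ?_, ?_⟩
      · intro x y hx hy hxy
        have ex := hgE x hx
        have ey := hgE y hy
        have hinj := hg x y hx hy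
        by_cases c1 : g x = a <;> by_cases c2 : g y = a
        · exact hinj (c1.trans c2.symm)
        · rw [if_pos c1, if_neg c2] at hxy
          exact absurd hxy (inE hē ey)
        · rw [if_neg c1, if_pos c2] at hxy
          exact absurd hxy.symm (inE hē ex)
        · rw [if_neg c1, if_neg c2] at hxy
          exact hinj hxy
      · intro x y hx hy hxy
        have ex := hgE' x hx
        have ey := hgE' y hy
        have hinj := hg' x y hx hy
        have eq := hgE q hq
        have hēa : ē ≠ a := by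
          rw [← hqa]
          exact inE hē eq
        by_cases c1 : g' x = a' <;> by_cases c2 : g' y = a'
        · exact hinj (c1.trans c2.symm)
        · rw [if_pos c1, if_neg c2] at hxy
          by_cases c4 : g' y = a
          · rw [if_pos c4] at hxy
            exact absurd hxy.symm hēa
          · rw [if_neg c4] at hxy
            exact absurd hxy.symm c4
        · rw [if_neg c1, if_pos c2] at hxy
          by_cases c4 : g' x = a
          · rw [if_pos c4] at hxy
            exact absurd hxy hēa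
          · rw [if_neg c4] at hxy
            exact absurd hxy c4
        · rw [if_neg c1, if_neg c2] at hxy
          by_cases c3 : g' x = a <;> by_cases c4 : g' y = a
          · exact hinj (c3.trans c4.symm)
          · rw [if_pos c3, if_neg c4] at hxy
            exact absurd hxy (inE hē ey)
          · rw [if_neg c3, if_pos c4] at hxy
            exact absurd hxy.symm (inE hē ex)
          · rw [if_neg c3, if_neg c4] at hxy
            exact hinj hxy
      · intro x hx
        have eq := hgE q hq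
        have hēa : ē ≠ a := by
          rw [← hqa]
          exact inE hē eq
        have hxφ : g x ≠ φ := fun h => m1 ⟨x, hx, h⟩
        by_cases c1 : g x = a
        · rw [if_pos c1]
          exact ⟨hēa, hēφ⟩
        · rw [if_neg c1]
          exact ⟨c1, hxφ⟩
      · intro x hx
        have eq := hgE' q hq'
        have hēa' : ē ≠ a' := by
          rw [← hqa']
          exact inE hē eq
        have hxφ : g' x ≠ φ := fun h => m1' ⟨x, hx, h⟩
        by_cases c1 : g' x = a'
        · rw [if_pos c1]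
          exact ⟨haa, ha⟩
        · rw [if_neg c1]
          by_cases c2 : g' x = a
          · rw [if_pos c2]
            exact ⟨hēa', hēφ⟩
          · rw [if_neg c2]
            exact ⟨c1, hxφ⟩
      · intro x hx hx'
        have ex := hgE x hx
        have k0 := hgg x hx hx'
        have eq := hgE q hq
        have hēa : ē ≠ a := by
          rw [← hqa]
          exact inE hē eq
        have k1 : g x = a → x = q := fun h => hg x q hx hq (h.trans hqa.symm)
        have k2 : g' x = a' → x = q := fun h => hg' x q hx' hq' (h.trans hqa'.symm)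
        by_cases c : x = q
        · subst c
          rw [if_pos hqa, if_pos hqa']
          exact hēa
        · have c1 : g x ≠ a := fun h => c (k1 h)
          have c2 : g' x ≠ a' := fun h => c (k2 h)
          rw [if_neg c1, if_neg c2]
          by_cases c3 : g' x = a
          · rw [if_pos c3]
            exact (inE hē ex).symm
          · rw [if_neg c3]
            exact k0
      · intro x hx
        by_cases c1 : g x = a
        · rw [if_pos c1]
          rcases hē with h | h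
          · exact Or.inl h
          · exact Or.inr (Or.inl h)
        · rw [if_neg c1]
          exact Or.inr (Or.inr (Or.inl rfl))
      · intro x hx
        by_cases c1 : g' x = a'
        · have : x = q := hg' x q hx hq' (c1.trans hqa'.symm)
          subst this
          rw [if_pos c1]
          exact Or.inr (Or.inr (Or.inr ⟨hq, hqa.symm⟩))
        · rw [if_neg c1]
          by_cases c2 : g' x = a
          · rw [if_pos c2]
            rcases hē with h | h
            · exact Or.inl h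
            · exact Or.inr (Or.inl h)
          · rw [if_neg c2]
            exact Or.inr (Or.inr (Or.inl rfl))
    · refine S ē ē ē ē hē hē hē hē (fun _ h => absurd h m1) (fun _ h => absurd h m1')
        (fun _ => hēφ) (fun h => absurd h m1) (fun _ => hēφ) (fun h => absurd h m1') ?_ ?_ ?_
      · intro x h1 h2 h3 h4
        exact absurd ⟨x, h1, h2, h3, h4⟩ hc
      · intro x h1 h2 h3 h4
        exact absurd ⟨x, h2, h4⟩ m1'
      · intro x h1 h2 h3 h4
        exact absurd ⟨x, h1, h3⟩ m1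
  · rw [not_or] at hφ
    by_cases hA : a = e1 ∨ a = e2
    · have m2 := n1 a hA
      obtain ⟨ē, hē, hēa⟩ : ∃ ē, (ē = e1 ∨ ē = e2) ∧ ē ≠ a := by
        rcases hA with h | h
        · exact ⟨e2, Or.inr rfl, by rw [h]; exact he.symm⟩
        · exact ⟨e1, Or.inl rfl, by rw [h]; exact he⟩
      by_cases hA' : a' = e1 ∨ a' = e2
      · have m2' := n1' a' hA'
        refine S e1 a' e1 a (Or.inl rfl) hA' (Or.inl rfl) hA (fun h => absurd h m2)
          (fun h => absurd h m2') (fun h => absurd h m2) (fun _ => haa.symm)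
          (fun h => absurd h m2') (fun _ => haa) ?_ ?_ ?_
        · intro x h1 h2 h3 h4
          exact absurd ⟨x, h1, h3⟩ m2
        · intro x h1 h2 h3 h4
          exact absurd ⟨x, h1, h3⟩ m2
        · intro x h1 h2 h3 h4
          exact absurd ⟨x, h2, h4⟩ m2'
      · rw [not_or] at hA'
        refine S e1 ē a ē (Or.inl rfl) hē hA hē (fun h => absurd h m2) (fun _ _ => hēa.symm)
          (fun h => absurd h m2) (fun _ => hēa) (fun _ => ha) (fun _ => inE hē hA') ?_ ?_ ?_
        · intro x h1 h2 h3 h4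
          exact absurd ⟨x, h1, h3⟩ m2
        · intro x h1 h2 h3 h4
          exact absurd ⟨x, h1, h3⟩ m2
        · intro x h1 h2 h3 h4
          exact hēa
    · by_cases hA' : a' = e1 ∨ a' = e2
      · have m2' := n1' a' hA'
        obtain ⟨ē, hē, hēa⟩ : ∃ ē, (ē = e1 ∨ ē = e2) ∧ ē ≠ a' := by
          rcases hA' with h | h
          · exact ⟨e2, Or.inr rfl, by rw [h]; exact he.symm⟩
          · exact ⟨e1, Or.inl rfl, by rw [h]; exact he⟩
        rw [not_or] at hA
        refine S a' ē e1 ē hA' hē (Or.inl rfl) hē (fun _ _ => hēa.symm) (fun h => absurd h m2')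
          (fun _ => ha') (fun _ => inE hē hA) (fun h => absurd h m2') (fun _ => hēa) ?_ ?_ ?_
        · intro x h1 h2 h3 h4
          exact absurd ⟨x, h2, h4⟩ m2'
        · intro x h1 h2 h3 h4
          exact hēa.symm
        · intro x h1 h2 h3 h4
          exact absurd ⟨x, h2, h4⟩ m2'
      · rw [not_or] at hA hA'
        by_cases hc : ∃ x, N x ∧ N' x ∧ g x = a ∧ g' x = a'
        · obtain ⟨q, hq, hq', hqa, hqa'⟩ := hc
          refine S e1 e2 e2 e1 (Or.inl rfl) (Or.inr rfl) (Or.inr rfl) (Or.inl rfl) (fun _ _ => he)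
            (fun _ _ => he.symm) (fun _ => inE (Or.inl rfl) hφ) (fun _ => inE (Or.inr rfl) hA)
            (fun _ => inE (Or.inr rfl) hφ) (fun _ => inE (Or.inl rfl) hA')
            (fun _ _ _ _ _ => he) ?_ ?_
          · intro x h1 h2 h3 h4
            have : x = q := hg x q h1 hq (h3.trans hqa.symm)
            subst this
            exact absurd (h4.symm.trans hqa') ha'.symm
          · intro x h1 h2 h3 h4
            have : x = q := hg' x q h2 hq' (h4.trans hqa'.symm)
            subst this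
            exact absurd (h3.symm.trans hqa) ha.symm
        · refine S e1 e2 e1 e2 (Or.inl rfl) (Or.inr rfl) (Or.inl rfl) (Or.inr rfl) (fun _ _ => he)
            (fun _ _ => he) (fun _ => inE (Or.inl rfl) hφ) (fun _ => inE (Or.inr rfl) hA)
            (fun _ => inE (Or.inl rfl) hφ) (fun _ => inE (Or.inr rfl) hA') ?_
            (fun _ _ _ _ _ => he) (fun _ _ _ _ _ => he.symm)
          intro x h1 h2 h3 h4
          exact absurd ⟨x, h1, h2, h3, h4⟩ hc

end Pool.Agent.D0H38.TD
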