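import Pool.Agent.D0H38.TD.Sub
import Pool.Agent.D0H38.TD.Loc
import Pool.Agent.N347.TC.Ori
import Pool.Agent.Q6.CI.Vizing

/-!
# Total colourings with `D + 6` colours which extend a distance-3 matching
-/

set_option autoImplicit false

namespace Pool.Agent.D0H38.TD

open Finset

/-- a symmetric choice -/
theorem sym_choice {V α : Type} [Fintype V] (R : V → V → Prop) (hR : ∀ p q, R p q → R q p)
    (hirr : ∀ p, ¬ R p p)
    (Q : V → V → α → α → Prop) (h1 : ∀ p q, R p q → ∃ h h', Q p q h h')
    (h2 : ∀ p q, R p q → ∀ h h', Q p q h h' → Q q p h' h) [Nonempty α] :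
    ∃ T : V → V → α, ∀ p q, R p q → Q p q (T p q) (T q p) := by
  classical
  choose! A B hAB using h1
  let ι : V → ℕ := fun v => (Fintype.equivFin V v : ℕ)
  have hι : Function.Injective ι := fun a b h => (Fintype.equivFin V).injective (Fin.ext h)
  refine ⟨fun p q => if ι p < ι q then A p q else B q p, ?_⟩
  intro p q hpq
  rcases lt_trichotomy (ι p) (ι q) with h | h | h
  · simp only [if_pos h, if_neg (not_lt.2 h.le)]
    exact hAB p q hpq
  · have := hι h
    subst this
    exact absurd hpq (hirr p)
  · simp only [if_pos h, if_neg (not_lt.2 h.le)]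
    exact h2 q p (hR p q hpq) _ _ (hAB q p (hR p q hpq))

/-- colouring all edges outside the matching: a bipartite part from `range s`, the others by Vizing -/
theorem edges {V : Type} [Fintype V] (Γ : SimpleGraph V) (D r s t : ℕ) (x : ℝ) (hr : 1 ≤ r)
    (hD1 : 1 ≤ D) (hrs : s = r + 2) (hdeg : ∀ v, (Γ.neighborSet v).ncard ≤ D) (hx : 0 ≤ x)
    (hlog : (D : ℝ) * Real.log (8 * (D : ℝ) ^ 2) ≤ 2 * x ^ 2)
    (hD : 4 * x * r + 3 * (r : ℝ) ^ 2 ≤ t * D) (C : V → Prop) (f : V → ℕ)
    (hf : ∀ v, ¬ C v → f v < s) :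
    ∃ g : V → V → ℕ, (∀ u v, Γ.Adj u v → g u v = g v u) ∧ (∀ u v, Γ.Adj u v → g u v < D + t + 3) ∧
      (∀ u v w, Γ.Adj u v → Γ.Adj u w → g u v = g u w → v = w) ∧
      ∀ u v, Γ.Adj u v → ¬ C u → g u v ≠ f u := by
  classical
  have hrD : r ≤ D + t := by
    have hr' : (1 : ℝ) ≤ r := by exact_mod_cast hr
    have h0 : 0 ≤ 4 * x * r := by positivity
    have ht0 : (0 : ℝ) ≤ t := by positivity
    have hD0 : (0 : ℝ) ≤ D := by positivity
    have : (r : ℝ) ≤ D + t := by
      by_contra hcon
      push Not at hcon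
      nlinarith [mul_nonneg ht0 hD0]
    exact_mod_cast this
  obtain ⟨X, F, hF, hF1, hF2, hF3⟩ := sub Γ D r t x hr hD1 hdeg hx hlog hD
  -- the bipartite part
  let vf : V → Finset ℕ := fun v => if C v then ∅ else {f v}
  have hvf : ∀ v, (vf v).card ≤ 1 := by
    intro v
    simp only [vf]
    split_ifs <;> simp
  obtain ⟨φ, hφ⟩ := Pool.Agent.N347.TC.galvin_multi (U := {e : V × V // F e.1 e.2})
    (fun e => e.1.1) (fun e => e.1.2) r
    (by
      intro v
      have h1 := ncard_s F v
      have h2 := hF1 v
      rw [← h1, Set.ncard_eq_toFinset_card'] at h2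
      refine le_trans (le_of_eq ?_) h2
      congr 1
      ext e
      simp)
    (by
      intro v
      have h1 := ncard_t F v
      have h2 := hF2 v
      rw [← h1, Set.ncard_eq_toFinset_card'] at h2
      refine le_trans (le_of_eq ?_) h2
      congr 1
      ext e
      simp)
    (fun e => range s \ (vf e.1.1 ∪ vf e.1.2))
    (by
      intro e
      have e1 := Finset.le_card_sdiff (vf e.1.1 ∪ vf e.1.2) (range s)
      have e2 := Finset.card_union_le (vf e.1.1) (vf e.1.2)
      have e3 := hvf e.1.1
      have e4 := hvf e.1.2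
      rw [card_range] at e1
      omega)
  -- the rest
  let Γ' : SimpleGraph V :=
    { Adj := fun u v => Γ.Adj u v ∧ ¬ F u v ∧ ¬ F v u
      symm := ⟨fun _ _ h => ⟨h.1.symm, h.2.2, h.2.1⟩⟩
      loopless := ⟨fun a h => Γ.loopless.irrefl a h.1⟩ }
  have hdg : ∀ v, Pool.Q6.CI.dg Γ' v ≤ D + t - r := by
    intro v
    have h1 := hF3 v
    have h2 : Pool.Q6.CI.dg Γ' v = {w | Γ.Adj v w ∧ ¬ F v w ∧ ¬ F w v}.ncard := by
      unfold Pool.Q6.CI.dg
      rw [Set.ncard_eq_toFinset_card']
      congr 1
      ext w
      simp [Γ']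
    omega
  obtain ⟨z, hz⟩ := Pool.Q6.CI.vizing hdg
  have hexcl : ∀ u v, F u v → ¬ F v u := fun u v h h' => (hF v u h').2.1 (hF u v h).1
  let g : V → V → ℕ := fun u v =>
    if h : F u v then φ ⟨(u, v), h⟩ else if h : F v u then φ ⟨(v, u), h⟩ else s + z u v
  have g1 : ∀ u v (h : F u v), g u v = φ ⟨(u, v), h⟩ := by
    intro u v h
    simp only [g]
    rw [dif_pos h]
  have g2 : ∀ u v (h : F v u), g u v = φ ⟨(v, u), h⟩ := by
    intro u v h
    simp only [g]
    rw [dif_neg (hexcl v u h), dif_pos h]
  have g3 : ∀ u v, ¬ F u v → ¬ F v u → g u v = s + z u v := by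
    intro u v h h'
    simp only [g]
    rw [dif_neg h, dif_neg h']
  have hφs : ∀ e, φ e < s := by
    intro e
    have := (hφ e).1
    rw [mem_sdiff, mem_range] at this
    exact this.1
  have hφf : ∀ e, (¬ C e.1.1 → φ e ≠ f e.1.1) ∧ (¬ C e.1.2 → φ e ≠ f e.1.2) := by
    intro e
    have := (hφ e).1
    rw [mem_sdiff, mem_union, not_or] at this
    constructor
    · intro hc h
      apply this.2.1
      simp only [vf]
      rw [if_neg hc, h]
      simp
    · intro hc h
      apply this.2.2
      simp only [vf]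
      rw [if_neg hc, h]
      simp
  -- at every vertex all edges of `F` have the same orientation
  have ori : ∀ u v w, F u v → F w u → False := fun u v w h h' => (hF w u h').2.1 (hF u v h).1
  refine ⟨g, ?_, ?_, ?_, ?_⟩
  · intro u v huv
    by_cases h : F u v
    · rw [g1 u v h, g2 v u h]
    · by_cases h' : F v u
      · rw [g2 u v h', g1 v u h']
      · rw [g3 u v h h', g3 v u h' h, hz.symm u v ⟨huv, h, h'⟩]
  · intro u v huv
    by_cases h : F u v
    · rw [g1 u v h]
      have := hφs ⟨(u, v), h⟩
      omega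
    · by_cases h' : F v u
      · rw [g2 u v h']
        have := hφs ⟨(v, u), h'⟩
        omega
      · rw [g3 u v h h']
        have := hz.lt u v ⟨huv, h, h'⟩
        omega
  · intro u v w huv huw hg
    by_cases h : F u v
    · by_cases k : F u w
      · rw [g1 u v h, g1 u w k] at hg
        by_contra hne
        have hne' : (⟨(u, v), h⟩ : {e : V × V // F e.1 e.2}) ≠ ⟨(u, w), k⟩ := by
          intro e
          apply hne
          have := congrArg (fun e => e.1.2) e
          exact this
        exact ((hφ ⟨(u, w), k⟩).2 ⟨(u, v), h⟩ hne' hg).1 rfl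
      · by_cases k' : F w u
        · exact (ori u v w h k').elim
        · rw [g1 u v h, g3 u w k k'] at hg
          have := hφs ⟨(u, v), h⟩
          omega
    · by_cases h' : F v u
      · by_cases k : F u w
        · exact (ori u w v k h').elim
        · by_cases k' : F w u
          · rw [g2 u v h', g2 u w k'] at hg
            by_contra hne
            have hne' : (⟨(v, u), h'⟩ : {e : V × V // F e.1 e.2}) ≠ ⟨(w, u), k'⟩ := by
              intro e
              apply hne
              have := congrArg (fun e => e.1.1) e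
              exact this
            exact ((hφ ⟨(w, u), k'⟩).2 ⟨(v, u), h'⟩ hne' hg).2 rfl
          · rw [g2 u v h', g3 u w k k'] at hg
            have := hφs ⟨(v, u), h'⟩
            omega
      · by_cases k : F u w
        · rw [g3 u v h h', g1 u w k] at hg
          have := hφs ⟨(u, w), k⟩
          omega
        · by_cases k' : F w u
          · rw [g3 u v h h', g2 u w k'] at hg
            have := hφs ⟨(w, u), k'⟩
            omega
          · rw [g3 u v h h', g3 u w k k'] at hg
            exact hz.inj u v w ⟨huv, h, h'⟩ ⟨huw, k, k'⟩ (by omega)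
  · intro u v huv hu
    have hfu := hf u hu
    by_cases h : F u v
    · rw [g1 u v h]
      exact (hφf ⟨(u, v), h⟩).1 hu
    · by_cases h' : F v u
      · rw [g2 u v h']
        exact (hφf ⟨(v, u), h'⟩).2 hu
      · rw [g3 u v h h']
        omega

end Pool.Agent.D0H38.TD
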