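import Pool.Agent.D0H38.TD.Stm5

/-!
# The names of the colours
-/

set_option autoImplicit false

namespace Pool.Agent.D0H38.TD

open Finset

theorem names (hHALL : S_HALL2) {V : Type} [Fintype V] [DecidableEq V] (G H R : SimpleGraph V)
    (K q : ℕ) (U Z0 : Finset V) (f0 e0 : V → Fin K) (A : Finset (Fin K)) (bin : V → Fin 6)
    (hHm : ∀ u v w, H.Adj u v → H.Adj u w → v = w) (hRG : R ≤ G)
    (hRU : ∀ u ∈ U, ∀ v ∈ U, ¬ R.Adj u v)
    (hU2 : ∀ u ∈ U, ∀ v ∈ U, u ≠ v → ∀ x, G.Adj u x → G.Adj v x → H.Adj u v)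
    (hZU : Disjoint Z0 U) (hq : q ≤ Aᶜ.card) (hn4 : Fintype.card V + 56 ≤ 4 * q)
    (hω : ∀ b, b ∉ A → 8 * ∑ u ∈ U.filter (fun u => b = f0 u ∨ b = e0 u),
      {w | w ∉ U ∧ G.Adj u w}.ncard ≤ Fintype.card V)
    (f : V → ℕ) (g : V → V → ℕ) (hg : ∀ u v, R.Adj u v → g u v < q)
    (hf : ∀ w ∈ Z0, f w < q) (hfi : ∀ w ∈ Z0, ∀ w' ∈ Z0, f w = f w' → w = w')
    (hgb : ∀ u ∈ U, ∀ v ∈ U, u ≠ v → bin u = bin v → ∀ x y, R.Adj u x → R.Adj v y →
      g u x ≠ g v y) :
    ∃ σ : ℕ → Fin K, (∀ i j, i < q → j < q → σ i = σ j → i = j) ∧ (∀ i, i < q → σ i ∉ A) ∧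
      (∀ w ∈ Z0, ∀ u ∈ U, G.Adj u w → σ (f w) ≠ f0 u) ∧
      ∀ u ∈ U, ∀ x, R.Adj u x → σ (g u x) ≠ f0 u ∧ σ (g u x) ≠ e0 u := by
  classical
  let X : Fin q → Finset (Fin K) := fun β => univ.filter (fun b =>
    (∃ w ∈ Z0, f w = (β : ℕ) ∧ ∃ u ∈ U, G.Adj u w ∧ b = f0 u) ∨
    ∃ u ∈ U, ∃ x, R.Adj u x ∧ g u x = (β : ℕ) ∧ (b = f0 u ∨ b = e0 u))
  have hX : ∀ β b, b ∈ X β ↔ ((∃ w ∈ Z0, f w = (β : ℕ) ∧ ∃ u ∈ U, G.Adj u w ∧ b = f0 u) ∨
      ∃ u ∈ U, ∃ x, R.Adj u x ∧ g u x = (β : ℕ) ∧ (b = f0 u ∨ b = e0 u)) := by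
    intro β b
    simp only [X, mem_filter, mem_univ, true_and]
  obtain ⟨σ, s1, s2⟩ := hHALL q K (Fintype.card V / 4) 14 Aᶜ X hq
    (by
      intro β
      set Y0 : Finset (Fin K) := univ.filter (fun b =>
        ∃ w ∈ Z0, f w = (β : ℕ) ∧ ∃ u ∈ U, G.Adj u w ∧ b = f0 u) with hY0
      let Y : Fin 6 → Finset (Fin K) := fun t => univ.filter (fun b =>
        ∃ u ∈ U, bin u = t ∧ (∃ x, R.Adj u x ∧ g u x = (β : ℕ)) ∧ (b = f0 u ∨ b = e0 u))
      have c0 : Y0.card ≤ 2 := by
        by_contra hcon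
        rw [not_le, Finset.two_lt_card] at hcon
        obtain ⟨a, ha, b, hb, d, hd, hab, had, hbd⟩ := hcon
        obtain ⟨w1, p1, p2, u1, p3, p4, rfl⟩ := (mem_filter.1 ha).2
        obtain ⟨w2, q1, q2, u2, q3, q4, rfl⟩ := (mem_filter.1 hb).2
        obtain ⟨w3, r1, r2, u3, r3, r4, rfl⟩ := (mem_filter.1 hd).2
        have e1 := hfi w1 p1 w2 q1 (p2.trans q2.symm)
        have e2 := hfi w1 p1 w3 r1 (p2.trans r2.symm)
        subst e1
        subst e2
        have n1 : u1 ≠ u2 := fun h => hab (by rw [h])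
        have n2 : u1 ≠ u3 := fun h => had (by rw [h])
        have n3 : u2 ≠ u3 := fun h => hbd (by rw [h])
        exact n3 (hHm u1 u2 u3 (hU2 u1 p3 u2 q3 n1 w1 p4 q4) (hU2 u1 p3 u3 r3 n2 w1 p4 r4))
      have c1 : ∀ t, (Y t).card ≤ 2 := by
        intro t
        by_cases h : ∃ u ∈ U, bin u = t ∧ ∃ x, R.Adj u x ∧ g u x = (β : ℕ)
        · obtain ⟨u, h1, h2, x, h3, h4⟩ := h
          refine (card_le_card (t := {f0 u, e0 u}) ?_).trans card_le_two
          intro b hb
          obtain ⟨v, h5, h6, ⟨y, h7, h8⟩, h9⟩ := (mem_filter.1 hb).2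
          have : v = u := by
            by_contra hne
            exact hgb v h5 u h1 hne (h6.trans h2.symm) y x h7 h3 (h8.trans h4.symm)
          subst this
          rw [mem_insert, mem_singleton]
          exact h9
        · have : Y t = ∅ := by
            rw [Finset.eq_empty_iff_forall_notMem]
            intro b hb
            obtain ⟨v, h5, h6, h7, h8⟩ := (mem_filter.1 hb).2
            exact h ⟨v, h5, h6, h7⟩
          rw [this, card_empty]
          exact Nat.zero_le _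
      have c2 : X β ⊆ Y0 ∪ univ.biUnion Y := by
        intro b hb
        rw [mem_union, mem_biUnion]
        rcases (hX β b).1 hb with h | ⟨u, h1, x, h2, h3, h4⟩
        · left
          rw [hY0, mem_filter]
          exact ⟨mem_univ _, h⟩
        · right
          refine ⟨bin u, mem_univ _, ?_⟩
          simp only [Y, mem_filter, mem_univ, true_and]
          exact ⟨u, h1, rfl, ⟨x, h2, h3⟩, h4⟩
      have c3 : (univ.biUnion Y).card ≤ 6 * 2 := by
        have := card_biUnion_le_card_mul (univ : Finset (Fin 6)) Y 2 (fun t _ => c1 t)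
        rw [card_univ, Fintype.card_fin] at this
        exact this
      have c4 := (card_le_card c2).trans (card_union_le _ _)
      omega)
    (by
      intro b hb
      rw [mem_compl] at hb
      set Ub := U.filter (fun u => b = f0 u ∨ b = e0 u) with hUb
      let N : V → Finset V := fun u => univ.filter (fun w => w ∉ U ∧ G.Adj u w)
      have hN : ∀ u, {w | w ∉ U ∧ G.Adj u w}.ncard = (N u).card := by
        intro u
        rw [← Set.ncard_coe_finset]
        congr 1
        ext w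
        simp only [N, coe_filter, mem_univ, true_and]
      let W : Finset ℕ := Ub.biUnion (fun u => (N u).image f ∪ (N u).image (g u))
      have w1 : W.card ≤ ∑ u ∈ Ub, 2 * (N u).card := by
        refine card_biUnion_le.trans (Finset.sum_le_sum ?_)
        intro u _
        have h1 := card_union_le ((N u).image f) ((N u).image (g u))
        have h2 := card_image_le (s := N u) (f := f)
        have h3 := card_image_le (s := N u) (f := g u)
        omega
      have w2 : {β : Fin q | b ∈ X β}.ncard ≤ W.card := by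
        rw [← Set.ncard_image_of_injective _ (Fin.val_injective), ← Set.ncard_coe_finset]
        apply Set.ncard_le_ncard _ (Set.toFinite _)
        rintro i ⟨β, hβ, rfl⟩
        rw [Finset.mem_coe, mem_biUnion]
        rcases (hX β b).1 hβ with ⟨w, h1, h2, u, h3, h4, h5⟩ | ⟨u, h1, x, h2, h3, h4⟩
        · refine ⟨u, by rw [hUb, mem_filter]; exact ⟨h3, Or.inl h5⟩, ?_⟩
          rw [mem_union, mem_image]
          left
          refine ⟨w, ?_, h2⟩
          simp only [N, mem_filter, mem_univ, true_and]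
          exact ⟨fun h => (Finset.disjoint_left.1 hZU) h1 h, h4⟩
        · refine ⟨u, by rw [hUb, mem_filter]; exact ⟨h1, h4⟩, ?_⟩
          rw [mem_union]
          right
          rw [mem_image]
          refine ⟨x, ?_, h3⟩
          simp only [N, mem_filter, mem_univ, true_and]
          exact ⟨fun h => hRU u h1 x h h2, hRG h2⟩
      have w3 := hω b hb
      rw [← hUb] at w3
      have w4 : ∑ u ∈ Ub, 2 * (N u).card = 2 * ∑ u ∈ Ub, {w | w ∉ U ∧ G.Adj u w}.ncard := by
        rw [Finset.mul_sum]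
        exact Finset.sum_congr rfl (fun u _ => by rw [hN])
      rw [w4] at w1
      omega)
    (by omega)
  have hq0 : 0 < q := by omega
  refine ⟨fun i => if h : i < q then σ ⟨i, h⟩ else σ ⟨0, hq0⟩, ?_, ?_, ?_, ?_⟩
  · intro i j hi hj h
    simp only [dif_pos hi, dif_pos hj] at h
    exact Fin.mk.inj (s1 h)
  · intro i hi
    simp only [dif_pos hi]
    exact mem_compl.1 (s2 _).1
  · intro w hw u hu huw h
    simp only [dif_pos (hf w hw)] at h
    apply (s2 ⟨f w, hf w hw⟩).2
    rw [hX]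
    exact Or.inl ⟨w, hw, rfl, u, hu, huw, h⟩
  · intro u hu x hx
    simp only [dif_pos (hg u x hx)]
    constructor
    · intro h
      apply (s2 ⟨g u x, hg u x hx⟩).2
      rw [hX]
      exact Or.inr ⟨u, hu, x, hx, rfl, Or.inl h⟩
    · intro h
      apply (s2 ⟨g u x, hg u x hx⟩).2
      rw [hX]
      exact Or.inr ⟨u, hu, x, hx, rfl, Or.inr h⟩

end Pool.Agent.D0H38.TD
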