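import Pool.Agent.D0H38.TD.Deg5
import Pool.Agent.D0H38.TD.Names6

/-!
# The total colouring from the classes
-/

set_option autoImplicit false

namespace Pool.Agent.D0H38.TD

open Finset

theorem core6 (hPM : S_PM2) (hVB : S_VB) (hHALL : S_HALL2) (hBIN : S_BIN) (hSUM1 : S_SUM1)
    {V : Type} [Fintype V] [DecidableEq V] (G H : SimpleGraph V) (D : ℕ) (U L Sp : Finset V)
    (f0 e0 : V → Fin (D + 2)) (A : Finset (Fin (D + 2))) (I Z S : Fin (D + 2) → Finset V)
    (hHG : H ≤ G) (hHm : ∀ u v w, H.Adj u v → H.Adj u w → v = w)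
    (hU : ∀ v, v ∈ U ↔ ∃ x, H.Adj v x)
    (hUU : ∀ u ∈ U, ∀ v ∈ U, G.Adj u v → H.Adj u v)
    (hU2 : ∀ u ∈ U, ∀ v ∈ U, u ≠ v → ∀ x, G.Adj u x → G.Adj v x → H.Adj u v)
    (hf0 : ∀ u v, H.Adj u v → f0 u ≠ f0 v) (he0 : ∀ u v, H.Adj u v → e0 u = e0 v)
    (hef : ∀ u ∈ U, e0 u ≠ f0 u)
    (hdeg : ∀ v, (G.neighborSet v).ncard ≤ D)
    (hlow : ∀ v, v ∉ L → (G.neighborSet v).ncard + A.card ≤ D)
    (hI0 : ∀ a, a ∉ A → I a = ∅) (hIU : ∀ a, Disjoint (I a) U)
    (hId : ∀ a b, a ≠ b → Disjoint (I a) (I b))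
    (hIi : ∀ a, ∀ u ∈ I a, ∀ v ∈ I a, ¬ G.Adj u v)
    (hIf : ∀ a, ∀ w ∈ I a, ∀ u ∈ U, G.Adj u w → f0 u ≠ a)
    (hS1 : ∀ a v, v ∈ U → (v ∈ S a ↔ v ∈ L ∧ a ≠ f0 v ∧ a ≠ e0 v))
    (hS2 : ∀ a v, v ∉ U → (v ∈ S a ↔ v ∉ I a))
    (hZS : ∀ a ∈ A, Z a ⊆ S a)
    (hpar : ∀ a ∈ A, Even (Z a).card ∨ 2 * (Z a).card ≤ (S a).card + 1)
    (hdir : ∀ a ∈ A, ∀ v ∈ Z a, (S a).card + 2 * A.card ≤
      2 * {w | w ∈ S a ∧ (G \ H).Adj v w}.ncard + 1)
    (hSp1 : ∀ a ∈ A, ∀ v ∈ L, v ∈ S a → v ∉ Z a → v ∈ Sp)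
    (hSp2 : ∀ a ∈ A, ∀ b ∈ A, ∀ v ∈ L, v ∈ S a → v ∉ Z a → v ∈ S b → v ∉ Z b → a = b)
    (hSp3 : Disjoint Sp U) (hSp4 : ∀ u ∈ Sp, ∀ v ∈ Sp, ¬ G.Adj u v)
    (hz : {w | w ∉ U ∧ ∀ a, w ∉ I a}.ncard + A.card ≤ D + 1)
    (hn : Fintype.card V + 2 * A.card ≤ 2 * (D + 1))
    (hn4 : Fintype.card V + 2 * A.card + 28 ≤ 2 * (D + 2))
    (hω : ∀ b, b ∉ A → 4 * ∑ u ∈ U.filter (fun u => b = f0 u ∨ b = e0 u),
      {w | w ∉ U ∧ G.Adj u w}.ncard ≤ Fintype.card V) :
    ∃ (F : V → Fin (D + 2)) (Γ : V → V → Fin (D + 2)),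
      (∀ u v, G.Adj u v → Γ u v = Γ v u) ∧ (∀ u v, G.Adj u v → F u ≠ F v) ∧
      (∀ u v w, G.Adj u v → G.Adj u w → v ≠ w → Γ u v ≠ Γ u w) ∧
      (∀ u v, G.Adj u v → Γ u v ≠ F u) ∧ (∀ u ∈ U, F u = f0 u) ∧
      ∀ u v, H.Adj u v → Γ u v = e0 u := by
  classical
  obtain ⟨T, m, t0, t1, t2⟩ := matchings2 hPM (G \ H) (fun i : {a // a ∈ A} => S i.1)
    (fun i => Z i.1) (fun i => hZS i.1 i.2) (fun i => hpar i.1 i.2)
    (fun i v hv => by rw [Fintype.card_coe]; exact hdir i.1 i.2 v hv) univ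
  replace t0 := fun i => t0 i (mem_univ i)
  replace t1 := fun i => t1 i (mem_univ i)
  replace t2 := fun i j => t2 i (mem_univ i) j (mem_univ j)
  let P : {a // a ∈ A} → V → V → Prop := fun i u v => u ∈ T i ∧ m i u = v
  have Ps : ∀ i u v, P i u v → P i v u := by
    rintro i u v ⟨h3, rfl⟩
    obtain ⟨h4, -, h5⟩ := t1 i u h3
    exact ⟨h4, h5⟩
  have Pu : ∀ i j u v, P i u v → P j u v → i = j := by
    rintro i j u v ⟨h3, h4⟩ ⟨h5, h6⟩
    by_contra h
    exact t2 i j h u h3 h5 (h4.trans h6.symm)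
  have Pv : ∀ i u v w, P i u v → P i u w → v = w := by
    rintro i u v w ⟨_, h4⟩ ⟨_, h6⟩
    exact h4.symm.trans h6
  have PG : ∀ i u v, P i u v → G.Adj u v ∧ ¬ H.Adj u v := by
    rintro i u v ⟨h3, rfl⟩
    obtain ⟨-, h4, -⟩ := t1 i u h3
    exact h4
  have PS : ∀ i u v, P i u v → u ∈ S i.1 := fun i u v h => (t0 i).2 h.1
  let R : SimpleGraph V :=
    { Adj := fun u v => G.Adj u v ∧ ¬ H.Adj u v ∧ ∀ i, ¬ P i u v
      symm := ⟨by
        rintro u v ⟨h1, h2, h3⟩
        exact ⟨h1.symm, fun h => h2 h.symm, fun i hi => h3 i (Ps i v u hi)⟩⟩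
      loopless := ⟨fun v h => G.loopless.irrefl v h.1⟩ }
  have hR : ∀ u v, R.Adj u v ↔ G.Adj u v ∧ ¬ H.Adj u v ∧ ∀ i, ¬ P i u v := fun _ _ => Iff.rfl
  have hRG : R ≤ G := fun u v h => h.1
  have hdr := deg_rest G H hHG T m t1 t2 R hR
  have hRU : ∀ u ∈ U, ∀ v ∈ U, ¬ R.Adj u v := fun u hu v hv h => h.2.1 (hUU u hu v hv h.1)
  have hkq : ∃ q, q + A.card = D + 2 := ⟨D + 2 - A.card, by omega⟩
  obtain ⟨q, hq⟩ := hkq
  let Z0 : Finset V := univ.filter (fun w => w ∉ U ∧ ∀ a, w ∉ I a)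
  have mZ0 : ∀ w, w ∈ Z0 ↔ w ∉ U ∧ ∀ a, w ∉ I a := by
    intro w
    simp only [Z0, mem_filter, mem_univ, true_and]
  have hZ0 : Z0.card = {w | w ∉ U ∧ ∀ a, w ∉ I a}.ncard := by
    rw [← Set.ncard_coe_finset]
    congr 1
    ext w
    simp only [Z0, coe_filter, mem_univ, true_and]
  have hZU : Disjoint Z0 U := by
    rw [Finset.disjoint_left]
    intro w hw
    exact ((mZ0 w).1 hw).1
  have hcard : ∀ v, (univ.filter (fun i : {a // a ∈ A} => v ∈ T i)).card +
      (univ.filter (fun i : {a // a ∈ A} => v ∉ T i)).card = A.card := by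
    intro v
    rw [Finset.card_filter_add_card_filter_not, card_univ, Fintype.card_coe]
  -- the degrees outside `U`
  have d1 : ∀ w, w ∉ U → (R.neighborSet w).ncard + (if w ∈ Z0 then 1 else 0) + 1 ≤
      q + (if w ∈ Sp then 1 else 0) := by
    intro w hw
    by_cases hL : w ∈ L
    · have e1 : (univ.filter (fun i : {a // a ∈ A} => w ∉ T i)) ⊆
          (univ.filter (fun i : {a // a ∈ A} => w ∈ I i.1)) ∪
          (univ.filter (fun i : {a // a ∈ A} => w ∈ S i.1 ∧ w ∉ Z i.1)) := by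
        intro i hi
        rw [mem_union, mem_filter, mem_filter]
        by_cases h : w ∈ I i.1
        · exact Or.inl ⟨mem_univ _, h⟩
        · right
          exact ⟨mem_univ _, (hS2 i.1 w hw).2 h, fun h' => (mem_filter.1 hi).2 ((t0 i).1 h')⟩
      have e2 := (card_le_card e1).trans (card_union_le _ _)
      have e3 : (univ.filter (fun i : {a // a ∈ A} => w ∈ I i.1)).card ≤
          (if w ∈ Z0 then 0 else 1) := by
        split_ifs with h
        · rw [Nat.le_zero, card_eq_zero, filter_eq_empty_iff]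
          intro i _
          exact ((mZ0 w).1 h).2 i.1
        · rw [card_le_one]
          intro i hi j hj
          by_contra hne
          exact (Finset.disjoint_left.1 (hId i.1 j.1 (fun h => hne (Subtype.ext h))))
            (mem_filter.1 hi).2 (mem_filter.1 hj).2
      have e4 : (univ.filter (fun i : {a // a ∈ A} => w ∈ S i.1 ∧ w ∉ Z i.1)).card ≤
          (if w ∈ Sp then 1 else 0) := by
        split_ifs with h
        · rw [card_le_one]
          intro i hi j hj
          have hi' := (mem_filter.1 hi).2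
          have hj' := (mem_filter.1 hj).2
          exact Subtype.ext (hSp2 i.1 i.2 j.1 j.2 w hL hi'.1 hi'.2 hj'.1 hj'.2)
        · rw [Nat.le_zero, card_eq_zero, filter_eq_empty_iff]
          intro i _ h'
          exact h (hSp1 i.1 i.2 w hL h'.1 h'.2)
      have e5 := hcard w
      have e6 := hdr w
      have e7 := hdeg w
      by_cases h1 : w ∈ Z0
      · rw [if_pos h1] at e3 ⊢
        by_cases h2 : w ∈ Sp
        · rw [if_pos h2] at e4 ⊢
          omega
        · rw [if_neg h2] at e4 ⊢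
          omega
      · rw [if_neg h1] at e3 ⊢
        by_cases h2 : w ∈ Sp
        · rw [if_pos h2] at e4 ⊢
          omega
        · rw [if_neg h2] at e4 ⊢
          omega
    · have e1 := hlow w hL
      have e2 := hdr w
      have e3 : (if w ∈ Z0 then 1 else 0) ≤ 1 := by
        split_ifs <;> omega
      omega
  -- the degrees in `U`
  have d2 : ∀ u ∈ U, (R.neighborSet u).ncard ≤ D + 1 - A.card := by
    intro u hu
    have e2 := hdr u
    by_cases hL : u ∈ L
    · have e1 : (univ.filter (fun i : {a // a ∈ A} => u ∉ T i)) ⊆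
          (univ.filter (fun i : {a // a ∈ A} => i.1 = f0 u)) ∪
          (univ.filter (fun i : {a // a ∈ A} => i.1 = e0 u)) := by
        intro i hi
        rw [mem_union, mem_filter, mem_filter]
        by_cases h : i.1 = f0 u
        · exact Or.inl ⟨mem_univ _, h⟩
        · by_cases h' : i.1 = e0 u
          · exact Or.inr ⟨mem_univ _, h'⟩
          · exfalso
            have h3 : u ∈ S i.1 := (hS1 i.1 u hu).2 ⟨hL, h, h'⟩
            by_cases h4 : u ∈ Z i.1
            · exact (mem_filter.1 hi).2 ((t0 i).1 h4)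
            · exact (Finset.disjoint_left.1 hSp3) (hSp1 i.1 i.2 u hL h3 h4) hu
      have e3 := (card_le_card e1).trans (card_union_le _ _)
      have e4 : ∀ b, (univ.filter (fun i : {a // a ∈ A} => i.1 = b)).card ≤ 1 := by
        intro b
        rw [card_le_one]
        intro i hi j hj
        exact Subtype.ext ((mem_filter.1 hi).2.trans (mem_filter.1 hj).2.symm)
      have e5 := e4 (f0 u)
      have e6 := e4 (e0 u)
      have e7 := hcard u
      have e8 := hdeg u
      have e9 : 0 < (H.neighborSet u).ncard := by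
        rw [Set.ncard_pos]
        obtain ⟨x, hx⟩ := (hU u).1 hu
        exact ⟨x, hx⟩
      omega
    · have e1 := hlow u hL
      omega
  obtain ⟨bin, b1, b2⟩ := bins hBIN hSUM1 R H U (D + 1 - A.card) hHm
    (fun u hu v hv huv x h h' => hU2 u hu v hv huv x h.1 h'.1) d2 (by omega)
  obtain ⟨f, g, v1, v2, v3, v4, v5, v6⟩ := hVB V R q U Z0 Sp bin hRU b1
    (fun b => (b2 b).trans_lt (by omega))
    (fun w hw => by
      have := d1 w hw
      split_ifs at this ⊢ <;> omega)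
    (fun w hw hw' => by
      have := d1 w hw
      rw [if_neg hw'] at this
      omega)
    hZU (by omega) hSp3 (fun u hu v hv h => hSp4 u hu v hv h.1)
  obtain ⟨σ, s1, s2, s3, s4⟩ := names6 hHALL G H R (D + 2) q U Z0 f0 e0 A bin hHm hRG hRU hU2 hZU
    (by rw [card_compl, Fintype.card_fin]; omega) (by omega) hω f g (fun u v h => (v1 u v h).2)
    v3 v4 v6
  -- the colouring
  let F : V → Fin (D + 2) := fun v => if v ∈ U then f0 v else
    if h : ∃ a, v ∈ I a then h.choose else σ (f v)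
  let Γ : V → V → Fin (D + 2) := fun u v => if H.Adj u v then e0 u else
    if h : ∃ i, P i u v then h.choose.1 else σ (g u v)
  have IA : ∀ v a, v ∈ I a → a ∈ A := by
    intro v a h
    by_contra h'
    rw [hI0 a h'] at h
    exact absurd h (notMem_empty _)
  have F1 : ∀ v ∈ U, F v = f0 v := fun v hv => if_pos hv
  have F2 : ∀ v a, v ∈ I a → F v = a := by
    intro v a ha
    have hv : v ∉ U := fun h => (Finset.disjoint_left.1 (hIU a)) ha h
    have h : ∃ a, v ∈ I a := ⟨a, ha⟩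
    simp only [F]
    rw [if_neg hv, dif_pos h]
    by_contra hne
    exact (Finset.disjoint_left.1 (hId _ _ hne)) h.choose_spec ha
  have F3 : ∀ v ∈ Z0, F v = σ (f v) := by
    intro v hv
    obtain ⟨h1, h2⟩ := (mZ0 v).1 hv
    simp only [F]
    rw [if_neg h1, dif_neg (fun ⟨a, ha⟩ => h2 a ha)]
  have cF : ∀ v, v ∉ U → (∃ a, v ∈ I a) ∨ v ∈ Z0 := by
    intro v hv
    by_cases h : ∃ a, v ∈ I a
    · exact Or.inl h
    · right
      push Not at h
      exact (mZ0 v).2 ⟨hv, h⟩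
  have G1 : ∀ u v, H.Adj u v → Γ u v = e0 u := fun u v h => if_pos h
  have G2 : ∀ u v i, P i u v → Γ u v = i.1 := by
    intro u v i hi
    have h : ∃ i, P i u v := ⟨i, hi⟩
    simp only [Γ]
    rw [if_neg (PG i u v hi).2, dif_pos h]
    exact congrArg Subtype.val (Pu _ _ u v h.choose_spec hi)
  have G3 : ∀ u v, R.Adj u v → Γ u v = σ (g u v) := by
    intro u v h
    simp only [Γ]
    rw [if_neg h.2.1, dif_neg (fun ⟨i, hi⟩ => h.2.2 i hi)]
  have cG : ∀ u v, G.Adj u v → H.Adj u v ∨ (∃ i, P i u v) ∨ R.Adj u v := by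
    intro u v h
    by_cases h1 : H.Adj u v
    · exact Or.inl h1
    · right
      by_cases h2 : ∃ i, P i u v
      · exact Or.inl h2
      · right
        push Not at h2
        exact ⟨h, h1, h2⟩
  -- the forbidden names at `U`
  have eU : ∀ u ∈ U, ∀ v, G.Adj u v → ¬ H.Adj u v → Γ u v ≠ f0 u ∧ Γ u v ≠ e0 u := by
    intro u hu v huv hn'
    rcases cG u v huv with h | ⟨i, hi⟩ | h
    · exact absurd h hn'
    · rw [G2 u v i hi]
      exact ((hS1 i.1 u hu).1 (PS i u v hi)).2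
    · rw [G3 u v h]
      exact s4 u hu v h
  have fU : ∀ u ∈ U, ∀ w, w ∉ U → G.Adj u w → F w ≠ f0 u := by
    intro u hu w hw huw
    rcases cF w hw with ⟨a, ha⟩ | h
    · rw [F2 w a ha]
      exact (hIf a w ha u hu huw).symm
    · rw [F3 w h]
      exact s3 w h u hu huw
  refine ⟨F, Γ, ?_, ?_, ?_, ?_, F1, G1⟩
  · intro u v huv
    rcases cG u v huv with h | ⟨i, hi⟩ | h
    · rw [G1 u v h, G1 v u h.symm]
      exact he0 u v h
    · rw [G2 u v i hi, G2 v u i (Ps i u v hi)]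
    · rw [G3 u v h, G3 v u h.symm, (v1 u v h).1]
  · intro u v huv
    by_cases hu : u ∈ U
    · by_cases hv : v ∈ U
      · rw [F1 u hu, F1 v hv]
        exact hf0 u v (hUU u hu v hv huv)
      · rw [F1 u hu]
        exact (fU u hu v hv huv).symm
    · by_cases hv : v ∈ U
      · rw [F1 v hv]
        exact fU v hv u hu huv.symm
      · rcases cF u hu with ⟨a, ha⟩ | h
        · rcases cF v hv with ⟨b, hb⟩ | h'
          · rw [F2 u a ha, F2 v b hb]
            rintro rfl
            exact hIi a u ha v hb huv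
          · rw [F2 u a ha, F3 v h']
            intro e
            exact s2 _ (v3 v h') (e ▸ IA u a ha)
        · rcases cF v hv with ⟨b, hb⟩ | h'
          · rw [F3 u h, F2 v b hb]
            intro e
            exact s2 _ (v3 u h) (e ▸ IA v b hb)
          · rw [F3 u h, F3 v h']
            intro e
            exact huv.ne (v4 u h v h' (s1 _ _ (v3 u h) (v3 v h') e))
  · intro u v w huv huw hvw
    rcases cG u v huv with h | ⟨i, hi⟩ | h
    · rcases cG u w huw with h' | h'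
      · exact absurd (hHm u v w h h') hvw
      · have h'' : ¬ H.Adj u w := fun h'' => hvw (hHm u v w h h'')
        rw [G1 u v h]
        exact (eU u ((hU u).2 ⟨v, h⟩) w huw h'').2.symm
    · rcases cG u w huw with h' | ⟨j, hj⟩ | h'
      · rw [G1 u w h']
        exact (eU u ((hU u).2 ⟨w, h'⟩) v huv (PG i u v hi).2).2
      · rw [G2 u v i hi, G2 u w j hj]
        intro e
        have := Subtype.ext e
        subst this
        exact hvw (Pv i u v w hi hj)
      · rw [G2 u v i hi, G3 u w h']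
        intro e
        exact s2 _ (v1 u w h').2 (e ▸ i.2)
    · rcases cG u w huw with h' | ⟨j, hj⟩ | h'
      · rw [G1 u w h']
        exact (eU u ((hU u).2 ⟨w, h'⟩) v huv h.2.1).2
      · rw [G3 u v h, G2 u w j hj]
        intro e
        exact s2 _ (v1 u v h).2 (e ▸ j.2)
      · rw [G3 u v h, G3 u w h']
        intro e
        exact v2 u v w h h' hvw (s1 _ _ (v1 u v h).2 (v1 u w h').2 e)
  · intro u v huv
    by_cases hu : u ∈ U
    · rw [F1 u hu]
      by_cases h : H.Adj u v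
      · rw [G1 u v h]
        exact hef u hu
      · exact (eU u hu v huv h).1
    · have hH : ¬ H.Adj u v := fun h => hu ((hU u).2 ⟨v, h⟩)
      rcases cG u v huv with h | ⟨i, hi⟩ | h
      · exact absurd h hH
      · rw [G2 u v i hi]
        rcases cF u hu with ⟨a, ha⟩ | h'
        · rw [F2 u a ha]
          rintro rfl
          exact (hS2 i.1 u hu).1 (PS i u v hi) ha
        · rw [F3 u h']
          intro e
          exact s2 _ (v3 u h') (e ▸ i.2)
      · rw [G3 u v h]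
        rcases cF u hu with ⟨a, ha⟩ | h'
        · rw [F2 u a ha]
          intro e
          exact s2 _ (v1 u v h).2 (e ▸ IA u a ha)
        · rw [F3 u h']
          intro e
          exact v5 u h' v h (s1 _ _ (v1 u v h).2 (v3 u h') e)

end Pool.Agent.D0H38.TD
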