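import Pool.Agent.D0H38.TD.Stm3
import Pool.Agent.Q6.CI.Vizing

/-!
# Total colourings of dense graphs from independent sets and perfect matchings
-/

set_option autoImplicit false

namespace Pool.Agent.D0H38.TD

open Finset

/-- edge-disjoint matchings inside the sets `S i` which cover the sets `L i` -/
theorem matchings2 (hPM : S_PM2) {V ι : Type} [Fintype V] [Fintype ι] [DecidableEq ι] [DecidableEq V]
    (G : SimpleGraph V) (S L : ι → Finset V) (hLS : ∀ i, L i ⊆ S i)
    (hpar : ∀ i, Even (L i).card ∨ 2 * (L i).card ≤ (S i).card + 1)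
    (hdir : ∀ i, ∀ v ∈ L i, (S i).card + 2 * Fintype.card ι ≤
      2 * {w | w ∈ S i ∧ G.Adj v w}.ncard + 1) (J : Finset ι) :
    ∃ (T : ι → Finset V) (m : ι → V → V), (∀ i ∈ J, L i ⊆ T i ∧ T i ⊆ S i) ∧
      (∀ i ∈ J, ∀ v ∈ T i, m i v ∈ T i ∧ G.Adj v (m i v) ∧ m i (m i v) = v) ∧
      ∀ i ∈ J, ∀ j ∈ J, i ≠ j → ∀ v, v ∈ T i → v ∈ T j → m i v ≠ m j v := by
  classical
  induction J using Finset.induction_on with
  | empty => exact ⟨fun _ => ∅, fun _ v => v, by simp, by simp, by simp⟩
  | insert a J ha ih =>
    obtain ⟨T, m, h0, h1, h2⟩ := ih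
    have hJ : J.card + 1 ≤ Fintype.card ι := by
      rw [← Finset.card_insert_of_notMem ha]
      exact Finset.card_le_univ _
    let G' : SimpleGraph V :=
      { Adj := fun u v => G.Adj u v ∧ ∀ i ∈ J, ¬ (u ∈ T i ∧ m i u = v)
        symm := ⟨by
          rintro u v ⟨h3, h4⟩
          refine ⟨h3.symm, ?_⟩
          rintro i hi ⟨h5, rfl⟩
          obtain ⟨h6, -, h7⟩ := h1 i hi v h5
          exact h4 i hi ⟨h6, h7⟩⟩
        loopless := ⟨fun v h => G.loopless.irrefl v h.1⟩ }
    obtain ⟨Ta, ma, hTa1, hTa2, hma⟩ := hPM V G' (S a) (L a) (hLS a) (hpar a) (by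
      intro v hv
      have h3 := hdir a v hv
      have h4 : {w | w ∈ S a ∧ G.Adj v w} ⊆
          {w | w ∈ S a ∧ G'.Adj v w} ∪ ((J.image (fun i => m i v) : Finset V) : Set V) := by
        rintro w ⟨hw, hvw⟩
        by_cases h : ∀ i ∈ J, ¬ (v ∈ T i ∧ m i v = w)
        · exact Or.inl ⟨hw, hvw, h⟩
        · push Not at h
          obtain ⟨i, hi, -, rfl⟩ := h
          right
          rw [Finset.mem_coe]
          exact Finset.mem_image_of_mem _ hi
      have h5 := (Set.ncard_le_ncard h4 (Set.toFinite _)).trans (Set.ncard_union_le _ _)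
      rw [Set.ncard_coe_finset] at h5
      have h6 := Finset.card_image_le (s := J) (f := fun i => m i v)
      omega)
    refine ⟨fun i => if i = a then Ta else T i, fun i => if i = a then ma else m i, ?_, ?_, ?_⟩
    · intro i hi
      by_cases h : i = a
      · subst h
        simp only [if_true]
        exact ⟨hTa1, hTa2⟩
      · simp only [if_neg h]
        exact h0 i ((Finset.mem_insert.1 hi).resolve_left h)
    · intro i hi v hv
      by_cases h : i = a
      · subst h
        simp only [if_true] at hv ⊢
        obtain ⟨h3, h4, h5⟩ := hma v hv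
        exact ⟨h3, h4.1, h5⟩
      · simp only [if_neg h] at hv ⊢
        exact h1 i ((Finset.mem_insert.1 hi).resolve_left h) v hv
    · intro i hi j hj hij v hvi hvj
      by_cases h : i = a
      · subst h
        have hj' : j ∈ J := (Finset.mem_insert.1 hj).resolve_left (fun h => hij h.symm)
        simp only [if_true, if_neg (fun h : j = i => hij h.symm)] at hvi hvj ⊢
        intro h'
        exact (hma v hvi).2.1.2 j hj' ⟨hvj, h'.symm⟩
      · have hi' : i ∈ J := (Finset.mem_insert.1 hi).resolve_left h
        by_cases k : j = a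
        · subst k
          simp only [if_true, if_neg h] at hvi hvj ⊢
          intro h'
          exact (hma v hvj).2.1.2 i hi' ⟨hvi, h'⟩
        · have hj' : j ∈ J := (Finset.mem_insert.1 hj).resolve_left k
          simp only [if_neg h, if_neg k] at hvi hvj ⊢
          exact h2 i hi' j hj' hij v hvi hvj

/-- Total colourings with `D + 2` colours. -/
theorem total2 (hPM : S_PM2) {V ι : Type} [Fintype V] [Fintype ι] [DecidableEq ι] [DecidableEq V]
    (G : SimpleGraph V) (D : ℕ) (L : Finset V) (I : ι → Finset V)
    (hdeg : ∀ v, (G.neighborSet v).ncard ≤ D)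
    (hlow : ∀ v ∉ L, (G.neighborSet v).ncard + Fintype.card ι ≤ D)
    (hdisj : ∀ i j, i ≠ j → Disjoint (I i) (I j))
    (hind : ∀ i, ∀ u ∈ I i, ∀ v ∈ I i, ¬ G.Adj u v)
    (hpar : ∀ i, Even (L \ I i).card ∨ 2 * (L \ I i).card ≤ (univ \ I i).card + 1)
    (hdir : ∀ i, ∀ v ∈ L \ I i, (univ \ I i).card + 2 * Fintype.card ι ≤
      2 * {w | w ∈ univ \ I i ∧ G.Adj v w}.ncard + 1)
    (hR : {v | ∀ i, v ∉ I i}.ncard + Fintype.card ι ≤ D + 1) :
    ∃ (f : V → ℕ) (g : V → V → ℕ), (∀ u v, G.Adj u v → g u v = g v u) ∧
      (∀ u v, G.Adj u v → f u ≠ f v) ∧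
      (∀ u v w, G.Adj u v → G.Adj u w → v ≠ w → g u v ≠ g u w) ∧
      (∀ u v, G.Adj u v → g u v ≠ f u) ∧
      (∀ u, f u < D + 2) ∧ ∀ u v, G.Adj u v → g u v < D + 2 := by
  classical
  obtain ⟨T, m, h0, h1, h2⟩ := matchings2 hPM G (fun i => univ \ I i) (fun i => L \ I i)
    (fun i => sdiff_subset_sdiff (subset_univ _) (Subset.refl _)) hpar hdir univ
  replace h0 := fun i => h0 i (mem_univ i)
  have hTI : ∀ i v, v ∈ T i → v ∉ I i := fun i v hv => (mem_sdiff.1 ((h0 i).2 hv)).2
  have hTL : ∀ i v, v ∈ L → v ∉ I i → v ∈ T i := fun i v hv hv' =>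
    (h0 i).1 (mem_sdiff.2 ⟨hv, hv'⟩)
  replace h1 := fun i => h1 i (mem_univ i)
  replace h2 := fun i j => h2 i (mem_univ i) j (mem_univ j)
  set k : ℕ := Fintype.card ι with hk
  let e : ι → ℕ := fun i => (Fintype.equivFin ι i : ℕ)
  have he : Function.Injective e := fun a b h => (Fintype.equivFin ι).injective (Fin.ext h)
  have hek : ∀ i, e i < k := fun i => (Fintype.equivFin ι i).2
  -- the matched pairs
  let P : ι → V → V → Prop := fun i u v => u ∈ T i ∧ m i u = v
  have Ps : ∀ i u v, P i u v → P i v u := by
    rintro i u v ⟨h3, rfl⟩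
    obtain ⟨h4, -, h5⟩ := h1 i u h3
    exact ⟨h4, h5⟩
  have Pu : ∀ i j u v, P i u v → P j u v → i = j := by
    rintro i j u v ⟨h3, h4⟩ ⟨h5, h6⟩
    by_contra h
    exact h2 i j h u h3 h5 (h4.trans h6.symm)
  have Pv : ∀ i u v w, P i u v → P i u w → v = w := by
    rintro i u v w ⟨_, h4⟩ ⟨_, h6⟩
    exact h4.symm.trans h6
  -- the graph on `Option V`
  let A : Option V → Option V → Prop := fun x y =>
    match x, y with
    | none, none => False
    | none, some v => ∀ i, v ∉ I i
    | some v, none => ∀ i, v ∉ I i
    | some u, some v => G.Adj u v ∧ ∀ i, ¬ P i u v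
  let G' : SimpleGraph (Option V) :=
    { Adj := A
      symm := ⟨by
        rintro (_ | u) (_ | v) h
        · exact h
        · exact h
        · exact h
        · exact ⟨h.1.symm, fun i hi => h.2 i (Ps i v u hi)⟩⟩
      loopless := ⟨by
        rintro (_ | u) h
        · exact h
        · exact G.loopless.irrefl u h.1⟩ }
  have hA0 : ∀ v, G'.Adj none (some v) ↔ ∀ i, v ∉ I i := fun v => Iff.rfl
  have hA1 : ∀ u v, G'.Adj (some u) (some v) ↔ G.Adj u v ∧ ∀ i, ¬ P i u v := fun u v => Iff.rfl
  have hdg : ∀ x, Pool.Q6.CI.dg G' x ≤ D + 1 - k := by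
    rintro (_ | v)
    · have e1 : Pool.Q6.CI.dg G' none ≤ {v | ∀ i, v ∉ I i}.ncard := by
        unfold Pool.Q6.CI.dg
        rw [Set.ncard_eq_toFinset_card']
        have e2 : (univ.filter fun w => G'.Adj none w) ⊆
            ({v | ∀ i, v ∉ I i} : Set V).toFinset.image some := by
          rintro (_ | w) hw
          · simp only [mem_filter, mem_univ, true_and] at hw
            exact (G'.loopless.irrefl _ hw).elim
          · simp only [mem_filter, mem_univ, true_and] at hw
            rw [mem_image]
            exact ⟨w, by rw [Set.mem_toFinset]; exact hw, rfl⟩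
        exact (card_le_card e2).trans card_image_le
      omega
    · -- the degree in the rest of `G`
      set N : Finset V := univ.filter (fun w => G.Adj v w ∧ ∀ i, ¬ P i v w) with hN
      have e1 : Pool.Q6.CI.dg G' (some v) ≤ N.card + (if ∀ i, v ∉ I i then 1 else 0) := by
        unfold Pool.Q6.CI.dg
        have e2 : (univ.filter fun w => G'.Adj (some v) w) ⊆
            N.image some ∪ (if ∀ i, v ∉ I i then {none} else ∅) := by
          rintro (_ | w) hw
          · simp only [mem_filter, mem_univ, true_and] at hw
            have hw' : ∀ i, v ∉ I i := hw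
            rw [mem_union, if_pos hw']
            right
            simp
          · simp only [mem_filter, mem_univ, true_and] at hw
            rw [mem_union, mem_image]
            left
            exact ⟨w, by rw [hN, mem_filter]; exact ⟨mem_univ _, hw⟩, rfl⟩
        refine (card_le_card e2).trans ((card_union_le _ _).trans ?_)
        apply Nat.add_le_add card_image_le
        split_ifs <;> simp
      -- the matched neighbours
      have e3 : N.card + (univ.filter (fun i : ι => v ∈ T i)).card ≤ (G.neighborSet v).ncard := by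
        have e4 : ((univ.filter (fun i : ι => v ∈ T i)).image (fun i => m i v)).card =
            (univ.filter (fun i : ι => v ∈ T i)).card := by
          apply card_image_of_injOn
          intro i hi j hj hij
          simp only [coe_filter, mem_univ, true_and, Set.mem_ofPred_eq] at hi hj
          by_contra h
          exact h2 i j h v hi hj hij
        rw [← e4, ← card_union_of_disjoint]
        · rw [← Set.ncard_coe_finset]
          apply Set.ncard_le_ncard _ (Set.toFinite _)
          intro w hw
          rw [Finset.mem_coe, mem_union, mem_image] at hw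
          rcases hw with hw | ⟨i, hi, rfl⟩
          · exact (mem_filter.1 hw).2.1
          · exact (h1 i v (mem_filter.1 hi).2).2.1
        · rw [Finset.disjoint_left]
          intro w hw hw'
          obtain ⟨i, hi, rfl⟩ := mem_image.1 hw'
          exact (mem_filter.1 hw).2.2 i ⟨(mem_filter.1 hi).2, rfl⟩
      by_cases hv : v ∈ L
      · have e5 : k ≤ (univ.filter (fun i : ι => v ∈ T i)).card +
            (univ.filter (fun i : ι => v ∈ I i)).card := by
          have h7 : (univ : Finset ι) ⊆ univ.filter (fun i : ι => v ∈ T i) ∪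
              univ.filter (fun i : ι => v ∈ I i) := by
            intro i _
            rw [mem_union, mem_filter, mem_filter]
            by_cases h : v ∈ I i
            · exact Or.inr ⟨mem_univ _, h⟩
            · exact Or.inl ⟨mem_univ _, hTL i v hv h⟩
          have := (card_le_card h7).trans (card_union_le _ _)
          rw [card_univ] at this
          exact this
        by_cases hR' : ∀ i, v ∉ I i
        · have e6 : (univ.filter (fun i : ι => v ∈ I i)).card = 0 := by
            rw [card_eq_zero, filter_eq_empty_iff]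
            intro i _
            exact hR' i
          rw [if_pos hR'] at e1
          have := hdeg v
          omega
        · have e6 : (univ.filter (fun i : ι => v ∈ I i)).card ≤ 1 := by
            rw [card_le_one]
            intro i hi j hj
            by_contra h
            exact (Finset.disjoint_left.1 (hdisj i j h)) (mem_filter.1 hi).2 (mem_filter.1 hj).2
          rw [if_neg hR'] at e1
          have := hdeg v
          omega
      · have := hlow v hv
        split_ifs at e1 <;> omega
  obtain ⟨z, hz⟩ := Pool.Q6.CI.vizing hdg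
  have hkD : k ≤ D + 1 := by omega
  -- the colouring
  let f : V → ℕ := fun v => if h : ∃ i, v ∈ I i then e h.choose else k + z none (some v)
  let g : V → V → ℕ := fun u v => if h : ∃ i, P i u v then e h.choose else k + z (some u) (some v)
  have f1 : ∀ v i, v ∈ I i → f v = e i := by
    intro v i hi
    have h : ∃ i, v ∈ I i := ⟨i, hi⟩
    simp only [f]
    rw [dif_pos h]
    congr 1
    by_contra hne
    exact (Finset.disjoint_left.1 (hdisj _ _ hne)) h.choose_spec hi
  have f2 : ∀ v, (∀ i, v ∉ I i) → f v = k + z none (some v) := by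
    intro v hv
    simp only [f]
    rw [dif_neg (fun ⟨i, hi⟩ => hv i hi)]
  have g1 : ∀ u v i, P i u v → g u v = e i := by
    intro u v i hi
    have h : ∃ i, P i u v := ⟨i, hi⟩
    simp only [g]
    rw [dif_pos h]
    congr 1
    exact Pu _ _ u v h.choose_spec hi
  have g2 : ∀ u v, (∀ i, ¬ P i u v) → g u v = k + z (some u) (some v) := by
    intro u v hv
    simp only [g]
    rw [dif_neg (fun ⟨i, hi⟩ => hv i hi)]
  have cI : ∀ v, (∃ i, v ∈ I i) ∨ ∀ i, v ∉ I i := by
    intro v
    by_cases h : ∃ i, v ∈ I i
    · exact Or.inl h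
    · right
      push Not at h
      exact h
  have cP : ∀ u v, (∃ i, P i u v) ∨ ∀ i, ¬ P i u v := by
    intro u v
    by_cases h : ∃ i, P i u v
    · exact Or.inl h
    · right
      push Not at h
      exact h
  refine ⟨f, g, ?_, ?_, ?_, ?_, ?_, ?_⟩
  · intro u v huv
    rcases cP u v with ⟨i, hi⟩ | h
    · rw [g1 u v i hi, g1 v u i (Ps i u v hi)]
    · rw [g2 u v h, g2 v u (fun i hi => h i (Ps i v u hi))]
      rw [hz.symm (some u) (some v) ((hA1 u v).2 ⟨huv, h⟩)]
  · intro u v huv
    rcases cI u with ⟨i, hi⟩ | h
    · rcases cI v with ⟨j, hj⟩ | h'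
      · rw [f1 u i hi, f1 v j hj]
        intro h
        have := he h
        subst this
        exact hind i u hi v hj huv
      · rw [f1 u i hi, f2 v h']
        have := hek i
        omega
    · rcases cI v with ⟨j, hj⟩ | h'
      · rw [f2 u h, f1 v j hj]
        have := hek j
        omega
      · rw [f2 u h, f2 v h']
        intro hh
        have := hz.inj none (some u) (some v) ((hA0 u).2 h) ((hA0 v).2 h') (by omega)
        exact huv.ne (Option.some.inj this)
  · intro u v w huv huw hvw
    rcases cP u v with ⟨i, hi⟩ | h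
    · rcases cP u w with ⟨j, hj⟩ | h'
      · rw [g1 u v i hi, g1 u w j hj]
        intro hh
        have := he hh
        subst this
        exact hvw (Pv i u v w hi hj)
      · rw [g1 u v i hi, g2 u w h']
        have := hek i
        omega
    · rcases cP u w with ⟨j, hj⟩ | h'
      · rw [g2 u v h, g1 u w j hj]
        have := hek j
        omega
      · rw [g2 u v h, g2 u w h']
        intro hh
        have := hz.inj (some u) (some v) (some w) ((hA1 u v).2 ⟨huv, h⟩) ((hA1 u w).2 ⟨huw, h'⟩)
          (by omega)
        exact hvw (Option.some.inj this)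
  · intro u v huv
    rcases cP u v with ⟨i, hi⟩ | h
    · rcases cI u with ⟨j, hj⟩ | h'
      · rw [g1 u v i hi, f1 u j hj]
        intro hh
        have := he hh
        subst this
        exact hTI _ _ hi.1 hj
      · rw [g1 u v i hi, f2 u h']
        have := hek i
        omega
    · rcases cI u with ⟨j, hj⟩ | h'
      · rw [g2 u v h, f1 u j hj]
        have := hek j
        omega
      · rw [g2 u v h, f2 u h']
        intro hh
        have h3 : G'.Adj (some u) none := G'.symm.symm _ _ ((hA0 u).2 h')
        have h4 := hz.symm none (some u) ((hA0 u).2 h')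
        have := hz.inj (some u) (some v) none ((hA1 u v).2 ⟨huv, h⟩) h3 (by omega)
        exact Option.some_ne_none v this
  · intro u
    rcases cI u with ⟨i, hi⟩ | h
    · rw [f1 u i hi]
      have := hek i
      omega
    · rw [f2 u h]
      have := hz.lt none (some u) ((hA0 u).2 h)
      omega
  · intro u v huv
    rcases cP u v with ⟨i, hi⟩ | h
    · rw [g1 u v i hi]
      have := hek i
      omega
    · rw [g2 u v h]
      have := hz.lt (some u) (some v) ((hA1 u v).2 ⟨huv, h⟩)
      omega

end Pool.Agent.D0H38.TD
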