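import Pool.Agent.D0H38.TD.Stm5
import Pool.Agent.D0H38.TD.Dense2

/-!
# Degrees in the rest of the graph, sides of the precoloured vertices
-/

set_option autoImplicit false

namespace Pool.Agent.D0H38.TD

open Finset

/-- a vertex loses its matched edges and its edge of `H` -/
theorem deg_rest {V ι : Type} [Fintype V] [Fintype ι] [DecidableEq ι] [DecidableEq V]
    (G H : SimpleGraph V) (hHG : H ≤ G) (T : ι → Finset V) (m : ι → V → V)
    (h1 : ∀ i, ∀ v ∈ T i, m i v ∈ T i ∧ (G \ H).Adj v (m i v) ∧ m i (m i v) = v)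
    (h2 : ∀ i j, i ≠ j → ∀ v, v ∈ T i → v ∈ T j → m i v ≠ m j v) (R : SimpleGraph V)
    (hR : ∀ u v, R.Adj u v ↔ G.Adj u v ∧ ¬ H.Adj u v ∧ ∀ i, ¬ (u ∈ T i ∧ m i u = v)) (v : V) :
    (R.neighborSet v).ncard + (univ.filter (fun i => v ∈ T i)).card +
      (H.neighborSet v).ncard ≤ (G.neighborSet v).ncard := by
  classical
  set J := univ.filter (fun i => v ∈ T i) with hJ
  have e1 : ((J.image (fun i => m i v) : Finset V) : Set V).ncard = J.card := by
    rw [Set.ncard_coe_finset]
    apply card_image_of_injOn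
    intro i hi j hj hij
    rw [Finset.mem_coe, hJ, mem_filter] at hi hj
    by_contra h
    exact h2 i j h v hi.2 hj.2 hij
  rw [← e1, ← Set.ncard_union_eq _ (Set.toFinite _) (Set.toFinite _),
    ← Set.ncard_union_eq _ (Set.toFinite _) (Set.toFinite _)]
  · apply Set.ncard_le_ncard _ (Set.toFinite _)
    rintro w ((hw | hw) | hw)
    · exact ((hR v w).1 hw).1
    · rw [Finset.mem_coe, mem_image] at hw
      obtain ⟨i, hi, rfl⟩ := hw
      rw [hJ, mem_filter] at hi
      exact (h1 i v hi.2).2.1.1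
    · exact hHG hw
  · rw [Set.disjoint_left]
    rintro w (hw | hw) hw'
    · exact ((hR v w).1 hw).2.1 hw'
    · rw [Finset.mem_coe, mem_image] at hw
      obtain ⟨i, hi, rfl⟩ := hw
      rw [hJ, mem_filter] at hi
      exact (h1 i v hi.2).2.1.2 hw'
  · rw [Set.disjoint_left]
    rintro w hw hw'
    rw [Finset.mem_coe, mem_image] at hw'
    obtain ⟨i, hi, rfl⟩ := hw'
    rw [hJ, mem_filter] at hi
    exact ((hR v _).1 hw).2.2 i ⟨hi.2, rfl⟩

/-- the two sides of a matching -/
theorem sides {V : Type} [Fintype V] (H : SimpleGraph V)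
    (hHm : ∀ u v w, H.Adj u v → H.Adj u w → v = w) :
    ∃ side : V → Bool, ∀ u v, H.Adj u v → side u ≠ side v := by
  classical
  let e := Fintype.equivFin V
  refine ⟨fun u => decide (∃ x, H.Adj u x ∧ e u < e x), ?_⟩
  intro u v huv h
  have h' : (∃ x, H.Adj u x ∧ e u < e x) ↔ (∃ x, H.Adj v x ∧ e v < e x) := decide_eq_decide.1 h
  have hne : e u ≠ e v := fun h => huv.ne (e.injective h)
  rcases lt_or_gt_of_ne hne with hl | hl
  · obtain ⟨x, hx, hlt⟩ := h'.1 ⟨v, huv, hl⟩
    have := hHm v x u hx huv.symm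
    subst this
    exact absurd hlt (not_lt.2 hl.le)
  · obtain ⟨x, hx, hlt⟩ := h'.2 ⟨u, huv.symm, hl⟩
    have := hHm u x v hx huv
    subst this
    exact absurd hlt (not_lt.2 hl.le)

/-- six bins -/
theorem bins (hBIN : S_BIN) (hSUM1 : S_SUM1) {V : Type} [Fintype V] [DecidableEq V]
    (R H : SimpleGraph V) (U : Finset V) (M : ℕ)
    (hHm : ∀ u v w, H.Adj u v → H.Adj u w → v = w)
    (hU2 : ∀ u ∈ U, ∀ v ∈ U, u ≠ v → ∀ x, R.Adj u x → R.Adj v x → H.Adj u v)
    (hw : ∀ u ∈ U, (R.neighborSet u).ncard ≤ M) (hn : Fintype.card V ≤ 2 * M) :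
    ∃ bin : V → Fin 6, (∀ u ∈ U, ∀ v ∈ U, u ≠ v → bin u = bin v → ∀ x, R.Adj u x → ¬ R.Adj v x) ∧
      ∀ b, ∑ u ∈ U.filter (fun u => bin u = b), (R.neighborSet u).ncard ≤ M := by
  classical
  obtain ⟨side, hs⟩ := sides H hHm
  have key : ∀ t : Bool, ∃ bin : V → Fin 3,
      ∀ b, ∑ u ∈ (U.filter (fun u => side u = t)).filter (fun u => bin u = b),
        (R.neighborSet u).ncard ≤ M := by
    intro t
    refine hBIN V (U.filter (fun u => side u = t)) (fun u => (R.neighborSet u).ncard) M ?_ ?_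
    · intro u hu
      exact hw u (mem_filter.1 hu).1
    · refine (hSUM1 V R (U.filter (fun u => side u = t)) ?_).trans hn
      intro u hu v hv huv x hx hx'
      rw [mem_filter] at hu hv
      exact hs u v (hU2 u hu.1 v hv.1 huv x hx hx') (hu.2.trans hv.2.symm)
  obtain ⟨b1, h1⟩ := key true
  obtain ⟨b2, h2⟩ := key false
  refine ⟨fun u => if side u = true then ⟨(b1 u : ℕ), by omega⟩ else ⟨(b2 u : ℕ) + 3, by omega⟩,
    ?_, ?_⟩
  · intro u hu v hv huv hb x hx hx'
    have hsd := hs u v (hU2 u hu v hv huv x hx hx')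
    by_cases h : side u = true
    · by_cases h' : side v = true
      · exact hsd (h.trans h'.symm)
      · simp only [if_pos h, if_neg h', Fin.mk.injEq] at hb
        have := (b1 u).2
        omega
    · by_cases h' : side v = true
      · simp only [if_neg h, if_pos h', Fin.mk.injEq] at hb
        have := (b1 v).2
        omega
      · rw [Bool.not_eq_true] at h h'
        exact hsd (h.trans h'.symm)
  · intro b
    by_cases hb : (b : ℕ) < 3
    · refine le_trans (Finset.sum_le_sum_of_subset ?_) (h1 ⟨b, hb⟩)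
      intro u hu
      rw [mem_filter] at hu
      by_cases h : side u = true
      · simp only [if_pos h] at hu
        have h3 : (b1 u : ℕ) = (b : ℕ) := congrArg Fin.val hu.2
        rw [mem_filter, mem_filter]
        exact ⟨⟨hu.1, h⟩, Fin.ext h3⟩
      · simp only [if_neg h] at hu
        have h3 : (b2 u : ℕ) + 3 = (b : ℕ) := congrArg Fin.val hu.2
        omega
    · refine le_trans (Finset.sum_le_sum_of_subset ?_) (h2 ⟨b - 3, by omega⟩)
      intro u hu
      rw [mem_filter] at hu
      by_cases h : side u = true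
      · simp only [if_pos h] at hu
        have h3 : (b1 u : ℕ) = (b : ℕ) := congrArg Fin.val hu.2
        have := (b1 u).2
        omega
      · simp only [if_neg h] at hu
        have h3 : (b2 u : ℕ) + 3 = (b : ℕ) := congrArg Fin.val hu.2
        rw [mem_filter, mem_filter]
        rw [Bool.not_eq_true] at h
        refine ⟨⟨hu.1, h⟩, Fin.ext ?_⟩
        change (b2 u : ℕ) = (b : ℕ) - 3
        omega

end Pool.Agent.D0H38.TD
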