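import Pool.Agent.D0H38.TD.Dense2

/-!
# Total colourings of dense graphs with additional information on the colours of the vertices
-/

set_option autoImplicit false

namespace Pool.Agent.D0H38.TD

open Finset

/-- Total colourings with `D + 2` colours. -/
theorem total3 (hPM : S_PM2) {V ι : Type} [Fintype V] [Fintype ι] [DecidableEq ι] [DecidableEq V]
    (G : SimpleGraph V) (D : ℕ) (L : Finset V) (I : ι → Finset V)
    (hdeg : ∀ v, (G.neighborSet v).ncard ≤ D)
    (hlow : ∀ v ∉ L, (G.neighborSet v).ncard + Fintype.card ι ≤ D)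
    (hdisj : ∀ i j, i ≠ j → Disjoint (I i) (I j))
    (hind : ∀ i, ∀ u ∈ I i, ∀ v ∈ I i, ¬ G.Adj u v)
    (hpar : ∀ i, Even (L \ I i).card ∨ 2 * (L \ I i).card ≤ (univ \ I i).card + 1)
    (hdir : ∀ i, ∀ v ∈ L \ I i, (univ \ I i).card + 2 * Fintype.card ι ≤
      2 * {w | w ∈ univ \ I i ∧ G.Adj v w}.ncard + 1)
    (hR : {v | ∀ i, v ∉ I i}.ncard + Fintype.card ι ≤ D) (S : ℕ) (hS : 1 ≤ S)
    (hIS : ∀ i, (I i).card ≤ S) :
    ∃ (f : V → ℕ) (g : V → V → ℕ), (∀ u v, G.Adj u v → g u v = g v u) ∧
      (∀ u v, G.Adj u v → f u ≠ f v) ∧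
      (∀ u v w, G.Adj u v → G.Adj u w → v ≠ w → g u v ≠ g u w) ∧
      (∀ u v, G.Adj u v → g u v ≠ f u) ∧
      (∀ u, f u < D + 2) ∧ (∀ u v, G.Adj u v → g u v < D + 2) ∧
      (∀ j, {v | f v = j}.ncard ≤ S) ∧
      (∀ j, 2 ≤ {v | f v = j}.ncard → j < Fintype.card ι) ∧
      ∃ j₁ j₂, j₁ < D + 2 ∧ j₂ < D + 2 ∧ j₁ ≠ j₂ ∧ (∀ v, f v ≠ j₁) ∧ ∀ v, f v ≠ j₂ := by
  classical
  obtain ⟨T, m, h0, h1, h2⟩ := matchings2 hPM G (fun i => univ \ I i) (fun i => L \ I i)
    (fun i => sdiff_subset_sdiff (subset_univ _) (Subset.refl _)) hpar hdir univ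
  replace h0 := fun i => h0 i (mem_univ i)
  have hTI : ∀ i v, v ∈ T i → v ∉ I i := fun i v hv => (mem_sdiff.1 ((h0 i).2 hv)).2
  have hTL : ∀ i v, v ∈ L → v ∉ I i → v ∈ T i := fun i v hv hv' =>
    (h0 i).1 (mem_sdiff.2 ⟨hv, hv'⟩)
  replace h1 := fun i => h1 i (mem_univ i)
  replace h2 := fun i j => h2 i (mem_univ i) j (mem_univ j)
  set k : ℕ := Fintype.card ι with hk
  let e : ι → ℕ := fun i => (Fintype.equivFin ι i : ℕ)
  have he : Function.Injective e := fun a b h => (Fintype.equivFin ι).injective (Fin.ext h)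
  have hek : ∀ i, e i < k := fun i => (Fintype.equivFin ι i).2
  -- the matched pairs
  let P : ι → V → V → Prop := fun i u v => u ∈ T i ∧ m i u = v
  have Ps : ∀ i u v, P i u v → P i v u := by
    rintro i u v ⟨h3, rfl⟩
    obtain ⟨h4, -, h5⟩ := h1 i u h3
    exact ⟨h4, h5⟩
  have Pu : ∀ i j u v, P i u v → P j u v → i = j := by
    rintro i j u v ⟨h3, h4⟩ ⟨h5, h6⟩
    by_contra h
    exact h2 i j h u h3 h5 (h4.trans h6.symm)
  have Pv : ∀ i u v w, P i u v → P i u w → v = w := by
    rintro i u v w ⟨_, h4⟩ ⟨_, h6⟩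
    exact h4.symm.trans h6
  -- the graph on `Option V`
  let A : Option V → Option V → Prop := fun x y =>
    match x, y with
    | none, none => False
    | none, some v => ∀ i, v ∉ I i
    | some v, none => ∀ i, v ∉ I i
    | some u, some v => G.Adj u v ∧ ∀ i, ¬ P i u v
  let G' : SimpleGraph (Option V) :=
    { Adj := A
      symm := ⟨by
        rintro (_ | u) (_ | v) h
        · exact h
        · exact h
        · exact h
        · exact ⟨h.1.symm, fun i hi => h.2 i (Ps i v u hi)⟩⟩
      loopless := ⟨by
        rintro (_ | u) h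
        · exact h
        · exact G.loopless.irrefl u h.1⟩ }
  have hA0 : ∀ v, G'.Adj none (some v) ↔ ∀ i, v ∉ I i := fun v => Iff.rfl
  have hA1 : ∀ u v, G'.Adj (some u) (some v) ↔ G.Adj u v ∧ ∀ i, ¬ P i u v := fun u v => Iff.rfl
  have hdg : ∀ x, Pool.Q6.CI.dg G' x ≤ D + 1 - k := by
    rintro (_ | v)
    · have e1 : Pool.Q6.CI.dg G' none ≤ {v | ∀ i, v ∉ I i}.ncard := by
        unfold Pool.Q6.CI.dg
        rw [Set.ncard_eq_toFinset_card']
        have e2 : (univ.filter fun w => G'.Adj none w) ⊆
            ({v | ∀ i, v ∉ I i} : Set V).toFinset.image some := by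
          rintro (_ | w) hw
          · simp only [mem_filter, mem_univ, true_and] at hw
            exact (G'.loopless.irrefl _ hw).elim
          · simp only [mem_filter, mem_univ, true_and] at hw
            rw [mem_image]
            exact ⟨w, by rw [Set.mem_toFinset]; exact hw, rfl⟩
        exact (card_le_card e2).trans card_image_le
      omega
    · -- the degree in the rest of `G`
      set N : Finset V := univ.filter (fun w => G.Adj v w ∧ ∀ i, ¬ P i v w) with hN
      have e1 : Pool.Q6.CI.dg G' (some v) ≤ N.card + (if ∀ i, v ∉ I i then 1 else 0) := by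
        unfold Pool.Q6.CI.dg
        have e2 : (univ.filter fun w => G'.Adj (some v) w) ⊆
            N.image some ∪ (if ∀ i, v ∉ I i then {none} else ∅) := by
          rintro (_ | w) hw
          · simp only [mem_filter, mem_univ, true_and] at hw
            have hw' : ∀ i, v ∉ I i := hw
            rw [mem_union, if_pos hw']
            right
            simp
          · simp only [mem_filter, mem_univ, true_and] at hw
            rw [mem_union, mem_image]
            left
            exact ⟨w, by rw [hN, mem_filter]; exact ⟨mem_univ _, hw⟩, rfl⟩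
        refine (card_le_card e2).trans ((card_union_le _ _).trans ?_)
        apply Nat.add_le_add card_image_le
        split_ifs <;> simp
      -- the matched neighbours
      have e3 : N.card + (univ.filter (fun i : ι => v ∈ T i)).card ≤ (G.neighborSet v).ncard := by
        have e4 : ((univ.filter (fun i : ι => v ∈ T i)).image (fun i => m i v)).card =
            (univ.filter (fun i : ι => v ∈ T i)).card := by
          apply card_image_of_injOn
          intro i hi j hj hij
          simp only [coe_filter, mem_univ, true_and, Set.mem_ofPred_eq] at hi hj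
          by_contra h
          exact h2 i j h v hi hj hij
        rw [← e4, ← card_union_of_disjoint]
        · rw [← Set.ncard_coe_finset]
          apply Set.ncard_le_ncard _ (Set.toFinite _)
          intro w hw
          rw [Finset.mem_coe, mem_union, mem_image] at hw
          rcases hw with hw | ⟨i, hi, rfl⟩
          · exact (mem_filter.1 hw).2.1
          · exact (h1 i v (mem_filter.1 hi).2).2.1
        · rw [Finset.disjoint_left]
          intro w hw hw'
          obtain ⟨i, hi, rfl⟩ := mem_image.1 hw'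
          exact (mem_filter.1 hw).2.2 i ⟨(mem_filter.1 hi).2, rfl⟩
      by_cases hv : v ∈ L
      · have e5 : k ≤ (univ.filter (fun i : ι => v ∈ T i)).card +
            (univ.filter (fun i : ι => v ∈ I i)).card := by
          have h7 : (univ : Finset ι) ⊆ univ.filter (fun i : ι => v ∈ T i) ∪
              univ.filter (fun i : ι => v ∈ I i) := by
            intro i _
            rw [mem_union, mem_filter, mem_filter]
            by_cases h : v ∈ I i
            · exact Or.inr ⟨mem_univ _, h⟩
            · exact Or.inl ⟨mem_univ _, hTL i v hv h⟩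
          have := (card_le_card h7).trans (card_union_le _ _)
          rw [card_univ] at this
          exact this
        by_cases hR' : ∀ i, v ∉ I i
        · have e6 : (univ.filter (fun i : ι => v ∈ I i)).card = 0 := by
            rw [card_eq_zero, filter_eq_empty_iff]
            intro i _
            exact hR' i
          rw [if_pos hR'] at e1
          have := hdeg v
          omega
        · have e6 : (univ.filter (fun i : ι => v ∈ I i)).card ≤ 1 := by
            rw [card_le_one]
            intro i hi j hj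
            by_contra h
            exact (Finset.disjoint_left.1 (hdisj i j h)) (mem_filter.1 hi).2 (mem_filter.1 hj).2
          rw [if_neg hR'] at e1
          have := hdeg v
          omega
      · have := hlow v hv
        split_ifs at e1 <;> omega
  obtain ⟨z, hz⟩ := Pool.Q6.CI.vizing hdg
  have hkD : k ≤ D + 1 := by omega
  -- the colouring
  let f : V → ℕ := fun v => if h : ∃ i, v ∈ I i then e h.choose else k + z none (some v)
  let g : V → V → ℕ := fun u v => if h : ∃ i, P i u v then e h.choose else k + z (some u) (some v)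
  have f1 : ∀ v i, v ∈ I i → f v = e i := by
    intro v i hi
    have h : ∃ i, v ∈ I i := ⟨i, hi⟩
    simp only [f]
    rw [dif_pos h]
    congr 1
    by_contra hne
    exact (Finset.disjoint_left.1 (hdisj _ _ hne)) h.choose_spec hi
  have f2 : ∀ v, (∀ i, v ∉ I i) → f v = k + z none (some v) := by
    intro v hv
    simp only [f]
    rw [dif_neg (fun ⟨i, hi⟩ => hv i hi)]
  have g1 : ∀ u v i, P i u v → g u v = e i := by
    intro u v i hi
    have h : ∃ i, P i u v := ⟨i, hi⟩
    simp only [g]
    rw [dif_pos h]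
    congr 1
    exact Pu _ _ u v h.choose_spec hi
  have g2 : ∀ u v, (∀ i, ¬ P i u v) → g u v = k + z (some u) (some v) := by
    intro u v hv
    simp only [g]
    rw [dif_neg (fun ⟨i, hi⟩ => hv i hi)]
  have cI : ∀ v, (∃ i, v ∈ I i) ∨ ∀ i, v ∉ I i := by
    intro v
    by_cases h : ∃ i, v ∈ I i
    · exact Or.inl h
    · right
      push Not at h
      exact h
  have cP : ∀ u v, (∃ i, P i u v) ∨ ∀ i, ¬ P i u v := by
    intro u v
    by_cases h : ∃ i, P i u v
    · exact Or.inl h
    · right
      push Not at h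
      exact h
  refine ⟨f, g, ?_, ?_, ?_, ?_, ?_, ?_, ?_, ?_, ?_⟩
  · intro u v huv
    rcases cP u v with ⟨i, hi⟩ | h
    · rw [g1 u v i hi, g1 v u i (Ps i u v hi)]
    · rw [g2 u v h, g2 v u (fun i hi => h i (Ps i v u hi))]
      rw [hz.symm (some u) (some v) ((hA1 u v).2 ⟨huv, h⟩)]
  · intro u v huv
    rcases cI u with ⟨i, hi⟩ | h
    · rcases cI v with ⟨j, hj⟩ | h'
      · rw [f1 u i hi, f1 v j hj]
        intro h
        have := he h
        subst this
        exact hind i u hi v hj huv
      · rw [f1 u i hi, f2 v h']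
        have := hek i
        omega
    · rcases cI v with ⟨j, hj⟩ | h'
      · rw [f2 u h, f1 v j hj]
        have := hek j
        omega
      · rw [f2 u h, f2 v h']
        intro hh
        have := hz.inj none (some u) (some v) ((hA0 u).2 h) ((hA0 v).2 h') (by omega)
        exact huv.ne (Option.some.inj this)
  · intro u v w huv huw hvw
    rcases cP u v with ⟨i, hi⟩ | h
    · rcases cP u w with ⟨j, hj⟩ | h'
      · rw [g1 u v i hi, g1 u w j hj]
        intro hh
        have := he hh
        subst this
        exact hvw (Pv i u v w hi hj)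
      · rw [g1 u v i hi, g2 u w h']
        have := hek i
        omega
    · rcases cP u w with ⟨j, hj⟩ | h'
      · rw [g2 u v h, g1 u w j hj]
        have := hek j
        omega
      · rw [g2 u v h, g2 u w h']
        intro hh
        have := hz.inj (some u) (some v) (some w) ((hA1 u v).2 ⟨huv, h⟩) ((hA1 u w).2 ⟨huw, h'⟩)
          (by omega)
        exact hvw (Option.some.inj this)
  · intro u v huv
    rcases cP u v with ⟨i, hi⟩ | h
    · rcases cI u with ⟨j, hj⟩ | h'
      · rw [g1 u v i hi, f1 u j hj]
        intro hh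
        have := he hh
        subst this
        exact hTI _ _ hi.1 hj
      · rw [g1 u v i hi, f2 u h']
        have := hek i
        omega
    · rcases cI u with ⟨j, hj⟩ | h'
      · rw [g2 u v h, f1 u j hj]
        have := hek j
        omega
      · rw [g2 u v h, f2 u h']
        intro hh
        have h3 : G'.Adj (some u) none := G'.symm.symm _ _ ((hA0 u).2 h')
        have h4 := hz.symm none (some u) ((hA0 u).2 h')
        have := hz.inj (some u) (some v) none ((hA1 u v).2 ⟨huv, h⟩) h3 (by omega)
        exact Option.some_ne_none v this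
  · intro u
    rcases cI u with ⟨i, hi⟩ | h
    · rw [f1 u i hi]
      have := hek i
      omega
    · rw [f2 u h]
      have := hz.lt none (some u) ((hA0 u).2 h)
      omega
  · intro u v huv
    rcases cP u v with ⟨i, hi⟩ | h
    · rw [g1 u v i hi]
      have := hek i
      omega
    · rw [g2 u v h]
      have := hz.lt (some u) (some v) ((hA1 u v).2 ⟨huv, h⟩)
      omega

  · -- the sizes of the classes
    intro j
    by_cases hj : ∃ i, e i = j
    · obtain ⟨i, rfl⟩ := hj
      refine le_trans ?_ (hIS i)
      rw [← Set.ncard_coe_finset]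
      apply Set.ncard_le_ncard _ (Set.toFinite _)
      intro v hv
      rcases cI v with ⟨i', hi'⟩ | h
      · have : e i' = e i := (f1 v i' hi').symm.trans hv
        rw [he this] at hi'
        exact hi'
      · exfalso
        have h3 : k + z none (some v) = e i := (f2 v h).symm.trans hv
        have := hek i
        omega
    · refine le_trans ?_ hS
      rw [Set.ncard_le_one (Set.toFinite _)]
      intro u hu v hv
      rcases cI u with ⟨i, hi⟩ | h
      · exact absurd ⟨i, (f1 u i hi).symm.trans hu⟩ hj
      · rcases cI v with ⟨i, hi⟩ | h'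
        · exact absurd ⟨i, (f1 v i hi).symm.trans hv⟩ hj
        · have e1 : k + z none (some u) = j := (f2 u h).symm.trans hu
          have e2 : k + z none (some v) = j := (f2 v h').symm.trans hv
          have := hz.inj none (some u) (some v) ((hA0 u).2 h) ((hA0 v).2 h') (by omega)
          exact Option.some.inj this
  · intro j hj
    by_contra hcon
    rw [not_lt] at hcon
    have : {v | f v = j}.ncard ≤ 1 := by
      rw [Set.ncard_le_one (Set.toFinite _)]
      intro u hu v hv
      rcases cI u with ⟨i, hi⟩ | h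
      · have h3 : e i = j := (f1 u i hi).symm.trans hu
        have := hek i
        omega
      · rcases cI v with ⟨i, hi⟩ | h'
        · have h3 : e i = j := (f1 v i hi).symm.trans hv
          have := hek i
          omega
        · have e1 : k + z none (some u) = j := (f2 u h).symm.trans hu
          have e2 : k + z none (some v) = j := (f2 v h').symm.trans hv
          have := hz.inj none (some u) (some v) ((hA0 u).2 h) ((hA0 v).2 h') (by omega)
          exact Option.some.inj this
    omega
  · -- unused colours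
    set Rf : Finset V := univ.filter (fun v => ∀ i, v ∉ I i) with hRf
    have hRc : Rf.card = {v | ∀ i, v ∉ I i}.ncard := by
      rw [← Set.ncard_coe_finset]
      congr 1
      ext v
      simp [hRf]
    set U : Finset ℕ := range (D + 2 - k) \ Rf.image (fun v => z none (some v)) with hU
    have hUc : 1 < U.card := by
      have e1 := le_card_sdiff (Rf.image (fun v => z none (some v))) (range (D + 2 - k))
      have e2 := card_image_le (s := Rf) (f := fun v => z none (some v))
      rw [card_range, ← hU] at e1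
      omega
    obtain ⟨a, ha, b, hb, hab⟩ := one_lt_card.1 hUc
    have key : ∀ a ∈ U, k + a < D + 2 ∧ ∀ v, f v ≠ k + a := by
      intro a ha
      rw [hU, mem_sdiff, mem_range] at ha
      refine ⟨by omega, ?_⟩
      intro v hv
      rcases cI v with ⟨i, hi⟩ | h
      · rw [f1 v i hi] at hv
        have := hek i
        omega
      · rw [f2 v h] at hv
        apply ha.2
        rw [mem_image]
        exact ⟨v, by rw [hRf, mem_filter]; exact ⟨mem_univ _, h⟩, by omega⟩
    exact ⟨k + a, k + b, (key a ha).1, (key b hb).1, by omega, (key a ha).2, (key b hb).2⟩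

/-- all graphs of large maximum degree and small chromatic number -/
theorem dense3 (hPM : S_PM2) (hDEC2 : S_DEC2) (hDEC3 : S_DEC3) {V : Type} [Fintype V] [DecidableEq V]
    (G : SimpleGraph V) (D c s : ℕ) (hdeg : ∀ v, (G.neighborSet v).ncard ≤ D)
    (hcol : G.Colorable c) (hs : 1 ≤ s)
    (hM : Fintype.card V + s + 4 * (Fintype.card V / s + c) ≤ 2 * D + 2) :
    ∃ (f : V → ℕ) (g : V → V → ℕ), (∀ u v, G.Adj u v → g u v = g v u) ∧
      (∀ u v, G.Adj u v → f u ≠ f v) ∧
      (∀ u v w, G.Adj u v → G.Adj u w → v ≠ w → g u v ≠ g u w) ∧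
      (∀ u v, G.Adj u v → g u v ≠ f u) ∧
      (∀ u, f u < D + 2) ∧ (∀ u v, G.Adj u v → g u v < D + 2) ∧
      (∀ j, {v | f v = j}.ncard ≤ s + 1) ∧
      (∀ j, 2 ≤ {v | f v = j}.ncard → j < Fintype.card V / s + c) ∧
      ∃ j₁ j₂, j₁ < D + 2 ∧ j₂ < D + 2 ∧ j₁ ≠ j₂ ∧ (∀ v, f v ≠ j₁) ∧ ∀ v, f v ≠ j₂ := by
  classical
  obtain ⟨κ⟩ := hcol
  set n : ℕ := Fintype.card V with hn
  set k0 : ℕ := n / s + c with hk0
  set L : Finset V := univ.filter (fun v => D + 1 ≤ (G.neighborSet v).ncard + k0) with hL
  have hLn : L.card ≤ n := card_le_univ _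
  have hck : c ≤ k0 := Nat.le_add_left _ _
  have hκ : ∀ (P : Finset V), (∀ u ∈ P, ∀ v ∈ P, κ u = κ v) → ∀ u ∈ P, ∀ v ∈ P, ¬ G.Adj u v :=
    fun P hP u hu v hv h => κ.valid h (hP u hu v hv)
  have hlow : ∀ v ∉ L, ∀ k ≤ k0, (G.neighborSet v).ncard + k ≤ D := by
    intro v hv k hk
    rw [hL, mem_filter] at hv
    have : ¬ (D + 1 ≤ (G.neighborSet v).ncard + k0) := fun h => hv ⟨mem_univ _, h⟩
    omega
  -- the degree condition
  have hcond : ∀ (P : Finset V) (k : ℕ), P.card ≤ s + 1 → k ≤ k0 → ∀ v ∈ L \ P,
      (univ \ P).card + 2 * k ≤ 2 * {w | w ∈ univ \ P ∧ G.Adj v w}.ncard + 1 := by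
    intro P k hP hk v hv
    have h1 : D + 1 ≤ (G.neighborSet v).ncard + k0 := (mem_filter.1 (mem_sdiff.1 hv).1).2
    have h2 : G.neighborSet v ⊆ {w | w ∈ univ \ P ∧ G.Adj v w} ∪ (P : Set V) := by
      intro w hw
      by_cases h : w ∈ P
      · exact Or.inr h
      · exact Or.inl ⟨mem_sdiff.2 ⟨mem_univ _, h⟩, hw⟩
    have h3 := (Set.ncard_le_ncard h2 (Set.toFinite _)).trans (Set.ncard_union_le _ _)
    rw [Set.ncard_coe_finset] at h3
    have h4 : (univ \ P).card + P.card = n := by
      rw [card_sdiff_add_card_eq_card (subset_univ _), card_univ]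
    omega
  by_cases hbig : n + c + k0 ≤ D + L.card
  · -- pieces inside `L`
    obtain ⟨s1, hs1, hs1', hpar⟩ : ∃ s1, s ≤ s1 ∧ s1 ≤ s + 1 ∧ Even (L.card + s1) := by
      by_cases h : Even (L.card + s)
      · exact ⟨s, le_rfl, Nat.le_succ _, h⟩
      · refine ⟨s + 1, Nat.le_succ _, le_rfl, ?_⟩
        rw [Nat.not_even_iff_odd] at h
        obtain ⟨a, ha⟩ := h
        exact ⟨a + 1, by omega⟩
    obtain ⟨Q, hQ1, hQ2, hQ3, hQ4⟩ := hDEC2 V c s1 κ L (hs.trans hs1) hpar
    have hQk : Q.card ≤ k0 := by
      have h1 : L.card / s1 ≤ n / s :=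
        (Nat.div_le_div_right hLn).trans (Nat.div_le_div_left hs1 hs)
      omega
    have hcard : Fintype.card {P // P ∈ Q} = Q.card := Fintype.card_coe Q
    have main := total3 hPM G D L (fun P : {P // P ∈ Q} => P.1) hdeg ?_ ?_ ?_ ?_ ?_ ?_ (s + 1)
      (Nat.le_add_left _ _) ?_
    · obtain ⟨f, g, r1, r2, r3, r4, r5, r6, r7, r8, r9⟩ := main
      refine ⟨f, g, r1, r2, r3, r4, r5, r6, r7, fun j hj => ?_, r9⟩
      have := r8 j hj
      rw [hcard] at this
      exact this.trans_le hQk
    · intro v hv
      rw [hcard]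
      exact hlow v hv _ hQk
    · intro P P' hPP
      exact hQ2 P.1 P.2 P'.1 P'.2 (fun h => hPP (Subtype.ext h))
    · intro P
      exact hκ P.1 (hQ1 P.1 P.2).2.2.2
    · intro P
      left
      obtain ⟨h1, h2, h3, -⟩ := hQ1 P.1 P.2
      rw [card_sdiff_of_subset h1]
      have h4 := card_le_card h1
      obtain ⟨a, ha⟩ := h3
      exact ⟨a - P.1.card, by omega⟩
    · intro P v hv
      rw [hcard]
      exact hcond P.1 _ ((hQ1 P.1 P.2).2.1.trans hs1') hQk v hv
    · rw [hcard]
      have h1 : {v | ∀ i : {P // P ∈ Q}, v ∉ i.1} ⊆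
          (((univ \ L : Finset V)) : Set V) ∪ {v | v ∈ L ∧ ∀ P ∈ Q, v ∉ P} := by
        intro v hv
        by_cases h : v ∈ L
        · exact Or.inr ⟨h, fun P hP => hv ⟨P, hP⟩⟩
        · left
          rw [Finset.mem_coe, mem_sdiff]
          exact ⟨mem_univ _, h⟩
      have h2 := (Set.ncard_le_ncard h1 (Set.toFinite _)).trans (Set.ncard_union_le _ _)
      rw [Set.ncard_coe_finset] at h2
      have h4 : (univ \ L).card + L.card = n := by
        rw [card_sdiff_add_card_eq_card (subset_univ _), card_univ]
      omega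
    · intro P
      exact (hQ1 P.1 P.2).2.1.trans hs1'
  · -- pieces of all vertices
    obtain ⟨Q, hQ1, hQ2, hQ3, hQ4⟩ := hDEC3 V c s κ hs
    replace hQ3 : Q.card ≤ k0 := hQ3
    have hcard : Fintype.card {P // P ∈ Q} = Q.card := Fintype.card_coe Q
    have main := total3 hPM G D L (fun P : {P // P ∈ Q} => P.1) hdeg ?_ ?_ ?_ ?_ ?_ ?_ (s + 1)
      (Nat.le_add_left _ _) ?_
    · obtain ⟨f, g, r1, r2, r3, r4, r5, r6, r7, r8, r9⟩ := main
      refine ⟨f, g, r1, r2, r3, r4, r5, r6, r7, fun j hj => ?_, r9⟩
      have := r8 j hj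
      rw [hcard] at this
      exact this.trans_le hQ3
    · intro v hv
      rw [hcard]
      exact hlow v hv _ hQ3
    · intro P P' hPP
      exact hQ2 P.1 P.2 P'.1 P'.2 (fun h => hPP (Subtype.ext h))
    · intro P
      exact hκ P.1 (hQ1 P.1 P.2).2
    · intro P
      right
      have h1 := (hQ1 P.1 P.2).1
      have h2 : (L \ P.1).card ≤ L.card := card_le_card sdiff_subset
      have h4 : (univ \ P.1).card + P.1.card = n := by
        rw [card_sdiff_add_card_eq_card (subset_univ _), card_univ]
      omega
    · intro P v hv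
      rw [hcard]
      exact hcond P.1 _ ((hQ1 P.1 P.2).1.trans (Nat.le_succ _)) hQ3 v hv
    · rw [hcard]
      have h1 : {v | ∀ i : {P // P ∈ Q}, v ∉ i.1} = ∅ := by
        ext v
        simp only [Set.mem_ofPred_eq, Set.mem_empty_iff_false, iff_false]
        intro h
        obtain ⟨P, hP, hv⟩ := hQ4 v
        exact h ⟨P, hP⟩ hv
      rw [h1, Set.ncard_empty]
      omega
    · intro P
      exact (hQ1 P.1 P.2).1.trans (Nat.le_succ _)

end Pool.Agent.D0H38.TD
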