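import Pool.Agent.D0H38.TD.Dense2

/-!
# Total colourings of dense graphs: the case of `c`-colourable graphs
-/

set_option autoImplicit false

namespace Pool.Agent.D0H38.TD

open Finset

/-- all graphs of large maximum degree and small chromatic number -/
theorem dense (hPM : S_PM2) (hDEC2 : S_DEC2) (hDEC3 : S_DEC3) {V : Type} [Fintype V] [DecidableEq V]
    (G : SimpleGraph V) (D c s : ℕ) (hdeg : ∀ v, (G.neighborSet v).ncard ≤ D)
    (hcol : G.Colorable c) (hs : 1 ≤ s)
    (hM : Fintype.card V + s + 4 * (Fintype.card V / s + c) ≤ 2 * D + 2) :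
    ∃ (f : V → ℕ) (g : V → V → ℕ), (∀ u v, G.Adj u v → g u v = g v u) ∧
      (∀ u v, G.Adj u v → f u ≠ f v) ∧
      (∀ u v w, G.Adj u v → G.Adj u w → v ≠ w → g u v ≠ g u w) ∧
      (∀ u v, G.Adj u v → g u v ≠ f u) ∧
      (∀ u, f u < D + 2) ∧ ∀ u v, G.Adj u v → g u v < D + 2 := by
  classical
  obtain ⟨κ⟩ := hcol
  set n : ℕ := Fintype.card V with hn
  set k0 : ℕ := n / s + c with hk0
  set L : Finset V := univ.filter (fun v => D + 1 ≤ (G.neighborSet v).ncard + k0) with hL
  have hLn : L.card ≤ n := card_le_univ _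
  have hck : c ≤ k0 := Nat.le_add_left _ _
  have hκ : ∀ (P : Finset V), (∀ u ∈ P, ∀ v ∈ P, κ u = κ v) → ∀ u ∈ P, ∀ v ∈ P, ¬ G.Adj u v :=
    fun P hP u hu v hv h => κ.valid h (hP u hu v hv)
  have hlow : ∀ v ∉ L, ∀ k ≤ k0, (G.neighborSet v).ncard + k ≤ D := by
    intro v hv k hk
    rw [hL, mem_filter] at hv
    have : ¬ (D + 1 ≤ (G.neighborSet v).ncard + k0) := fun h => hv ⟨mem_univ _, h⟩
    omega
  -- the degree condition
  have hcond : ∀ (P : Finset V) (k : ℕ), P.card ≤ s + 1 → k ≤ k0 → ∀ v ∈ L \ P,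
      (univ \ P).card + 2 * k ≤ 2 * {w | w ∈ univ \ P ∧ G.Adj v w}.ncard + 1 := by
    intro P k hP hk v hv
    have h1 : D + 1 ≤ (G.neighborSet v).ncard + k0 := (mem_filter.1 (mem_sdiff.1 hv).1).2
    have h2 : G.neighborSet v ⊆ {w | w ∈ univ \ P ∧ G.Adj v w} ∪ (P : Set V) := by
      intro w hw
      by_cases h : w ∈ P
      · exact Or.inr h
      · exact Or.inl ⟨mem_sdiff.2 ⟨mem_univ _, h⟩, hw⟩
    have h3 := (Set.ncard_le_ncard h2 (Set.toFinite _)).trans (Set.ncard_union_le _ _)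
    rw [Set.ncard_coe_finset] at h3
    have h4 : (univ \ P).card + P.card = n := by
      rw [card_sdiff_add_card_eq_card (subset_univ _), card_univ]
    omega
  by_cases hbig : n + c + k0 ≤ D + 1 + L.card
  · -- pieces inside `L`
    obtain ⟨s1, hs1, hs1', hpar⟩ : ∃ s1, s ≤ s1 ∧ s1 ≤ s + 1 ∧ Even (L.card + s1) := by
      by_cases h : Even (L.card + s)
      · exact ⟨s, le_rfl, Nat.le_succ _, h⟩
      · refine ⟨s + 1, Nat.le_succ _, le_rfl, ?_⟩
        rw [Nat.not_even_iff_odd] at h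
        obtain ⟨a, ha⟩ := h
        exact ⟨a + 1, by omega⟩
    obtain ⟨Q, hQ1, hQ2, hQ3, hQ4⟩ := hDEC2 V c s1 κ L (hs.trans hs1) hpar
    have hQk : Q.card ≤ k0 := by
      have h1 : L.card / s1 ≤ n / s :=
        (Nat.div_le_div_right hLn).trans (Nat.div_le_div_left hs1 hs)
      omega
    have hcard : Fintype.card {P // P ∈ Q} = Q.card := Fintype.card_coe Q
    refine total2 hPM G D L (fun P : {P // P ∈ Q} => P.1) hdeg ?_ ?_ ?_ ?_ ?_ ?_
    · intro v hv
      rw [hcard]
      exact hlow v hv _ hQk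
    · intro P P' hPP
      exact hQ2 P.1 P.2 P'.1 P'.2 (fun h => hPP (Subtype.ext h))
    · intro P
      exact hκ P.1 (hQ1 P.1 P.2).2.2.2
    · intro P
      left
      obtain ⟨h1, h2, h3, -⟩ := hQ1 P.1 P.2
      rw [card_sdiff_of_subset h1]
      have h4 := card_le_card h1
      obtain ⟨a, ha⟩ := h3
      exact ⟨a - P.1.card, by omega⟩
    · intro P v hv
      rw [hcard]
      exact hcond P.1 _ ((hQ1 P.1 P.2).2.1.trans hs1') hQk v hv
    · rw [hcard]
      have h1 : {v | ∀ i : {P // P ∈ Q}, v ∉ i.1} ⊆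
          (((univ \ L : Finset V)) : Set V) ∪ {v | v ∈ L ∧ ∀ P ∈ Q, v ∉ P} := by
        intro v hv
        by_cases h : v ∈ L
        · exact Or.inr ⟨h, fun P hP => hv ⟨P, hP⟩⟩
        · left
          rw [Finset.mem_coe, mem_sdiff]
          exact ⟨mem_univ _, h⟩
      have h2 := (Set.ncard_le_ncard h1 (Set.toFinite _)).trans (Set.ncard_union_le _ _)
      rw [Set.ncard_coe_finset] at h2
      have h4 : (univ \ L).card + L.card = n := by
        rw [card_sdiff_add_card_eq_card (subset_univ _), card_univ]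
      omega
  · -- pieces of all vertices
    obtain ⟨Q, hQ1, hQ2, hQ3, hQ4⟩ := hDEC3 V c s κ hs
    replace hQ3 : Q.card ≤ k0 := hQ3
    have hcard : Fintype.card {P // P ∈ Q} = Q.card := Fintype.card_coe Q
    refine total2 hPM G D L (fun P : {P // P ∈ Q} => P.1) hdeg ?_ ?_ ?_ ?_ ?_ ?_
    · intro v hv
      rw [hcard]
      exact hlow v hv _ hQ3
    · intro P P' hPP
      exact hQ2 P.1 P.2 P'.1 P'.2 (fun h => hPP (Subtype.ext h))
    · intro P
      exact hκ P.1 (hQ1 P.1 P.2).2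
    · intro P
      right
      have h1 := (hQ1 P.1 P.2).1
      have h2 : (L \ P.1).card ≤ L.card := card_le_card sdiff_subset
      have h4 : (univ \ P.1).card + P.1.card = n := by
        rw [card_sdiff_add_card_eq_card (subset_univ _), card_univ]
      omega
    · intro P v hv
      rw [hcard]
      exact hcond P.1 _ ((hQ1 P.1 P.2).1.trans (Nat.le_succ _)) hQ3 v hv
    · rw [hcard]
      have h1 : {v | ∀ i : {P // P ∈ Q}, v ∉ i.1} = ∅ := by
        ext v
        simp only [Set.mem_ofPred_eq, Set.mem_empty_iff_false, iff_false]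
        intro h
        obtain ⟨P, hP, hv⟩ := hQ4 v
        exact h ⟨P, hP⟩ hv
      rw [h1, Set.ncard_empty]
      omega

end Pool.Agent.D0H38.TD
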