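import Pool.Agent.D0H38.TD.Dense
import Pool.Agent.D0H2.TD.Dec
import Pool.Agent.D0H70.TD.Pm

/-!
# Total colourings of graphs of large minimum degree
-/

set_option autoImplicit false

namespace Pool.Agent.D0H38.TD

open Finset

/-- graphs of large minimum degree `δ` -/
theorem dense_min (hPM : S_PM) (hDEC : S_DEC) {V : Type} [Fintype V] [DecidableEq V]
    (G : SimpleGraph V) (D δ c s : ℕ) (hdeg : ∀ v, (G.neighborSet v).ncard ≤ D)
    (hδ : ∀ v, δ ≤ (G.neighborSet v).ncard) (hcol : G.Colorable c) (hs : 1 ≤ s)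
    (hpar : Even (Fintype.card V + s))
    (h1 : Fintype.card V + s + 2 * (Fintype.card V / s + c) ≤ 2 * δ + 2)
    (h2 : 2 * c + Fintype.card V / s ≤ D + 1) :
    ∃ (f : V → ℕ) (g : V → V → ℕ), (∀ u v, G.Adj u v → g u v = g v u) ∧
      (∀ u v, G.Adj u v → f u ≠ f v) ∧
      (∀ u v w, G.Adj u v → G.Adj u w → v ≠ w → g u v ≠ g u w) ∧
      (∀ u v, G.Adj u v → g u v ≠ f u) ∧
      (∀ u, f u < D + 2) ∧ ∀ u v, G.Adj u v → g u v < D + 2 := by
  classical
  obtain ⟨κ⟩ := hcol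
  obtain ⟨Q, hQ1, hQ2, hQ3, hQ4⟩ := hDEC V c s κ hs hpar
  have hcard : Fintype.card {P // P ∈ Q} = Q.card := Fintype.card_coe Q
  have hsd : ∀ P : Finset V, (univ \ P).card + P.card = Fintype.card V := by
    intro P
    rw [card_sdiff_add_card_eq_card (subset_univ _), card_univ]
  refine total hPM G D univ (fun P : {P // P ∈ Q} => P.1) hdeg ?_ ?_ ?_ ?_ ?_ ?_
  · intro v hv
    exact absurd (mem_univ v) hv
  · intro P P' hPP
    exact hQ2 P.1 P.2 P'.1 P'.2 (fun h => hPP (Subtype.ext h))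
  · intro P u hu v hv h
    exact κ.valid h ((hQ1 P.1 P.2).2.2 u hu v hv)
  · intro P
    obtain ⟨-, h4, -⟩ := hQ1 P.1 P.2
    have h5 := hsd P.1
    obtain ⟨a, ha⟩ := h4
    exact ⟨a - P.1.card, by omega⟩
  · intro P v hv
    rw [hcard]
    have h3 := (hQ1 P.1 P.2).1
    have h4 := hδ v
    have h6 : G.neighborSet v ⊆ {w | w ∈ univ \ P.1 ∧ G.Adj v w} ∪ (P.1 : Set V) := by
      intro w hw
      by_cases h : w ∈ P.1
      · exact Or.inr h
      · exact Or.inl ⟨mem_sdiff.2 ⟨mem_univ _, h⟩, hw⟩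
    have h7 := (Set.ncard_le_ncard h6 (Set.toFinite _)).trans (Set.ncard_union_le _ _)
    rw [Set.ncard_coe_finset] at h7
    have h5 := hsd P.1
    omega
  · rw [hcard]
    have h3 : {v | ∀ i : {P // P ∈ Q}, v ∉ i.1} ⊆ {v | ∀ P ∈ Q, v ∉ P} :=
      fun v hv P hP => hv ⟨P, hP⟩
    have h4 := Set.ncard_le_ncard h3 (Set.toFinite _)
    omega

end Pool.Agent.D0H38.TD
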