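import Pool.Agent.D0H38.TD.Core5

/-!
# Exact form for dense graphs: the classes
-/

set_option autoImplicit false

namespace Pool.Agent.D0H38.TD

open Finset

theorem exact5 (hPM : S_PM2) (hVB : S_VB) (hHALL : S_HALL2) (hBIN : S_BIN) (hSUM : S_SUM)
    (hSUM1 : S_SUM1) (hCNT : S_CNT) (hSPC : S_SPC) (hBLK : S_BLK)
    {V : Type} [Fintype V] [DecidableEq V] [Nonempty V] (G H : SimpleGraph V) (D c s : ℕ)
    (U : Finset V) (κ : V → Fin c) (hκ : ∀ u v, G.Adj u v → κ u ≠ κ v)
    (f0 e0 : V → Fin (D + 2))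
    (hHG : H ≤ G) (hHm : ∀ u v w, H.Adj u v → H.Adj u w → v = w)
    (hU : ∀ v, v ∈ U ↔ ∃ x, H.Adj v x)
    (hUU : ∀ u ∈ U, ∀ v ∈ U, G.Adj u v → H.Adj u v)
    (hU2 : ∀ u ∈ U, ∀ v ∈ U, u ≠ v → ∀ x, G.Adj u x → G.Adj v x → H.Adj u v)
    (hf0 : ∀ u v, H.Adj u v → f0 u ≠ f0 v) (he0 : ∀ u v, H.Adj u v → e0 u = e0 v)
    (hef : ∀ u ∈ U, e0 u ≠ f0 u)
    (hdeg : ∀ v, (G.neighborSet v).ncard ≤ D) (hs : 1 ≤ s)
    (N1 : Fintype.card V + 4 * (Fintype.card V / s + c + 32) + 2 * s + 1 ≤ 2 * D)
    (N3 : Fintype.card V + s + 36 * (Fintype.card V / s + c) + 66 ≤ 2 * D)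
    (N4 : D ≤ Fintype.card V + (Fintype.card V / s + c + 32) →
      64 * c + (Fintype.card V / s + c + 32) + s + 4 ≤ D) :
    ∃ (F : V → Fin (D + 2)) (Γ : V → V → Fin (D + 2)),
      (∀ u v, G.Adj u v → Γ u v = Γ v u) ∧ (∀ u v, G.Adj u v → F u ≠ F v) ∧
      (∀ u v w, G.Adj u v → G.Adj u w → v ≠ w → Γ u v ≠ Γ u w) ∧
      (∀ u v, G.Adj u v → Γ u v ≠ F u) ∧ (∀ u ∈ U, F u = f0 u) ∧
      ∀ u v, H.Adj u v → Γ u v = e0 u := by
  classical
  have hn1 : 1 ≤ Fintype.card V := Fintype.card_pos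
  set k0 : ℕ := Fintype.card V / s + c with hk0
  -- neighbours in `U`
  have two : ∀ v, (univ.filter (fun u => u ∈ U ∧ G.Adj u v)).card ≤ 2 := by
    intro v
    by_contra hcon
    rw [not_le, Finset.two_lt_card] at hcon
    obtain ⟨a, ha, b, hb, d, hd, hab, had, hbd⟩ := hcon
    obtain ⟨-, a1, a2⟩ := mem_filter.1 ha
    obtain ⟨-, b1, b2⟩ := mem_filter.1 hb
    obtain ⟨-, d1, d2⟩ := mem_filter.1 hd
    exact hbd (hHm a b d (hU2 a a1 b b1 hab v a2 b2) (hU2 a a1 d d1 had v a2 d2))
  let N : V → Finset V := fun u => univ.filter (fun w => w ∉ U ∧ G.Adj u w)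
  have hN : ∀ u, {w | w ∉ U ∧ G.Adj u w}.ncard = (N u).card := by
    intro u
    rw [← Set.ncard_coe_finset]
    congr 1
    ext w
    simp only [N, coe_filter, mem_univ, true_and]
  have degN : ∀ v, (G.neighborSet v).ncard ≤ (N v).card + 2 := by
    intro v
    have h1 : G.neighborSet v ⊆ ((N v ∪ univ.filter (fun u => u ∈ U ∧ G.Adj u v) : Finset V) :
        Set V) := by
      intro w hw
      rw [Finset.mem_coe, mem_union]
      by_cases h : w ∈ U
      · right
        rw [mem_filter]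
        exact ⟨mem_univ _, h, (show G.Adj v w from hw).symm⟩
      · left
        simp only [N, mem_filter, mem_univ, true_and]
        exact ⟨h, hw⟩
    have h2 := Set.ncard_le_ncard h1 (Set.toFinite _)
    rw [Set.ncard_coe_finset] at h2
    have h3 := card_union_le (N v) (univ.filter (fun u => u ∈ U ∧ G.Adj u v))
    have h4 := two v
    omega
  -- weights of the names
  let ω : Fin (D + 2) → ℕ := fun b =>
    ∑ u ∈ U.filter (fun u => b = f0 u ∨ b = e0 u), {w | w ∉ U ∧ G.Adj u w}.ncard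
  have hωs : ∑ b, ω b ≤ 4 * Fintype.card V := by
    have h1 := hSUM V G U (D + 2) (fun u => {f0 u, e0 u}) (fun u => card_le_two)
      (fun w _ => by
        have h2 := two w
        rw [← Set.ncard_coe_finset] at h2
        refine le_trans (le_of_eq ?_) h2
        congr 1
        ext u
        simp only [coe_filter, mem_univ, true_and])
    refine le_trans (le_of_eq ?_) h1
    apply Finset.sum_congr rfl
    intro b _
    simp only [ω]
    apply Finset.sum_congr _ (fun _ _ => rfl)
    apply Finset.filter_congr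
    intro u _
    rw [mem_insert, mem_singleton]
  obtain ⟨w32, w17⟩ := hCNT (D + 2) (Fintype.card V) ω hn1 hωs
  set A0 : Finset (Fin (D + 2)) := univ.filter (fun a => Fintype.card V < 8 * ω a) with hA0
  set NL : Finset (Fin (D + 2)) := univ.filter (fun a => 17 ≤ ω a) with hNL
  have cA0 : A0.card ≤ 32 := by
    rw [← Set.ncard_coe_finset, hA0]
    refine le_trans (le_of_eq ?_) w32
    congr 1
    ext u
    simp only [coe_filter, mem_univ, true_and]
  have cNL : 17 * NL.card ≤ 4 * Fintype.card V := by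
    rw [← Set.ncard_coe_finset, hNL]
    refine le_trans (le_of_eq ?_) w17
    congr 2
    ext u
    simp only [coe_filter, mem_univ, true_and]
  set Lt : Finset (Fin (D + 2)) := univ \ (A0 ∪ NL) with hLt
  have mLt : ∀ a, a ∈ Lt → ω a ≤ 16 ∧ a ∉ A0 := by
    intro a ha
    rw [hLt, mem_sdiff, mem_union] at ha
    refine ⟨?_, fun h => ha.2 (Or.inl h)⟩
    by_contra h
    apply ha.2
    right
    rw [hNL, mem_filter]
    exact ⟨mem_univ _, by omega⟩
  have cLt : k0 ≤ Lt.card := by
    have h1 : Lt.card + (A0 ∪ NL).card = D + 2 := by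
      rw [hLt, card_sdiff_add_card_eq_card (subset_univ _), card_univ, Fintype.card_fin]
    have h2 := card_union_le A0 NL
    omega
  -- the vertices of large degree
  set L : Finset V := univ.filter (fun v => D < (G.neighborSet v).ncard + (k0 + 32)) with hL
  have mL : ∀ v, v ∈ L ↔ D < (G.neighborSet v).ncard + (k0 + 32) := by
    intro v
    rw [hL, mem_filter]
    exact ⟨fun h => h.2, fun h => ⟨mem_univ _, h⟩⟩
  have big : ∀ v ∈ L, D ≤ (N v).card + k0 + 33 := by
    intro v hv
    have h1 := (mL v).1 hv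
    have h2 := degN v
    omega
  have ltn : ∀ v, (G.neighborSet v).ncard < Fintype.card V := by
    intro v
    have h1 : G.neighborSet v ⊂ Set.univ := by
      rw [Set.ssubset_univ_iff]
      intro e
      have : v ∈ G.neighborSet v := by
        rw [e]
        exact Set.mem_univ v
      exact G.loopless.irrefl v this
    have h2 := Set.ncard_lt_ncard h1 (Set.toFinite _)
    rw [Set.ncard_univ, Nat.card_eq_fintype_card] at h2
    exact h2
  have LU : ∀ u ∈ L, ∀ v ∈ L, u ∈ U → v ∈ U → u ≠ v → H.Adj u v := by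
    intro u hu v hv hu' hv' huv
    by_contra hcon
    have hdis : Disjoint (G.neighborSet u) (G.neighborSet v) := by
      rw [Set.disjoint_left]
      intro w hw hw'
      exact hcon (hU2 u hu' v hv' huv w hw hw')
    have h2 := Set.ncard_union_eq hdis (Set.toFinite _) (Set.toFinite _)
    have h4 := Set.ncard_le_ncard (Set.subset_univ (G.neighborSet u ∪ G.neighborSet v))
      (Set.toFinite _)
    rw [Set.ncard_univ, Nat.card_eq_fintype_card] at h4
    have h5 := (mL u).1 hu
    have h6 := (mL v).1 hv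
    omega
  have cLU : (L ∩ U).card ≤ 2 := by
    by_contra hcon
    rw [not_le, Finset.two_lt_card] at hcon
    obtain ⟨a, ha, b, hb, d, hd, hab, had, hbd⟩ := hcon
    rw [mem_inter] at ha hb hd
    exact hbd (hHm a b d (LU a ha.1 b hb.1 ha.2 hb.2 hab) (LU a ha.1 d hd.1 ha.2 hd.2 had))
  have light : ∀ a ∈ Lt, ∀ v ∈ L, v ∈ U → a ≠ f0 v ∧ a ≠ e0 v := by
    intro a ha v hv hvU
    by_contra hcon
    have h1 : a = f0 v ∨ a = e0 v := by
      by_contra h
      push Not at h
      exact hcon h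
    have h2 : {w | w ∉ U ∧ G.Adj v w}.ncard ≤ ω a := by
      simp only [ω]
      exact Finset.single_le_sum (f := fun u => {w | w ∉ U ∧ G.Adj u w}.ncard)
        (fun _ _ => Nat.zero_le _) (mem_filter.2 ⟨hvU, h1⟩)
    rw [hN] at h2
    have h3 := (mLt a ha).1
    have h4 := big v hv
    omega
  -- forbidden names
  let forb : V → Finset (Fin (D + 2)) := fun w =>
    univ.filter (fun a => ∃ u ∈ U, G.Adj u w ∧ a = f0 u)
  have mforb : ∀ w a, a ∈ forb w ↔ ∃ u ∈ U, G.Adj u w ∧ a = f0 u := by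
    intro w a
    simp only [forb, mem_filter, mem_univ, true_and]
  have hforb : ∀ Y : Finset V, Disjoint Y U → ∀ a ∈ Lt, {w | w ∈ Y ∧ a ∈ forb w}.ncard ≤ 16 := by
    intro Y hY a ha
    have h1 : {w | w ∈ Y ∧ a ∈ forb w} ⊆
        (((U.filter (fun u => a = f0 u ∨ a = e0 u)).biUnion N : Finset V) : Set V) := by
      rintro w ⟨hw, hw'⟩
      obtain ⟨u, h1, h2, h3⟩ := (mforb w a).1 hw'
      rw [Finset.mem_coe, mem_biUnion]
      refine ⟨u, mem_filter.2 ⟨h1, Or.inl h3⟩, ?_⟩
      simp only [N, mem_filter, mem_univ, true_and]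
      exact ⟨fun h => (Finset.disjoint_left.1 hY) hw h, h2⟩
    have h2 := Set.ncard_le_ncard h1 (Set.toFinite _)
    rw [Set.ncard_coe_finset] at h2
    have h3 := h2.trans card_biUnion_le
    have h4 : ω a = ∑ u ∈ U.filter (fun u => a = f0 u ∨ a = e0 u), (N u).card :=
      Finset.sum_congr rfl (fun u _ => hN u)
    rw [← h4] at h3
    exact h3.trans (mLt a ha).1
  let S : (Fin (D + 2) → Finset V) → Fin (D + 2) → Finset V := fun I a =>
    univ.filter (fun v => if v ∈ U then v ∈ L ∧ a ≠ f0 v ∧ a ≠ e0 v else v ∉ I a)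
  have mS1 : ∀ I a v, v ∈ U → (v ∈ S I a ↔ v ∈ L ∧ a ≠ f0 v ∧ a ≠ e0 v) := by
    intro I a v hv
    simp only [S, mem_filter, mem_univ, true_and, if_pos hv]
  have mS2 : ∀ I a v, v ∉ U → (v ∈ S I a ↔ v ∉ I a) := by
    intro I a v hv
    simp only [S, mem_filter, mem_univ, true_and, if_neg hv]
  have cS : ∀ I a, Uᶜ.card ≤ (S I a).card + (I a).card := by
    intro I a
    rw [← card_union_add_card_inter]
    refine le_trans (card_le_card ?_) (Nat.le_add_right _ _)
    intro v hv
    rw [mem_compl] at hv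
    rw [mem_union]
    by_cases h : v ∈ I a
    · exact Or.inr h
    · exact Or.inl ((mS2 I a v hv).2 h)
  -- the classes
  obtain ⟨A1, I, Z, Sp, q1, q2, q3, q4, q5, q6, q7, q8, q9, q10, q11, q12, q13, q14, q15⟩ :
      ∃ (A1 : Finset (Fin (D + 2))) (I Z : Fin (D + 2) → Finset V) (Sp : Finset V),
        A1 ⊆ Lt ∧ A1.card ≤ k0 ∧ (∀ a, a ∉ A1 → I a = ∅) ∧ (∀ a, Disjoint (I a) U) ∧
        (∀ a, (I a).card ≤ s) ∧ (∀ a, ∀ w ∈ I a, a ∉ forb w) ∧
        (∀ a, ∀ u ∈ I a, ∀ v ∈ I a, κ u = κ v) ∧ (∀ a b, a ≠ b → Disjoint (I a) (I b)) ∧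
        {w | w ∉ U ∧ ∀ a, w ∉ I a}.ncard + (k0 + 32) ≤ D + 1 ∧
        (∀ a ∈ A0 ∪ A1, ∀ v ∈ Z a, v ∈ S I a ∧ v ∈ L) ∧
        (∀ a ∈ A0 ∪ A1, Even (Z a).card ∨ 2 * (Z a).card ≤ (S I a).card + 1) ∧
        (∀ a ∈ A0 ∪ A1, ∀ v ∈ L, v ∈ S I a → v ∉ Z a → v ∈ Sp) ∧
        (∀ a ∈ A0 ∪ A1, ∀ b ∈ A0 ∪ A1, ∀ v ∈ L, v ∈ S I a → v ∉ Z a → v ∈ S I b → v ∉ Z b →
          a = b) ∧ Disjoint Sp U ∧ ∀ u ∈ Sp, ∀ v ∈ Sp, κ u = κ v := by
    by_cases hsm : L = ∅ ∨ 2 * L.card + s ≤ Uᶜ.card
    · obtain ⟨A1, I, p1, p2, p3, p4, p5, p6, p7⟩ := hBLK V c s (D + 2) 0 κ Uᶜ Lt forb hs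
        (hforb Uᶜ disjoint_compl_left) cLt
      refine ⟨A1, I, fun a => (S I a).filter (fun v => v ∈ L), ∅, p1, p2, p3, ?_,
        fun a => (p4 a).2.1, fun a => (p4 a).2.2.1, fun a => (p4 a).2.2.2, p5, ?_, ?_, ?_, ?_, ?_,
        ?_, ?_⟩
      · intro a
        exact Disjoint.mono_left (p4 a).1 disjoint_compl_left
      · have h1 : {w | w ∉ U ∧ ∀ a, w ∉ I a} = {w | w ∈ Uᶜ ∧ ∀ a, w ∉ I a} := by
          ext w
          simp only [Set.mem_ofPred_eq, mem_compl]
        rw [h1]
        omega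
      · intro a _ v hv
        exact mem_filter.1 hv
      · intro a _
        change Even ((S I a).filter (fun v => v ∈ L)).card ∨
          2 * ((S I a).filter (fun v => v ∈ L)).card ≤ (S I a).card + 1
        rcases hsm with h | h
        · left
          have : (S I a).filter (fun v => v ∈ L) = ∅ := by
            rw [filter_eq_empty_iff]
            intro v _
            rw [h]
            exact notMem_empty _
          rw [this, card_empty]
          exact Even.zero
        · right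
          have h1 : ((S I a).filter (fun v => v ∈ L)).card ≤ L.card := by
            apply card_le_card
            intro v hv
            exact (mem_filter.1 hv).2
          have h2 := cS I a
          have h3 := (p4 a).2.1
          omega
      · intro a _ v hv hv' hv''
        exact absurd (mem_filter.2 ⟨hv', hv⟩) hv''
      · intro a _ b _ v hv hv' hv''
        exact absurd (mem_filter.2 ⟨hv', hv⟩) hv''
      · exact disjoint_empty_left _
      · intro u hu
        exact absurd hu (notMem_empty _)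
    · push Not at hsm
      obtain ⟨hne, hlt⟩ := hsm
      have hYU : Disjoint (L \ U) U := disjoint_sdiff_self_left
      obtain ⟨A1, I, p1, p2, p3, p4, p5, p6, p7⟩ := hBLK V c s (D + 2) L.card κ (L \ U) Lt forb hs
        (hforb (L \ U) hYU) cLt
      have cLs : (L \ U).card + (L ∩ U).card = L.card := by
        rw [card_sdiff_add_card_inter]
      obtain ⟨v0, hv0⟩ := hne
      have g1 := big v0 hv0
      have g2 := (mL v0).1 hv0
      have g3 := ltn v0
      have g4 : (N v0).card ≤ Uᶜ.card := by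
        apply card_le_card
        intro w hw
        simp only [N, mem_filter, mem_univ, true_and] at hw
        exact mem_compl.2 hw.1
      have g5 := N4 (by omega)
      obtain ⟨Sp, Zs, r1, r2, r3, r4⟩ := hSPC V c (D + 2) κ A0
        (fun a => L.filter (fun v => v ∈ U → a ≠ f0 v ∧ a ≠ e0 v)) (L \ U)
        (by
          have h1 : A0.card * c ≤ 32 * c := Nat.mul_le_mul_right _ cA0
          omega)
        (by
          intro a v hv
          rw [mem_sdiff] at hv
          rw [mem_filter]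
          exact ⟨hv.1, fun h => absurd h hv.2⟩)
      have hA01 : ∀ a ∈ A0, a ∉ A1 := fun a ha ha' => (mLt a (p1 ha')).2 ha
      have XS : ∀ a ∈ A0, ∀ v, v ∈ L.filter (fun v => v ∈ U → a ≠ f0 v ∧ a ≠ e0 v) ↔
          v ∈ S I a ∧ v ∈ L := by
        intro a ha v
        rw [mem_filter]
        by_cases hv : v ∈ U
        · rw [mS1 I a v hv]
          exact ⟨fun h => ⟨⟨h.1, h.2 hv⟩, h.1⟩, fun h => ⟨h.2, fun _ => h.1.2⟩⟩
        · rw [mS2 I a v hv, p3 a (hA01 a ha)]
          exact ⟨fun h => ⟨notMem_empty _, h.1⟩, fun h => ⟨h.2, fun h' => absurd h' hv⟩⟩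
      let Z : Fin (D + 2) → Finset V := fun a =>
        if a ∈ A0 then Zs a else (S I a).filter (fun v => v ∈ L)
      have Z0 : ∀ a, a ∈ A0 → Z a = Zs a := fun a h => if_pos h
      have Z1 : ∀ a, a ∉ A0 → Z a = (S I a).filter (fun v => v ∈ L) := fun a h => if_neg h
      have mis : ∀ a, ∀ v ∈ L, v ∈ S I a → v ∉ Z a →
          a ∈ A0 ∧ v ∈ (L.filter (fun v => v ∈ U → a ≠ f0 v ∧ a ≠ e0 v)) \ Zs a := by
        intro a v hv hv' hv''
        by_cases ha : a ∈ A0
        · rw [Z0 a ha] at hv''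
          exact ⟨ha, mem_sdiff.2 ⟨(XS a ha v).2 ⟨hv', hv⟩, hv''⟩⟩
        · rw [Z1 a ha] at hv''
          exact absurd (mem_filter.2 ⟨hv', hv⟩) hv''
      refine ⟨A1, I, Z, Sp, p1, p2, p3, ?_, fun a => (p4 a).2.1, fun a => (p4 a).2.2.1,
        fun a => (p4 a).2.2.2, p5, ?_, ?_, ?_, ?_, ?_, ?_, r2⟩
      · intro a
        exact Disjoint.mono_left (p4 a).1 hYU
      · have h1 : {w | w ∉ U ∧ ∀ a, w ∉ I a} ⊆ {w | w ∈ L \ U ∧ ∀ a, w ∉ I a} ∪
            ((Uᶜ \ (L \ U) : Finset V) : Set V) := by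
          rintro w ⟨h1, h2⟩
          by_cases h : w ∈ L \ U
          · exact Or.inl ⟨h, h2⟩
          · right
            rw [Finset.mem_coe, mem_sdiff, mem_compl]
            exact ⟨h1, h⟩
        have h2 := (Set.ncard_le_ncard h1 (Set.toFinite _)).trans (Set.ncard_union_le _ _)
        rw [Set.ncard_coe_finset] at h2
        have h3 : (Uᶜ \ (L \ U)).card + (L \ U).card = Uᶜ.card := by
          rw [card_sdiff_add_card_eq_card]
          intro v hv
          rw [mem_compl]
          exact (mem_sdiff.1 hv).2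
        have h4 : Uᶜ.card ≤ Fintype.card V := card_le_univ _
        omega
      · intro a ha v hv
        by_cases h : a ∈ A0
        · rw [Z0 a h] at hv
          exact (XS a h v).1 ((r3 a h).1 hv)
        · rw [Z1 a h] at hv
          exact mem_filter.1 hv
      · intro a ha
        left
        by_cases h : a ∈ A0
        · rw [Z0 a h]
          exact (r3 a h).2.1
        · have ha1 : a ∈ A1 := (mem_union.1 ha).resolve_left h
          rw [Z1 a h]
          have h1 : (S I a).filter (fun v => v ∈ L) = L \ I a := by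
            ext v
            rw [mem_filter, mem_sdiff]
            by_cases hv : v ∈ U
            · rw [mS1 I a v hv]
              constructor
              · intro h2
                refine ⟨h2.2, fun h3 => ?_⟩
                exact (mem_sdiff.1 ((p4 a).1 h3)).2 hv
              · intro h2
                exact ⟨⟨h2.1, light a (p1 ha1) v h2.1 hv⟩, h2.1⟩
            · rw [mS2 I a v hv]
              exact ⟨fun h2 => ⟨h2.2, h2.1⟩, fun h2 => ⟨h2.2, h2.1⟩⟩
          rw [h1]
          have h2 : (L \ I a).card + (I a).card = L.card := by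
            rw [card_sdiff_add_card_eq_card]
            exact (p4 a).1.trans sdiff_subset
          obtain ⟨r, hr⟩ := p6 a ha1
          exact ⟨r - (I a).card, by omega⟩
      · intro a ha v hv hv' hv''
        obtain ⟨h1, h2⟩ := mis a v hv hv' hv''
        exact (r3 a h1).2.2 h2
      · intro a ha b hb v hv h1 h2 h3 h4
        obtain ⟨h5, h6⟩ := mis a v hv h1 h2
        obtain ⟨h7, h8⟩ := mis b v hv h3 h4
        by_contra hne
        exact (Finset.disjoint_left.1 (r4 a h5 b h7 hne)) h6 h8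
      · exact Disjoint.mono_left r1 hYU
  -- the total colouring
  have cA : (A0 ∪ A1).card ≤ k0 + 32 := by
    have := card_union_le A0 A1
    omega
  refine core5 hPM hVB hHALL hBIN hSUM1 G H D U L Sp f0 e0 (A0 ∪ A1) I Z (S I) hHG hHm hU hUU hU2
    hf0 he0 hef hdeg ?_ ?_ q4 q8 ?_ ?_ (fun a v hv => mS1 I a v hv) (fun a v hv => mS2 I a v hv)
    (fun a ha v hv => (q10 a ha v hv).1) q11 ?_ q12 q13 q14 ?_ (by omega) (by omega) (by omega) ?_
  · intro v hv
    rw [mL] at hv
    omega
  · intro a ha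
    exact q3 a (fun h => ha (mem_union_right _ h))
  · intro a u hu v hv h
    exact hκ u v h (q7 a u hu v hv)
  · intro a w hw u hu huw h
    exact q6 a w hw ((mforb w a).2 ⟨u, hu, huw, h.symm⟩)
  · intro a ha v hv
    have h1 := (mL v).1 (q10 a ha v hv).2
    have h2 : G.neighborSet v ⊆ {w | w ∈ S I a ∧ (G \ H).Adj v w} ∪
        ((I a ∪ univ.filter (fun u => u ∈ U ∧ G.Adj u v) : Finset V) : Set V) := by
      intro w hw
      by_cases hwU : w ∈ U
      · right
        rw [Finset.mem_coe, mem_union, mem_filter]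
        exact Or.inr ⟨mem_univ _, hwU, (show G.Adj v w from hw).symm⟩
      · by_cases hwI : w ∈ I a
        · right
          rw [Finset.mem_coe, mem_union]
          exact Or.inl hwI
        · left
          refine ⟨(mS2 I a w hwU).2 hwI, ?_⟩
          rw [SimpleGraph.sdiff_adj]
          refine ⟨hw, fun h => ?_⟩
          exact hwU ((hU w).2 ⟨v, h.symm⟩)
    have h3 := (Set.ncard_le_ncard h2 (Set.toFinite _)).trans (Set.ncard_union_le _ _)
    rw [Set.ncard_coe_finset] at h3
    have h4 := card_union_le (I a) (univ.filter (fun u => u ∈ U ∧ G.Adj u v))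
    have h5 := two v
    have h6 := q5 a
    have h7 : (S I a).card ≤ Fintype.card V := card_le_univ _
    omega
  · intro u hu v hv h
    exact hκ u v h (q15 u hu v hv)
  · intro b hb
    have h1 : b ∉ A0 := fun h => hb (mem_union_left _ h)
    by_contra hcon
    apply h1
    rw [hA0, mem_filter]
    exact ⟨mem_univ _, by
      rw [not_le] at hcon
      exact hcon⟩

end Pool.Agent.D0H38.TD
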