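import Pool.Agent.D0H38.TD.Loc
import Pool.Agent.D0H38.TD.Core

/-!
# Two additional colours remove all conflicts with the precoloured matching
-/

set_option autoImplicit false

namespace Pool.Agent.D0H38.TD

open Finset

/-- `f` is a colouring of the vertices which extends the precolouring, `g` a colouring of the edges outside
the matching; two new colours suffice to remove the conflicts at the covered vertices -/
theorem fix {V : Type} [Fintype V] (G H : SimpleGraph V) (M : ℕ)
    (hm : ∀ u v w, H.Adj u v → H.Adj u w → v = w)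
    (A1 : ∀ u v, G.Adj u v → (∃ x, H.Adj u x) → (∃ y, H.Adj v y) → H.Adj u v)
    (A2 : ∀ q p p', G.Adj q p → G.Adj q p' → (∃ x, H.Adj p x) → (∃ y, H.Adj p' y) → p ≠ p' →
      H.Adj p p')
    (f0 : V → ℕ) (g0 : V → V → ℕ) (h1 : ∀ u v, H.Adj u v → f0 u ≠ f0 v)
    (h2 : ∀ u v, H.Adj u v → g0 u v = g0 v u) (h3 : ∀ u v, H.Adj u v → g0 u v ≠ f0 u)
    (f : V → ℕ) (fC : ∀ v, (∃ x, H.Adj v x) → f v = f0 v) (flt : ∀ v, ¬ (∃ x, H.Adj v x) → f v < M)
    (fprop : ∀ u v, G.Adj u v → f u ≠ f v) (g : V → V → ℕ)
    (gs' : ∀ u v, G.Adj u v → ¬ H.Adj u v → g u v = g v u)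
    (gl' : ∀ u v, G.Adj u v → ¬ H.Adj u v → g u v < M)
    (gp' : ∀ u v w, G.Adj u v → ¬ H.Adj u v → G.Adj u w → ¬ H.Adj u w → g u v = g u w → v = w)
    (gf' : ∀ u v, G.Adj u v → ¬ H.Adj u v → ¬ (∃ x, H.Adj u x) → g u v ≠ f u) :
    ∃ (f : V → ℕ) (g : V → V → ℕ), (∀ u v, G.Adj u v → g u v = g v u) ∧
      (∀ u v, G.Adj u v → f u ≠ f v) ∧
      (∀ u v w, G.Adj u v → G.Adj u w → v ≠ w → g u v ≠ g u w) ∧
      (∀ u v, G.Adj u v → g u v ≠ f u) ∧
      (∀ u, (∃ x, H.Adj u x) → f u = f0 u) ∧ (∀ u v, H.Adj u v → g u v = g0 u v) ∧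
      (∀ u, (∃ x, H.Adj u x) ∨ f u < M + 2) ∧
      ∀ u v, G.Adj u v → H.Adj u v ∨ g u v < M + 2 := by
  classical
  set C : V → Prop := fun v => ∃ x, H.Adj v x with hC
  let Γ : SimpleGraph V :=
    { Adj := fun u v => G.Adj u v ∧ ¬ H.Adj u v
      symm := ⟨fun _ _ h => ⟨h.1.symm, fun h' => h.2 h'.symm⟩⟩
      loopless := ⟨fun a h => G.loopless.irrefl a h.1⟩ }
  have hΓ : ∀ u v, G.Adj u v → ¬ H.Adj u v → Γ.Adj u v := fun u v h h' => ⟨h, h'⟩
  have gs : ∀ u v, Γ.Adj u v → g u v = g v u := fun u v h => gs' u v h.1 h.2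
  have gl : ∀ u v, Γ.Adj u v → g u v < M := fun u v h => gl' u v h.1 h.2
  have gp : ∀ u v w, Γ.Adj u v → Γ.Adj u w → g u v = g u w → v = w :=
    fun u v w h h' => gp' u v w h.1 h.2 h'.1 h'.2
  have gf : ∀ u v, Γ.Adj u v → ¬ C u → g u v ≠ f u := fun u v h => gf' u v h.1 h.2
  -- the local recolouring
  obtain ⟨T, hT⟩ := sym_choice (α := V → ℕ) (fun p p' => H.Adj p p') (fun p q h => h.symm)
    (fun p => H.loopless.irrefl p)
    (fun p p' h h' => Good (fun q => Γ.Adj p q) (fun q => Γ.Adj p' q) (g p) (g p') (f0 p) (f0 p')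
      (g0 p p') (M) (M + 1) h h')
    (by
      intro p p' hpp
      refine loc (fun q => Γ.Adj p q) (fun q => Γ.Adj p' q) (g p) (g p')
        (fun a b ha hb hab => gp p a b ha hb hab) (fun a b ha hb hab => gp p' a b ha hb hab) ?_
        (f0 p) (f0 p') (g0 p p') (M) (M + 1) (h1 p p' hpp) (h3 p p' hpp).symm ?_ (by omega) ?_ ?_
      · intro q hq hq' h
        rw [gs p q hq, gs p' q hq'] at h
        exact hpp.ne (gp q p p' hq.symm hq'.symm h)
      · rw [h2 p p' hpp]
        exact (h3 p' p hpp.symm).symm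
      · intro q hq
        have := gl p q hq
        omega
      · intro q hq
        have := gl p' q hq
        omega)
    (by
      intro p p' hpp h h' hg
      rw [h2 p' p hpp.symm]
      exact hg.swap)
  have hC2 : ∀ u v, H.Adj u v → C u ∧ C v := fun u v h => ⟨⟨v, h⟩, ⟨u, h.symm⟩⟩
  choose! π hπ using (fun (u : V) (hu : C u) => hu)
  have hπu : ∀ u v, H.Adj u v → π u = v := fun u v h => hm u _ _ (hπ u ⟨v, h⟩) h
  have hππ : ∀ u, C u → π (π u) = u := fun u hu => hπu _ _ (hπ u hu).symm
  have G1 : ∀ u, C u → Good (fun q => Γ.Adj u q) (fun q => Γ.Adj (π u) q) (g u) (g (π u)) (f0 u)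
      (f0 (π u)) (g0 u (π u)) (M) (M + 1) (T u (π u)) (T (π u) u) :=
    fun u hu => hT u (π u) (hπ u hu)
  -- no edges between covered vertices outside the matching
  have hCC : ∀ u v, Γ.Adj u v → C u → ¬ C v := fun u v h hu hv => h.2 (A1 u v h.1 hu hv)
  set gg : V → V → ℕ := fun u v => if H.Adj u v then g0 u v else if C u then T u (π u) v
    else if C v then T v (π v) u else g u v with hgg
  have q0 : ∀ u v, H.Adj u v → gg u v = g0 u v := by
    intro u v h
    simp only [hgg]
    rw [if_pos h]
  have q1 : ∀ u v, ¬ H.Adj u v → C u → gg u v = T u (π u) v := by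
    intro u v h h'
    simp only [hgg]
    rw [if_neg h, if_pos h']
  have q2 : ∀ u v, ¬ H.Adj u v → ¬ C u → C v → gg u v = T v (π v) u := by
    intro u v h h' h''
    simp only [hgg]
    rw [if_neg h, if_neg h', if_pos h'']
  have q3 : ∀ u v, ¬ H.Adj u v → ¬ C u → ¬ C v → gg u v = g u v := by
    intro u v h h' h''
    simp only [hgg]
    rw [if_neg h, if_neg h', if_neg h'']
  have hn : ∀ u v, ¬ C u → ¬ H.Adj u v := fun u v hu h => hu (hC2 u v h).1
  -- the values at an uncovered vertex
  have vals : ∀ u v, Γ.Adj u v → ¬ C u → C v → T v (π v) u = M ∨ T v (π v) u = M + 1 ∨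
      T v (π v) u = g u v ∨ (Γ.Adj u (π v) ∧ T v (π v) u = g u (π v)) := by
    intro u v huv hu hv
    rcases (G1 v hv).vals u huv.symm with k | k | k | ⟨k, k'⟩
    · exact Or.inl k
    · exact Or.inr (Or.inl k)
    · refine Or.inr (Or.inr (Or.inl ?_))
      rw [k, gs v u huv.symm]
    · refine Or.inr (Or.inr (Or.inr ⟨k.symm, ?_⟩))
      rw [k', gs (π v) u k]
  refine ⟨f, gg, ?_, fprop, ?_, ?_, fC, q0, ?_, ?_⟩
  · -- symmetry
    intro u v huv
    by_cases h : H.Adj u v
    · rw [q0 u v h, q0 v u h.symm, h2 u v h]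
    · have h' : ¬ H.Adj v u := fun k => h k.symm
      by_cases hu : C u
      · have hv := hCC u v ⟨huv, h⟩ hu
        rw [q1 u v h hu, q2 v u h' hv hu]
      · by_cases hv : C v
        · rw [q2 u v h hu hv, q1 v u h' hv]
        · rw [q3 u v h hu hv, q3 v u h' hv hu]
          exact gs u v ⟨huv, h⟩
  · -- proper
    intro u v w huv huw hvw
    by_cases hu : C u
    · by_cases hv : H.Adj u v
      · by_cases hw : H.Adj u w
        · exact absurd (hm u v w hv hw) hvw
        · rw [q0 u v hv, q1 u w hw hu]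
          have k := (G1 u hu).av w ⟨huw, hw⟩
          rw [hπu u v hv] at k ⊢
          exact k.2.symm
      · by_cases hw : H.Adj u w
        · rw [q0 u w hw, q1 u v hv hu]
          have k := (G1 u hu).av v ⟨huv, hv⟩
          rw [hπu u w hw] at k ⊢
          exact k.2
        · rw [q1 u v hv hu, q1 u w hw hu]
          intro h
          exact hvw ((G1 u hu).inj v w ⟨huv, hv⟩ ⟨huw, hw⟩ h)
    · have hv := hn u v hu
      have hw := hn u w hu
      have huv' : Γ.Adj u v := ⟨huv, hv⟩
      have huw' : Γ.Adj u w := ⟨huw, hw⟩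
      have gv := gl u v huv'
      have gw := gl u w huw'
      by_cases cv : C v
      · by_cases cw : C w
        · have hH := A2 u v w huv huw cv cw hvw
          rw [q2 u v hv hu cv, q2 u w hw hu cw, hπu v w hH, hπu w v hH.symm]
          have k := (G1 v cv).ne u huv'.symm (by
            rw [hπu v w hH]
            exact huw'.symm)
          rw [hπu v w hH] at k
          exact k
        · rw [q2 u v hv hu cv, q3 u w hw hu cw]
          rcases vals u v huv' hu cv with k | k | k | ⟨k, k'⟩
          · omega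
          · omega
          · rw [k]
            intro h
            exact hvw (gp u v w huv' huw' h)
          · rw [k']
            intro h
            have := gp u (π v) w k huw' h
            exact cw (this ▸ (hC2 _ _ (hπ v cv)).2)
      · by_cases cw : C w
        · rw [q3 u v hv hu cv, q2 u w hw hu cw]
          rcases vals u w huw' hu cw with k | k | k | ⟨k, k'⟩
          · omega
          · omega
          · rw [k]
            intro h
            exact hvw (gp u v w huv' huw' h)
          · rw [k']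
            intro h
            have := gp u v (π w) huv' k h
            exact cv (this ▸ (hC2 _ _ (hπ w cw)).2)
        · rw [q3 u v hv hu cv, q3 u w hw hu cw]
          intro h
          exact hvw (gp u v w huv' huw' h)
  · -- colours of the ends
    intro u v huv
    by_cases hu : C u
    · rw [fC u hu]
      by_cases hv : H.Adj u v
      · rw [q0 u v hv]
        exact h3 u v hv
      · rw [q1 u v hv hu]
        exact ((G1 u hu).av v ⟨huv, hv⟩).1
    · have hv := hn u v hu
      have huv' : Γ.Adj u v := ⟨huv, hv⟩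
      have k0 := flt u hu
      by_cases cv : C v
      · rw [q2 u v hv hu cv]
        rcases vals u v huv' hu cv with k | k | k | ⟨k, k'⟩
        · omega
        · omega
        · rw [k]
          exact gf u v huv' hu
        · rw [k']
          exact gf u (π v) k hu
      · rw [q3 u v hv hu cv]
        exact gf u v huv' hu
  · intro u
    by_cases hu : C u
    · exact Or.inl hu
    · right
      have := flt u hu
      omega
  · intro u v huv
    by_cases h : H.Adj u v
    · exact Or.inl h
    · right
      have key : ∀ u v, Γ.Adj u v → C v → T v (π v) u < M + 2 := by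
        intro u v huv hv
        rcases vals u v huv (fun hu => hCC v u huv.symm hv hu) hv with k | k | k | ⟨k, k'⟩
        · omega
        · omega
        · have := gl u v huv
          omega
        · have := gl u (π v) k
          omega
      by_cases hu : C u
      · rw [q1 u v h hu]
        exact key v u (SimpleGraph.Adj.symm (G := Γ) ⟨huv, h⟩) hu
      · by_cases hv : C v
        · rw [q2 u v h hu hv]
          exact key u v ⟨huv, h⟩ hv
        · rw [q3 u v h hu hv]
          have := gl u v ⟨huv, h⟩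
          omega

end Pool.Agent.D0H38.TD
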