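import Mathlib

/-!
# Project TD (helper38, MP_db9399_co): statements of two modules
-/

set_option autoImplicit false

namespace Pool.Agent.D0H38.TD

/-- EQ: one class of an equitable edge colouring (de Werra) of a bipartite multigraph with `k` colours.
Proof: number the edges at each vertex `a` (fibre of `s`) by `0, ..., deg a - 1` (bijection with `Fin`), and
replace `a` by the copies `(a, j)`: the edge `e` goes to the copy `(s e, index e / k)`; the same for `t`.
Every copy has at most `k` edges, so there is a proper edge colouring with the colours `Fin k`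
(`Pool.Agent.H997LT.koenig_le`, file Pool/Agent/H997LT/Koenig.lean: Koenig's theorem for multigraphs); let `F` be the
colour class of `0`. A copy `(a, j)` with `j < deg a / k` has exactly `k` edges with different colours, so
exactly one edge in `F`; each of the other copies (there is at most one, nonempty only if `k` does not
divide `deg a`) has at most one edge in `F`. -/
def S_EQ : Prop :=
  ∀ (E A B : Type) [Fintype E] [Fintype A] [Fintype B] (s : E → A) (t : E → B) (k : ℕ), 0 < k →
    ∃ F : Set E,
      (∀ a, {e | s e = a}.ncard / k ≤ {e | e ∈ F ∧ s e = a}.ncard ∧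
        k * {e | e ∈ F ∧ s e = a}.ncard ≤ {e | s e = a}.ncard + (k - 1)) ∧
      (∀ b, {e | t e = b}.ncard / k ≤ {e | e ∈ F ∧ t e = b}.ncard ∧
        k * {e | e ∈ F ∧ t e = b}.ncard ≤ {e | t e = b}.ncard + (k - 1))

/-- BIS: bisection of all neighbourhoods by the local lemma. Choose `X` at random (each vertex with
probability 1/2, i.e. count the functions `V → Bool`). By Hoeffding's inequality (in the library:
`Pool.Agent.W177.KF.Hoef` proves `S_HOEF` of project W842.KF; or directly: the moment generating function
`∑_ω ∏_{w ∈ N(v)} exp (±λ) = 2^n cosh(λ)^deg ≤ 2^n exp(deg λ²/2)`, with `Real.cosh_le_exp_half_sq`) the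
probability of `| |N(v) ∩ X| - deg v / 2 | > x` is at most `2 exp (-2 x² / D) ≤ 2 / (8 D²)`. The event of `v` depends
only on the labels of `N(v)`, and `N(v)` meets at most `D²` sets `N(u)`; local lemma with `2 e D² ≤ 8 D²`
(the library: `Pool.Agent.Helper208.Rainbow.LLL`, see its use at the end of Pool/Agent/D0H38/TC/Part.lean). -/
def S_BIS : Prop :=
  ∀ (V : Type) [Fintype V] (G : SimpleGraph V) (D : ℕ), 1 ≤ D →
    (∀ v, (G.neighborSet v).ncard ≤ D) → ∀ x : ℝ, 0 ≤ x →
    (D : ℝ) * Real.log (8 * (D : ℝ) ^ 2) ≤ 2 * x ^ 2 →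
    ∃ X : Set V, ∀ v, |({w | G.Adj v w ∧ w ∈ X}.ncard : ℝ) - ((G.neighborSet v).ncard : ℝ) / 2| ≤ x

end Pool.Agent.D0H38.TD
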