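import Mathlib

/-!
# Project TD (helper38, MP_db9399_co), part 4: a permutation of the colours which avoids the forbidden ones
-/

set_option autoImplicit false

namespace Pool.Agent.D0H38.TD

/-- HALL. Proof: Hall's theorem `Finset.all_card_le_biUnion_card_iff_exists_injective` for the index set
`Fin M` (colours `β`) and `t β = {j | ∀ v, f v = j → β ∉ forb v}`; an injective `π : Fin M → Fin M` with
`π β ∈ t β` is bijective, `σ = π⁻¹`. Hall's condition for `X`: a `j` outside the union of the `t β`, `β ∈ X`, has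
`X ⊆ ⋃_{f v = j} forb v`, so `|X| ≤ 2 |{v | f v = j}|`. If `|X| ≤ 2`: the union contains `j₁` and `j₂`. If
`|X| ≥ 3`: such `j` have at least two `v`, so there are at most `k` of them, and the union has at least `M - k`
elements; if `|X| > M - k`, then `|X| > 2 S`, so there is no such `j` and the union is everything. -/
def S_HALL : Prop :=
  ∀ (V : Type) [Fintype V] (M k S : ℕ) (f : V → Fin M) (forb : V → Finset (Fin M)),
    (∀ v, (forb v).card ≤ 2) → {j | 2 ≤ {v | f v = j}.ncard}.ncard ≤ k →
    (∀ j, {v | f v = j}.ncard ≤ S) → 2 * S + k ≤ M →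
    (∃ j₁ j₂ : Fin M, j₁ ≠ j₂ ∧ (∀ v, f v ≠ j₁) ∧ ∀ v, f v ≠ j₂) →
    ∃ σ : Equiv.Perm (Fin M), ∀ v, σ (f v) ∉ forb v

end Pool.Agent.D0H38.TD
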