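import Pool.Agent.D0H2.TD.Eq
import Pool.Agent.D0H2.TD.Bis

/-!
# A bipartite subgraph of degrees at most `r` which lowers the degrees by `r - t`
-/

set_option autoImplicit false

namespace Pool.Agent.D0H38.TD

open Finset

theorem ncard_s {V : Type} [Fintype V] (R : V → V → Prop) (v : V) :
    {e : {e : V × V // R e.1 e.2} | e.1.1 = v}.ncard = {w | R v w}.ncard := by
  refine Set.ncard_congr (fun e _ => e.1.2) ?_ ?_ ?_
  · rintro ⟨⟨a, b⟩, h⟩ rfl
    exact h
  · rintro ⟨⟨a, b⟩, h⟩ ⟨⟨a', b'⟩, h'⟩ rfl h2 h3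
    simp only [Set.mem_ofPred_eq] at h2
    subst h2
    simp only at h3
    subst h3
    rfl
  · intro w hw
    exact ⟨⟨(v, w), hw⟩, rfl, rfl⟩

theorem ncard_t {V : Type} [Fintype V] (R : V → V → Prop) (v : V) :
    {e : {e : V × V // R e.1 e.2} | e.1.2 = v}.ncard = {w | R w v}.ncard := by
  refine Set.ncard_congr (fun e _ => e.1.1) ?_ ?_ ?_
  · rintro ⟨⟨a, b⟩, h⟩ rfl
    exact h
  · rintro ⟨⟨a, b⟩, h⟩ ⟨⟨a', b'⟩, h'⟩ rfl h2 h3
    simp only [Set.mem_ofPred_eq] at h2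
    subst h2
    simp only at h3
    subst h3
    rfl
  · intro w hw
    exact ⟨⟨(w, v), hw⟩, rfl, rfl⟩

theorem sub {V : Type} [Fintype V] (Γ : SimpleGraph V) (D r t : ℕ) (x : ℝ) (hr : 1 ≤ r)
    (hD1 : 1 ≤ D) (hdeg : ∀ v, (Γ.neighborSet v).ncard ≤ D) (hx : 0 ≤ x)
    (hlog : (D : ℝ) * Real.log (8 * (D : ℝ) ^ 2) ≤ 2 * x ^ 2)
    (hD : 4 * x * r + 3 * (r : ℝ) ^ 2 ≤ t * D) :
    ∃ (X : Set V) (F : V → V → Prop), (∀ u v, F u v → u ∈ X ∧ v ∉ X ∧ Γ.Adj u v) ∧
      (∀ v, {w | F v w}.ncard ≤ r) ∧ (∀ v, {u | F u v}.ncard ≤ r) ∧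
      ∀ v, {w | Γ.Adj v w ∧ ¬ F v w ∧ ¬ F w v}.ncard + r ≤ D + t := by
  classical
  have hr' : (1 : ℝ) ≤ r := by exact_mod_cast hr
  have hD3 : (1 : ℝ) ≤ D := by exact_mod_cast hD1
  obtain ⟨X, hX⟩ := Pool.Agent.D0H2.TD.t_BIS V Γ D hD1 hdeg x hx hlog
  set R : V → V → Prop := fun u v => u ∈ X ∧ v ∉ X ∧ Γ.Adj u v with hR
  set k : ℕ := ⌈((D : ℝ) / 2 + x) / r⌉₊ with hk
  have hr0 : (0 : ℝ) < r := by linarith
  have hkpos : 0 < k := Nat.ceil_pos.2 (by positivity)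
  have hk1 : ((D : ℝ) / 2 + x) / r ≤ k := Nat.le_ceil _
  have hk2 : (k : ℝ) < ((D : ℝ) / 2 + x) / r + 1 := Nat.ceil_lt_add_one (by positivity)
  have hk3 : (D : ℝ) / 2 + x ≤ k * r := by rwa [div_le_iff₀ hr0] at hk1
  have hk4 : t ≤ r → ((r : ℝ) - t) * k ≤ ((D : ℝ) + t + 1 - r) / 2 - x := by
    intro htr
    have htr' : (t : ℝ) ≤ r := by exact_mod_cast htr
    have ht0 : (0 : ℝ) ≤ t := by positivity
    have e1 : ((D : ℝ) / 2 + x) / r * r = (D : ℝ) / 2 + x := by field_simp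
    have e2 : ((r : ℝ) - t) * k ≤ (r - t) * (((D : ℝ) / 2 + x) / r + 1) :=
      mul_le_mul_of_nonneg_left hk2.le (by linarith)
    have e3 : (2 * x + 3 / 2 * r) ≤ t * (((D : ℝ) / 2 + x) / r) := by
      rw [← mul_div_assoc, le_div_iff₀ hr0]
      nlinarith [mul_nonneg ht0 hx]
    nlinarith
  obtain ⟨F, hFs, hFt⟩ := Pool.Agent.D0H2.TD.t_EQ {e : V × V // R e.1 e.2} V V
    (fun e => e.1.1) (fun e => e.1.2) k hkpos
  -- the crossing degrees
  have hcr : ∀ v, ({w | R v w}.ncard : ℝ) ≤ (D : ℝ) / 2 + x ∧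
      (v ∈ X → ((Γ.neighborSet v).ncard : ℝ) / 2 - x ≤ {w | R v w}.ncard) := by
    intro v
    have h1 := abs_le.1 (hX v)
    have h2 : ((Γ.neighborSet v).ncard : ℝ) ≤ D := by exact_mod_cast hdeg v
    by_cases hv : v ∈ X
    · have h3 : {w | R v w} = Γ.neighborSet v \ {w | Γ.Adj v w ∧ w ∈ X} := by
        ext w
        simp only [hR, Set.mem_ofPred_eq, Set.mem_diff, SimpleGraph.mem_neighborSet]
        tauto
      have h4 : ({w | R v w}.ncard : ℝ) = (Γ.neighborSet v).ncard -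
          {w | Γ.Adj v w ∧ w ∈ X}.ncard := by
        rw [h3]
        have h5 := Set.ncard_diff_add_ncard_of_subset
          (show {w | Γ.Adj v w ∧ w ∈ X} ⊆ Γ.neighborSet v from fun w hw => hw.1) (Set.toFinite _)
        have h6 : ((Γ.neighborSet v \ {w | Γ.Adj v w ∧ w ∈ X}).ncard : ℝ) +
            {w | Γ.Adj v w ∧ w ∈ X}.ncard = (Γ.neighborSet v).ncard := by exact_mod_cast h5
        linarith
      rw [h4]
      constructor
      · linarith
      · intro _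
        linarith
    · have h3 : {w | R v w} = ∅ := by
        ext w
        simp [hR, hv]
      rw [h3, Set.ncard_empty]
      constructor
      · push_cast
        positivity
      · intro h
        exact absurd h hv
  have hcr' : ∀ v, ({w | R w v}.ncard : ℝ) ≤ (D : ℝ) / 2 + x ∧
      (v ∉ X → ((Γ.neighborSet v).ncard : ℝ) / 2 - x ≤ {w | R w v}.ncard) := by
    intro v
    have h1 := abs_le.1 (hX v)
    have h2 : ((Γ.neighborSet v).ncard : ℝ) ≤ D := by exact_mod_cast hdeg v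
    by_cases hv : v ∉ X
    · have h3 : {w | R w v} = {w | Γ.Adj v w ∧ w ∈ X} := by
        ext w
        simp only [hR, Set.mem_ofPred_eq]
        rw [Γ.adj_comm v w]
        tauto
      rw [h3]
      constructor
      · linarith
      · intro _
        linarith
    · have h3 : {w | R w v} = ∅ := by
        ext w
        simp only [hR, Set.mem_ofPred_eq, Set.mem_empty_iff_false, iff_false]
        tauto
      rw [h3, Set.ncard_empty]
      constructor
      · push_cast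
        positivity
      · intro h
        exact absurd h hv
  -- the numbers
  have up : ∀ n m : ℕ, (n : ℝ) ≤ (D : ℝ) / 2 + x → k * m ≤ n + (k - 1) → m ≤ r := by
    intro n m h1 h2
    have h3 : n ≤ k * r := by
      have : (n : ℝ) ≤ ((k * r : ℕ) : ℝ) := by
        push_cast
        linarith
      exact_mod_cast this
    by_contra hcon
    have h4 : k * (r + 1) ≤ k * m := Nat.mul_le_mul_left _ (by omega)
    rw [Nat.mul_add, Nat.mul_one] at h4
    omega
  have low : ∀ v n m : ℕ, D + t + 1 ≤ v + r → (v : ℝ) / 2 - x ≤ n → n / k ≤ m → r ≤ m + t := by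
    intro v n m h1 h2 h3
    rcases le_total r t with htr | htr
    · omega
    have h4 : (r - t) * k ≤ n := by
      have h5 : (((r - t) * k : ℕ) : ℝ) ≤ n := by
        rw [Nat.cast_mul, Nat.cast_sub htr]
        have h6 : (D : ℝ) + t + 1 ≤ v + r := by exact_mod_cast h1
        have h7 := hk4 htr
        linarith
      exact_mod_cast h5
    have h7 : r - t ≤ n / k := (Nat.le_div_iff_mul_le hkpos).2 h4
    omega
  let FF : V → V → Prop := fun u v => ∃ h : R u v, (⟨(u, v), h⟩ : {e : V × V // R e.1 e.2}) ∈ F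
  have hns : ∀ v, {e | e ∈ F ∧ e.1.1 = v}.ncard = {w | FF v w}.ncard := by
    intro v
    refine Set.ncard_congr (fun e _ => e.1.2) ?_ ?_ ?_
    · rintro ⟨⟨a, b⟩, h⟩ ⟨h1, rfl⟩
      exact ⟨h, h1⟩
    · rintro ⟨⟨a, b⟩, h⟩ ⟨⟨a', b'⟩, h'⟩ ⟨h1, rfl⟩ ⟨h2, h2'⟩ h3
      simp only at h2' h3
      subst h2'
      subst h3
      rfl
    · rintro w ⟨h, hw⟩
      exact ⟨⟨(v, w), h⟩, ⟨hw, rfl⟩, rfl⟩
  have hnt : ∀ v, {e | e ∈ F ∧ e.1.2 = v}.ncard = {w | FF w v}.ncard := by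
    intro v
    refine Set.ncard_congr (fun e _ => e.1.1) ?_ ?_ ?_
    · rintro ⟨⟨a, b⟩, h⟩ ⟨h1, rfl⟩
      exact ⟨h, h1⟩
    · rintro ⟨⟨a, b⟩, h⟩ ⟨⟨a', b'⟩, h'⟩ ⟨h1, rfl⟩ ⟨h2, h2'⟩ h3
      simp only at h2' h3
      subst h2'
      subst h3
      rfl
    · rintro w ⟨h, hw⟩
      exact ⟨⟨(w, v), h⟩, ⟨hw, rfl⟩, rfl⟩
  have hes : ∀ v, {e : {e : V × V // R e.1 e.2} | e.1.1 = v}.ncard = {w | R v w}.ncard := ncard_s R
  have het : ∀ v, {e : {e : V × V // R e.1 e.2} | e.1.2 = v}.ncard = {w | R w v}.ncard := ncard_t R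
  refine ⟨X, FF, ?_, ?_, ?_, ?_⟩
  · rintro u v ⟨h, _⟩
    exact h
  · intro v
    have h1 := (hFs v).2
    rw [hes, hns] at h1
    exact up _ _ (hcr v).1 h1
  · intro v
    have h1 := (hFt v).2
    rw [het, hnt] at h1
    exact up _ _ (hcr' v).1 h1
  · intro v
    by_cases hsm : (Γ.neighborSet v).ncard + r ≤ D + t
    · have h1 : {w | Γ.Adj v w ∧ ¬ FF v w ∧ ¬ FF w v}.ncard ≤ (Γ.neighborSet v).ncard :=
        Set.ncard_le_ncard (fun w hw => hw.1) (Set.toFinite _)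
      omega
    · have hbig : D + t + 1 ≤ (Γ.neighborSet v).ncard + r := by omega
      by_cases hv : v ∈ X
      · have h1 := (hFs v).1
        rw [hes, hns] at h1
        have h2 := low _ _ _ hbig ((hcr v).2 hv) h1
        have h3 : {w | FF v w} ⊆ Γ.neighborSet v := by
          rintro w ⟨h, _⟩
          exact h.2.2
        have h4 : {w | Γ.Adj v w ∧ ¬ FF v w ∧ ¬ FF w v} ⊆ Γ.neighborSet v \ {w | FF v w} :=
          fun w hw => ⟨hw.1, hw.2.1⟩
        have h5 := Set.ncard_le_ncard h4 (Set.toFinite _)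
        have h6 := Set.ncard_diff_add_ncard_of_subset h3 (Set.toFinite _)
        have h7 := hdeg v
        omega
      · have h1 := (hFt v).1
        rw [het, hnt] at h1
        have h2 := low _ _ _ hbig ((hcr' v).2 hv) h1
        have h3 : {w | FF w v} ⊆ Γ.neighborSet v := by
          rintro w ⟨h, _⟩
          exact h.2.2.symm
        have h4 : {w | Γ.Adj v w ∧ ¬ FF v w ∧ ¬ FF w v} ⊆ Γ.neighborSet v \ {w | FF w v} :=
          fun w hw => ⟨hw.1, hw.2.2⟩
        have h5 := Set.ncard_le_ncard h4 (Set.toFinite _)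
        have h6 := Set.ncard_diff_add_ncard_of_subset h3 (Set.toFinite _)
        have h7 := hdeg v
        omega

end Pool.Agent.D0H38.TD
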